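import Pool.Agent.H96.W.Glob4
import Pool.Agent.H96.DField

/-!
# Artin–Schreier covers of products of curves
-/

set_option autoImplicit false
set_option linter.unusedSectionVars false

namespace Pool.Agent.H96.W

open Pool.Agent.H19.OG

/-- Transport along an isomorphism. -/
theorem hasCharts_equiv {K K' : Type} [Field K] [Field K'] (h : HasCharts K) (e : K ≃+* K') :
    HasCharts K' := by
  obtain ⟨ι, hι, g, i₀, hg, hreg, hfrac⟩ := h
  have hne : ∀ i, e (g i) ≠ 0 := fun i => (map_ne_zero e).mpr (hg i)
  let ea : K →ₐ[ℤ] K' := (e : K →+* K').toIntAlgHom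
  have hmap : ∀ i, (Pool.Agent.H97.chartRing g i).map ea =
      Pool.Agent.H97.chartRing (fun i => e (g i)) i := by
    intro i
    show (Algebra.adjoin ℤ _).map ea = Algebra.adjoin ℤ _
    rw [AlgHom.map_adjoin]
    congr 1
    ext x
    constructor
    · rintro ⟨_, ⟨j, rfl⟩, rfl⟩
      exact ⟨j, (map_div₀ e _ _).symm⟩
    · rintro ⟨j, rfl⟩
      exact ⟨_, ⟨j, rfl⟩, map_div₀ e _ _⟩
  have hmem : ∀ i (x : K), x ∈ Pool.Agent.H97.chartRing g i ↔
      e x ∈ Pool.Agent.H97.chartRing (fun i => e (g i)) i := by
    intro i x
    rw [← hmap i]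
    constructor
    · intro hx
      exact ⟨x, hx, rfl⟩
    · rintro ⟨y, hy, hyx⟩
      rwa [← e.injective hyx]
  let E : ∀ i, Pool.Agent.H97.chartRing g i ≃+*
      Pool.Agent.H97.chartRing (fun i => e (g i)) i := fun i =>
    { toFun := fun x => ⟨e x, (hmem i x).mp x.2⟩
      invFun := fun x => ⟨e.symm x, (hmem i _).mpr (by rw [e.apply_symm_apply]; exact x.2)⟩
      left_inv := fun x => Subtype.ext (e.symm_apply_apply _)
      right_inv := fun x => Subtype.ext (e.apply_symm_apply _)
      map_mul' := fun x y => Subtype.ext (map_mul e _ _)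
      map_add' := fun x y => Subtype.ext (map_add e _ _) }
  refine ⟨ι, hι, fun i => e (g i), i₀, hne, fun i => ?_, ?_⟩
  · have := hreg i
    exact IsRegularRing.of_ringEquiv (E i)
  · apply IsFractionRing.of_field
    intro z
    obtain ⟨a, b, hb, hab⟩ := IsFractionRing.div_surjective
      (A := Pool.Agent.H97.chartRing g i₀) (e.symm z)
    refine ⟨E i₀ a, E i₀ b, ?_⟩
    have h1 := congrArg e hab
    rw [e.apply_symm_apply, map_div₀] at h1
    exact h1.symm

theorem fracCharts_field {K : Type} [Field K] (h : HasCharts K) : FracCharts K := by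
  intro K' _ _ _
  have hb : Function.Bijective (algebraMap K K') := by
    refine ⟨(algebraMap K K').injective, fun z => ?_⟩
    obtain ⟨a, b, -, rfl⟩ := IsFractionRing.div_surjective (A := K) z
    exact ⟨a / b, map_div₀ _ _ _⟩
  exact hasCharts_equiv h (RingEquiv.ofBijective _ hb)

/-- **Models of fields generated by independent function fields of curves and Artin–Schreier
elements.** -/
theorem hasCharts_AS (p : ℕ) [Fact p.Prime] (K : Type) [Field K] [Algebra (ZMod p) K] (n m : ℕ)
    (F : Fin n → IntermediateField (ZMod p) K)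
    (hF : ∀ i, (F i).FG ∧ Algebra.trdeg (ZMod p) (F i) = 1)
    (htr : Algebra.trdeg (ZMod p) K = n) (f : ∀ i, F i) (D : Fin m → Fin n → ZMod p)
    (z : Fin m → K) (hz : ∀ a, z a ^ p - z a = ∑ i, D a i • (f i : K))
    (hgen : (⨆ i, F i) ⊔ IntermediateField.adjoin (ZMod p) (Set.range z) = ⊤) :
    HasCharts K := by
  have hcd : ∀ i, Nonempty (CData p (F i) (f i)) := by
    intro i
    have : Algebra.EssFiniteType (ZMod p) (F i) := IntermediateField.essFiniteType_iff.mpr (hF i).1
    exact nonempty_cdata p (F i) (hF i).2 (f i)
  have cd : ∀ i, CData p (F i) (f i) := fun i => (hcd i).some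
  let G : GData p K (Fin n) (fun i => F i) m :=
    { f := f
      cd := cd
      D := fun i a => D a i
      z := z
      AS := by
        intro a
        rw [hz]
        exact Finset.sum_congr rfl fun i _ => Algebra.smul_def _ _
      gen := by
        intro R hinv hFR hzR
        let R' : IntermediateField (ZMod p) K :=
          { carrier := R
            mul_mem' := fun ha hb => R.mul_mem ha hb
            one_mem' := R.one_mem
            add_mem' := fun ha hb => R.add_mem ha hb
            zero_mem' := R.zero_mem
            algebraMap_mem' := fun a => GData.zmod_mem_R R a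
            inv_mem' := by
              intro x hx
              by_cases hx0 : x = 0
              · rw [hx0, inv_zero]; exact R.zero_mem
              · exact hinv x hx hx0 }
        have h1 : (⊤ : IntermediateField (ZMod p) K) ≤ R' := by
          rw [← hgen]
          refine sup_le (iSup_le fun i w hw => hFR i ⟨w, hw⟩) ?_
          rw [IntermediateField.adjoin_le_iff]
          rintro _ ⟨a, rfl⟩
          exact hzR a
        rw [eq_top_iff]
        intro x _
        exact h1 (show x ∈ (⊤ : IntermediateField (ZMod p) K) from trivial) }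
  refine G.hasCharts ?_
  rw [htr, Fintype.card_fin]

end Pool.Agent.H96.W
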