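import Pool.Agent.H96.W.CData2

/-!
# Existence of the data of a curve
-/

set_option autoImplicit false
set_option linter.unusedSectionVars false

namespace Pool.Agent.H96.W

open MvPolynomial IsLocalRing Pool.Agent.H96.VL

/-- **The data of a curve exist.** -/
theorem nonempty_cdata (p : ℕ) [Fact p.Prime] (F : Type) [Field F] [Algebra (ZMod p) F]
    [Algebra.EssFiniteType (ZMod p) F] (htr : Algebra.trdeg (ZMod p) F = 1) (f : F) :
    Nonempty (CData p F f) := by
  classical
  obtain ⟨x, hx, i1, i2, i3, i4⟩ := exists_sep (ZMod p) F htr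
  have hx0 : x ≠ 0 := by
    rintro rfl
    exact hx (isAlgebraic_zero)
  have hx' : Transcendental (ZMod p) x⁻¹ := by
    intro h
    apply hx
    have := h.inv
    rwa [inv_inv] at this
  obtain ⟨A₀, hA₀⟩ := exists_chart (k := ZMod p) x hx
  obtain ⟨A₁, hA₁⟩ := exists_chart (k := ZMod p) x⁻¹ hx'
  obtain ⟨g0, g1, N1, hg0, hg1, hN0, hN1⟩ := exists_gauges hx0 hA₀ hA₁ f
  obtain ⟨N2, hN2⟩ := exists_T hx0 hA₀ hA₁ (f - (g0 ^ p - g0))
  set n := max N1 N2 with hn
  obtain ⟨T, hT0, hT⟩ := hN2 n (le_max_right _ _)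
  have d0 := hA₀.ded
  have e0 := hA₀.frac
  have t0 := hA₀.finiteType
  have d1 := hA₁.ded
  have e1 := hA₁.frac
  have t1 := hA₁.finiteType
  obtain ⟨M0, hM0⟩ := exists_bound (R := A₀) (f - (g0 ^ p - g0))
  obtain ⟨M1, hM1⟩ := exists_bound (R := A₁) (f - (g1 ^ p - g1))
  obtain ⟨S0, hS00, hS0A, hS0⟩ := hA₀.exists_gens
  obtain ⟨S1, hS10, hS1A, hS1⟩ := hA₁.exists_gens
  refine ⟨⟨x, g0, g1, n, max M0 M1,
    {{1, x}} ∪ (S0.image fun e => {1, x, e}) ∪ (S1.image fun e => {1, x, e * x}), T, hx0, ?_, hT0,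
    ?_, fun W hW => hN0 W n (le_max_left _ _) hW, fun W hW => hN1 W n (le_max_left _ _) hW, ?_, ?_⟩⟩
  · intro s hs
    rw [Finset.mem_union, Finset.mem_union, Finset.mem_singleton, Finset.mem_image,
      Finset.mem_image] at hs
    rcases hs with (rfl | ⟨e, he, rfl⟩) | ⟨e, he, rfl⟩
    · refine ⟨?_, ⟨1, by simp⟩⟩
      rw [Finset.mem_insert, Finset.mem_singleton]
      rintro (h | h)
      · exact zero_ne_one h
      · exact hx0 h.symm
    · refine ⟨?_, ⟨1, by simp⟩⟩
      rw [Finset.mem_insert, Finset.mem_insert, Finset.mem_singleton]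
      rintro (h | h | h)
      · exact zero_ne_one h
      · exact hx0 h.symm
      · exact hS00 e he h.symm
    · refine ⟨?_, ⟨1, by simp⟩⟩
      rw [Finset.mem_insert, Finset.mem_insert, Finset.mem_singleton]
      rintro (h | h | h)
      · exact zero_ne_one h
      · exact hx0 h.symm
      · exact mul_ne_zero (hS10 e he) hx0 h.symm
  · intro W R hR hs w hw
    by_cases hW : W.valuation x ≤ 1
    · have hLe := hA₀.le hW
      refine hA₀.detect hLe hR hS0 (fun e he => ?_) hw
      have h1 := hs {1, x, e} (by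
        rw [Finset.mem_union, Finset.mem_union]
        exact Or.inl (Or.inr (Finset.mem_image_of_mem (fun e => ({1, x, e} : Finset F)) he)))
      have h2 := prin_pair hR h1 (w := 1) (u := e) (by simp) (by simp) (by
        intro g hg
        rw [Finset.mem_insert, Finset.mem_insert, Finset.mem_singleton] at hg
        rw [map_one]
        rcases hg with rfl | rfl | rfl
        · rw [map_one]
        · exact hW
        · exact hLe ⟨_, hS0A _ he⟩)
      rwa [div_one] at h2
    · have hv := (val_inv_lt hx0).mpr hW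
      have hLe := hA₁.le hv.le
      refine hA₁.detect hLe hR hS1 (fun e he => ?_) hw
      have h1 := hs {1, x, e * x} (by
        rw [Finset.mem_union, Finset.mem_union]
        exact Or.inr (Finset.mem_image_of_mem (fun e => ({1, x, e * x} : Finset F)) he))
      have h2 := prin_pair hR h1 (w := x) (u := e * x) (by simp) (by simp) (by
        intro g hg
        rw [Finset.mem_insert, Finset.mem_insert, Finset.mem_singleton] at hg
        rcases hg with rfl | rfl | rfl
        · rw [map_one]; exact (not_le.mp hW).le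
        · exact le_rfl
        · rw [map_mul]
          exact mul_le_of_le_one_left' (hLe ⟨_, hS1A _ he⟩))
      rwa [mul_div_cancel_right₀ _ hx0] at h2
  · intro W
    obtain ⟨τ, h1, h2, h3, h4, h5⟩ := hT W
    refine ⟨τ, h1, h2, h3, ?_⟩
    by_cases hW : W.valuation x ≤ 1
    · rw [gg_le hW]
      rcases h4 hW with h6 | h6
      · exact Or.inl h6
      · rcases good_unif h6 (hg0 W hW) with h7 | ⟨m, h7, h8⟩
        · exact Or.inl h7
        · exact Or.inr ⟨h6, m, (hM0 W (hA₀.le hW) τ h6 m h8).trans (le_max_left _ _), h7, h8⟩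
    · rw [gg_gt hW]
      have h6 := h5 hW
      have hv := (val_inv_lt hx0).mpr hW
      rcases good_unif h6 (hg1 W hW) with h7 | ⟨m, h7, h8⟩
      · exact Or.inl h7
      · exact Or.inr ⟨h6, m, (hM1 W (hA₁.le hv.le) τ h6 m h8).trans (le_max_right _ _), h7, h8⟩
  · intro W τ hτ E hE
    by_cases hW : W.valuation x ≤ 1
    · exact hA₀.exists_pres (hA₀.le hW) hτ E hE
    · have hv := (val_inv_lt hx0).mpr hW
      exact hA₁.exists_pres (hA₁.le hv.le) hτ E hE

end Pool.Agent.H96.W
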