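import Pool.Agent.H96.W.Mono
import Pool.Agent.H96.VSys
import Pool.Agent.H96.DSys2

/-!
# Models from families of finite sets, and the sets of the toric engine
-/

set_option autoImplicit false
set_option linter.unusedSectionVars false

namespace Pool.Agent.H96.W

open Pool.Agent.H96.VL
open scoped Pointwise

variable {K : Type} [Field K]

section Basic

variable [DecidableEq K] {R : Subring K}

theorem gen_erase_iff {s : Finset K} {T : K} : Gen R (s.erase 0) T ↔ Gen R s T := by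
  constructor
  · rintro ⟨h1, h2, g, hg, h3, h4⟩
    refine ⟨h1, fun g' hg' => ?_, g, Finset.mem_of_mem_erase hg, h3, h4⟩
    by_cases h0 : g' = 0
    · rw [h0, zero_div]; exact R.zero_mem
    · exact h2 g' (Finset.mem_erase.mpr ⟨h0, hg'⟩)
  · rintro ⟨h1, h2, g, hg, h3, h4⟩
    exact ⟨h1, fun g' hg' => h2 g' (Finset.mem_of_mem_erase hg'), g,
      Finset.mem_erase.mpr ⟨h4, hg⟩, h3, h4⟩

theorem prin_erase_iff {s : Finset K} : Prin R (s.erase 0) ↔ Prin R s :=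
  exists_congr fun _ => gen_erase_iff

theorem prin_top {s : Finset K} (h : ∃ g ∈ s, g ≠ 0) : Prin (⊤ : Subring K) s := by
  obtain ⟨g, hg, hg0⟩ := h
  exact ⟨g, hg0, fun _ _ => trivial, g, hg, trivial, hg0⟩

/-- Models from finite families of finite sets. -/
theorem hasCharts_of_sets (𝔖 : Finset (Finset K)) (h0 : ∀ s ∈ 𝔖, ∃ g ∈ s, g ≠ 0)
    (hK : ∀ R : Subring K, (∀ x ∈ R, x ≠ 0 → x⁻¹ ∈ R) → (∀ s ∈ 𝔖, Prin R s) → R = ⊤)
    (h : ∀ V : ValuationSubring K, ∃ R : Subring K, VLocal V R ∧ (∀ s ∈ 𝔖, Prin R s) ∧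
      (∀ R' : Subring K, VLocal V R' → (∀ s ∈ 𝔖, Prin R' s) → R ≤ R') ∧ IsRegularLocalRing R) :
    Pool.Agent.H19.OG.HasCharts K := by
  set P : Finset K := ∏ s ∈ 𝔖, s with hP
  have hPiff : ∀ R : Subring K, Prin R (P.erase 0) ↔ ∀ s ∈ 𝔖, Prin R s := by
    intro R
    rw [prin_erase_iff, hP]
    exact prin_prod_iff 𝔖
  have htop := (hPiff ⊤).mpr fun s hs => prin_top (h0 s hs)
  obtain ⟨T, hT⟩ := htop
  obtain ⟨g₀, hg₀, -, hg₀0⟩ := hT.ex
  refine hasCharts_of_vlocal (P.erase 0) (Finset.notMem_erase 0 P) g₀ hg₀ ?_ fun V => ?_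
  · apply isFractionRing_of_closure
    set B := Algebra.adjoin ℤ (Set.range fun j : (P.erase 0 : Finset K) => (j : K) / g₀) with hB
    have h1 : (Subfield.closure (B : Set K)).toSubring = ⊤ := by
      apply hK
      · intro x hx _
        exact (Subfield.closure (B : Set K)).inv_mem hx
      · rw [← hPiff]
        refine ⟨g₀, hg₀0, fun g hg => ?_, g₀, hg₀, ?_, hg₀0⟩
        · exact Subfield.subset_closure (Algebra.subset_adjoin ⟨⟨g, hg⟩, rfl⟩)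
        · rw [div_self hg₀0]; exact Subring.one_mem _
    rw [eq_top_iff]
    intro x _
    have h2 : x ∈ (Subfield.closure (B : Set K)).toSubring := by rw [h1]; trivial
    exact h2
  · obtain ⟨R, h1, h2, h3, h4⟩ := h V
    exact ⟨R, h1, (hPiff R).mpr h2, fun R' hR' hs => h3 R' hR' ((hPiff R').mp hs), h4⟩

/-- Unions of principal sets. -/
theorem prin_biUnion_iff {β : Type} [DecidableEq β] (S : Finset β) (s : β → Finset K) (T : β → K)
    (h : ∀ u ∈ S, Gen R (s u) (T u)) :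
    Prin R (S.biUnion s) ↔ ∃ u₀ ∈ S, ∀ u ∈ S, T u / T u₀ ∈ R := by
  constructor
  · rintro ⟨W, hW⟩
    obtain ⟨g, hg, h1, h2⟩ := hW.ex
    obtain ⟨u₀, hu₀, hgu⟩ := Finset.mem_biUnion.mp hg
    refine ⟨u₀, hu₀, fun u hu => ?_⟩
    obtain ⟨g', hg', h3, h4⟩ := (h u hu).ex
    have h5 := hW.mem g' (Finset.mem_biUnion.mpr ⟨u, hu, hg'⟩)
    have h6 := (h u₀ hu₀).mem g hgu
    have hW0 := hW.ne
    have hT0 := (h u₀ hu₀).ne
    have h7 := R.mul_mem (R.mul_mem h3 h5) (R.mul_mem h1 h6)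
    have h8 : T u / g' * (g' / W) * (W / g * (g / T u₀)) = T u / T u₀ := by field_simp
    rwa [h8] at h7
  · rintro ⟨u₀, hu₀, h1⟩
    have hT0 := (h u₀ hu₀).ne
    refine ⟨T u₀, hT0, fun g hg => ?_, ?_⟩
    · obtain ⟨u, hu, hgu⟩ := Finset.mem_biUnion.mp hg
      have hT := (h u hu).ne
      have h2 := R.mul_mem ((h u hu).mem g hgu) (h1 u hu)
      have h3 : g / T u * (T u / T u₀) = g / T u₀ := by field_simp
      rwa [h3] at h2
    · obtain ⟨g, hg, h2, h3⟩ := (h u₀ hu₀).ex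
      exact ⟨g, Finset.mem_biUnion.mpr ⟨u₀, hu₀, hg⟩, h2, h3⟩

end Basic

section Eng

variable {ι : Type} [Fintype ι] [DecidableEq ι] [DecidableEq K]

/-- The size of a finite set of exponents. -/
def esz (S : Finset (ι → ℤ)) : ℕ := S.sup fun u => Finset.univ.sup fun α => (u α).natAbs

theorem le_esz {S : Finset (ι → ℤ)} {u : ι → ℤ} (hu : u ∈ S) (α : ι) : |u α| ≤ (esz S : ℤ) := by
  have h1 : (u α).natAbs ≤ Finset.univ.sup fun α => (u α).natAbs :=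
    Finset.le_sup (f := fun α => (u α).natAbs) (Finset.mem_univ α)
  have h2 : (Finset.univ.sup fun α => (u α).natAbs) ≤ esz S :=
    Finset.le_sup (f := fun u : ι → ℤ => Finset.univ.sup fun α => (u α).natAbs) hu
  rw [Int.abs_eq_natAbs]
  exact_mod_cast h1.trans h2

/-- The sets of the engine. -/
def eset (s Λ : ι → Finset K) (ε : ι → ℤ) (S : Finset (ι → ℤ)) : Finset K :=
  S.biUnion fun u => ∏ α, (s α ^ ((esz S : ℤ) + ε α * u α).toNat *
    Λ α ^ ((esz S : ℤ) - ε α * u α).toNat)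

theorem prin_eset_iff {R : Subring K} {s Λ : ι → Finset K} {ε : ι → ℤ} (hε : ∀ α, ε α = 1 ∨ ε α = -1)
    {τ ℓ : ι → K} (hτ : ∀ α, τ α ≠ 0) (hs : ∀ α, Gen R (s α) (ℓ α * τ α ^ ε α))
    (hΛ : ∀ α, Gen R (Λ α) (ℓ α)) (S : Finset (ι → ℤ)) :
    Prin R (eset s Λ ε S) ↔ Dec {u | mon τ u ∈ R} S := by
  have hℓ : ∀ α, ℓ α ≠ 0 := fun α => (hΛ α).ne
  have hgen : ∀ u ∈ S, Gen R (∏ α, (s α ^ ((esz S : ℤ) + ε α * u α).toNat *
      Λ α ^ ((esz S : ℤ) - ε α * u α).toNat))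
      ((∏ α, (ℓ α ^ (2 * (esz S : ℤ)) * τ α ^ (ε α * esz S))) * mon τ u) := by
    intro u hu
    have h1 : (∏ α, (ℓ α ^ (2 * (esz S : ℤ)) * τ α ^ (ε α * esz S))) * mon τ u =
        ∏ α, ((ℓ α * τ α ^ ε α) ^ ((esz S : ℤ) + ε α * u α).toNat *
          ℓ α ^ ((esz S : ℤ) - ε α * u α).toNat) := by
      rw [mon, ← Finset.prod_mul_distrib]
      refine Finset.prod_congr rfl fun α _ => ?_
      have h2 := abs_le.mp (le_esz hu α)
      have h3 : 0 ≤ (esz S : ℤ) + ε α * u α := by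
        rcases hε α with h | h <;> rw [h] <;> linarith [h2.1, h2.2]
      have h4 : 0 ≤ (esz S : ℤ) - ε α * u α := by
        rcases hε α with h | h <;> rw [h] <;> linarith [h2.1, h2.2]
      rw [← zpow_natCast, ← zpow_natCast, Int.toNat_of_nonneg h3, Int.toNat_of_nonneg h4, mul_zpow,
        ← zpow_mul]
      have h5 : ε α * ((esz S : ℤ) + ε α * u α) = ε α * esz S + u α := by
        rcases hε α with h | h <;> rw [h] <;> ring
      have h6 : (2 * (esz S : ℤ)) = ((esz S : ℤ) + ε α * u α) + ((esz S : ℤ) - ε α * u α) := by ring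
      rw [h5, h6, zpow_add₀ (hτ α), zpow_add₀ (hℓ α)]
      ring
    rw [h1]
    exact Gen.prod _ fun α _ => ((hs α).pow _).mul ((hΛ α).pow _)
  have hc : (∏ α, (ℓ α ^ (2 * (esz S : ℤ)) * τ α ^ (ε α * esz S))) ≠ 0 :=
    Finset.prod_ne_zero_iff.mpr fun α _ => mul_ne_zero (zpow_ne_zero _ (hℓ α))
      (zpow_ne_zero _ (hτ α))
  rw [eset, prin_biUnion_iff _ _ _ hgen]
  constructor
  · rintro ⟨u₀, hu₀, h⟩
    refine ⟨u₀, hu₀, fun u hu => ?_⟩
    show mon τ (u - u₀) ∈ R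
    have h1 := h u hu
    rwa [mul_div_mul_left _ _ hc, ← mon_sub hτ] at h1
  · rintro ⟨u₀, hu₀, h⟩
    refine ⟨u₀, hu₀, fun u hu => ?_⟩
    have h1 : mon τ (u - u₀) ∈ R := h u hu
    rwa [mul_div_mul_left _ _ hc, ← mon_sub hτ]

theorem prod_ne_zero_mem {κ : Type} [DecidableEq κ] (A : Finset κ) {s : κ → Finset K}
    (hs : ∀ c ∈ A, ∃ g ∈ s c, g ≠ 0) : ∃ g ∈ ∏ c ∈ A, s c, g ≠ 0 := by
  obtain ⟨T, hT⟩ := (prin_prod_iff (R := ⊤) A).mpr fun c hc => prin_top (hs c hc)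
  obtain ⟨g, hg, -, h⟩ := hT.ex
  exact ⟨g, hg, h⟩

/-- The sets of the engine contain nonzero elements. -/
theorem eset_ne {s Λ : ι → Finset K} {ε : ι → ℤ} (hs : ∀ α, ∃ g ∈ s α, g ≠ 0)
    (hΛ : ∀ α, ∃ g ∈ Λ α, g ≠ 0) {S : Finset (ι → ℤ)} (hS : S.Nonempty) :
    ∃ g ∈ eset s Λ ε S, g ≠ 0 := by
  obtain ⟨u, hu⟩ := hS
  obtain ⟨g, hg, hg0⟩ := prod_ne_zero_mem (K := K) Finset.univ (s := fun α =>
    (s α ^ ((esz S : ℤ) + ε α * u α).toNat * Λ α ^ ((esz S : ℤ) - ε α * u α).toNat)) (by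
      intro α _
      obtain ⟨a, ha, ha0⟩ := hs α
      obtain ⟨b, hb, hb0⟩ := hΛ α
      exact ⟨_, Finset.mul_mem_mul (Finset.pow_mem_pow ha) (Finset.pow_mem_pow hb),
        mul_ne_zero (pow_ne_zero _ ha0) (pow_ne_zero _ hb0)⟩)
  exact ⟨g, Finset.mem_biUnion.mpr ⟨u, hu, hg⟩, hg0⟩

end Eng

end Pool.Agent.H96.W
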