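import Pool.Agent.H96.W.LocD
import Pool.Agent.H96.W.CData3
import Pool.Agent.H96.W.Pack

/-!
# The global data
-/

set_option autoImplicit false
set_option linter.unusedSectionVars false

namespace Pool.Agent.H96.W

open MvPolynomial IsLocalRing Pool.Agent.H96.Reg Pool.Agent.H96.VL

/-- The global data: a quotient of a product of curves by a vector group. -/
structure GData (p : ℕ) [Fact p.Prime] (K : Type) [Field K] [Algebra (ZMod p) K] (I : Type)
    [Fintype I] [DecidableEq I] (F : I → Type) [∀ i, Field (F i)] [∀ i, Algebra (ZMod p) (F i)]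
    [∀ i, Algebra (F i) K] [∀ i, IsScalarTower (ZMod p) (F i) K] (m : ℕ) where
  f : ∀ i, F i
  cd : ∀ i, CData p (F i) (f i)
  D : I → Fin m → ZMod p
  z : Fin m → K
  AS : ∀ a, z a ^ p - z a = ∑ i, algebraMap (ZMod p) K (D i a) * algebraMap (F i) K (f i)
  gen : ∀ R : Subring K, (∀ x ∈ R, x ≠ 0 → x⁻¹ ∈ R) → (∀ i (w : F i), algebraMap (F i) K w ∈ R) →
    (∀ a, z a ∈ R) → R = ⊤

section Comap

variable {K F : Type} [Field K] [Field F] [Algebra F K] {V : ValuationSubring K}

/-- The induced valuation on a subfield. -/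
abbrev WV (V : ValuationSubring K) (F : Type) [Field F] [Algebra F K] : ValuationSubring F :=
  V.comap (algebraMap F K)

theorem wv_le_one {w : F} : (WV V F).valuation w ≤ 1 ↔ V.valuation (algebraMap F K w) ≤ 1 := by
  rw [ValuationSubring.valuation_le_one_iff, ValuationSubring.valuation_le_one_iff]
  exact ValuationSubring.mem_comap

theorem wv_eq_one {w : F} : (WV V F).valuation w = 1 ↔ V.valuation (algebraMap F K w) = 1 := by
  by_cases hw : w = 0
  · rw [hw, map_zero, map_zero, map_zero]
    exact ⟨fun h => absurd h zero_ne_one, fun h => absurd h zero_ne_one⟩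
  have hw' : algebraMap F K w ≠ 0 := (map_ne_zero _).mpr hw
  have h1 : 0 < (WV V F).valuation w := by rw [Valuation.pos_iff]; exact hw
  have h2 : 0 < V.valuation (algebraMap F K w) := by rw [Valuation.pos_iff]; exact hw'
  have h3 := wv_le_one (V := V) (w := w⁻¹)
  rw [map_inv₀, map_inv₀, map_inv₀, inv_le_one₀ h1, inv_le_one₀ h2] at h3
  rw [le_antisymm_iff, le_antisymm_iff, wv_le_one, h3]

theorem wv_lt_one {w : F} : (WV V F).valuation w < 1 ↔ V.valuation (algebraMap F K w) < 1 := by
  rw [lt_iff_le_and_ne, lt_iff_le_and_ne, wv_le_one, Ne, Ne, wv_eq_one]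

theorem vlocal_comap {R : Subring K} (hR : VLocal V R) : VLocal (WV V F) (R.comap (algebraMap F K)) where
  le := fun x hx => wv_le_one.mpr (hR.le _ hx)
  inv := by
    intro x hx h1
    show algebraMap F K x⁻¹ ∈ R
    rw [map_inv₀]
    exact hR.inv _ hx (wv_eq_one.mp h1)

theorem prin_comap [DecidableEq K] {R : Subring K} {s : Finset F} (h : Prin R (s.image (algebraMap F K))) :
    Prin (R.comap (algebraMap F K)) s := by
  obtain ⟨T, hT⟩ := h
  obtain ⟨g, hg, hTg, hg0⟩ := hT.ex
  obtain ⟨w, hw, rfl⟩ := Finset.mem_image.mp hg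
  have hw0 : w ≠ 0 := fun h0 => hg0 (by rw [h0, map_zero])
  refine ⟨w, hw0, fun g' hg' => ?_, w, hw, ?_, hw0⟩
  · show algebraMap F K (g' / w) ∈ R
    have h1 := R.mul_mem (hT.mem _ (Finset.mem_image_of_mem _ hg')) hTg
    have h2 := hT.ne
    have h3 : algebraMap F K g' / T * (T / algebraMap F K w) = algebraMap F K (g' / w) := by
      rw [map_div₀]
      field_simp
    rwa [h3] at h1
  · show algebraMap F K (w / w) ∈ R
    rw [div_self hw0, map_one]
    exact R.one_mem

end Comap

section Zl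

variable {p : ℕ} [Fact p.Prime] {K : Type} [Field K] [Algebra (ZMod p) K] {I : Type}
  [Fintype I] [DecidableEq I] {m : ℕ}

/-- The twisted linear form. -/
noncomputable def zlin (D : I → Fin m → ZMod p) (z : Fin m → K) (g : I → K) :
    (Fin m → ZMod p) →ₗ[ZMod p] K :=
  Fintype.linearCombination (ZMod p) fun a => z a - ∑ i, algebraMap (ZMod p) K (D i a) * g i

theorem zlin_apply (D : I → Fin m → ZMod p) (z : Fin m → K) (g : I → K) (c : Fin m → ZMod p) :
    zlin D z g c = ∑ a, algebraMap (ZMod p) K (c a) * z a -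
      ∑ i, algebraMap (ZMod p) K (c ⬝ᵥ D i) * g i := by
  rw [zlin, Fintype.linearCombination_apply]
  have h1 : ∑ i, algebraMap (ZMod p) K (c ⬝ᵥ D i) * g i =
      ∑ a, algebraMap (ZMod p) K (c a) * ∑ i, algebraMap (ZMod p) K (D i a) * g i := by
    simp only [dotProduct, map_sum, Finset.sum_mul, Finset.mul_sum, map_mul]
    rw [Finset.sum_comm]
    refine Finset.sum_congr rfl fun a _ => Finset.sum_congr rfl fun i _ => ?_
    ring
  rw [h1, ← Finset.sum_sub_distrib]
  refine Finset.sum_congr rfl fun a _ => ?_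
  rw [Algebra.smul_def, mul_sub]

theorem zlin_diff (D : I → Fin m → ZMod p) (z : Fin m → K) (g g' : I → K) (c : Fin m → ZMod p) :
    zlin D z g c = zlin D z g' c + ∑ i, algebraMap (ZMod p) K (c ⬝ᵥ D i) * (g' i - g i) := by
  rw [zlin_apply, zlin_apply]
  simp only [mul_sub, Finset.sum_sub_distrib]
  ring

theorem algebraMap_pow_p (a : ZMod p) : algebraMap (ZMod p) K a ^ p = algebraMap (ZMod p) K a := by
  rw [← map_pow, ZMod.pow_card]

theorem zlin_AS (D : I → Fin m → ZMod p) (z : Fin m → K) (g f : I → K)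
    (h : ∀ a, z a ^ p - z a = ∑ i, algebraMap (ZMod p) K (D i a) * f i) (c : Fin m → ZMod p) :
    zlin D z g c ^ p - zlin D z g c =
      ∑ i, algebraMap (ZMod p) K (c ⬝ᵥ D i) * (f i - (g i ^ p - g i)) := by
  have hc : CharP K p := charP_of_injective_algebraMap (algebraMap (ZMod p) K).injective p
  have hs : ∀ {κ : Type} [Fintype κ] (b : κ → ZMod p) (w : κ → K),
      (∑ a, algebraMap (ZMod p) K (b a) * w a) ^ p = ∑ a, algebraMap (ZMod p) K (b a) * w a ^ p := by
    intro κ _ b w
    rw [sum_pow_char]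
    refine Finset.sum_congr rfl fun a _ => ?_
    rw [mul_pow, algebraMap_pow_p]
  rw [zlin_apply, sub_pow_char, hs, hs]
  have h1 : ∑ i, algebraMap (ZMod p) K (c ⬝ᵥ D i) * f i =
      ∑ a, algebraMap (ZMod p) K (c a) * (z a ^ p - z a) := by
    simp only [h, dotProduct, map_sum, Finset.sum_mul, Finset.mul_sum, map_mul]
    rw [Finset.sum_comm]
    refine Finset.sum_congr rfl fun a _ => Finset.sum_congr rfl fun i _ => ?_
    ring
  simp only [mul_sub, Finset.sum_sub_distrib] at h1 ⊢
  rw [h1]
  ring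

end Zl

end Pool.Agent.H96.W
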