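import Mathlib
import Pool.Agent.H96.VLoc

/-!
# The affine charts of a curve
-/

set_option autoImplicit false
set_option linter.unusedSectionVars false

namespace Pool.Agent.H96.W

open IntermediateField Polynomial

/-- The properties of the coordinate ring of an affine chart of a curve. -/
structure IsChart {k F : Type} [Field k] [Field F] [Algebra k F] (x : F) (A : Subalgebra k F) :
    Prop where
  fg : A.FG
  mem : x ∈ A
  ded : IsDedekindDomain A
  frac : IsFractionRing A F
  int : ∀ a ∈ A, IsIntegral (Algebra.adjoin k {x}) a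
  closed : ∀ a : F, IsIntegral (Algebra.adjoin k {x}) a → a ∈ A
  nf : ¬ IsField A

theorem exists_chart {k F : Type} [Field k] [Field F] [Algebra k F] (x : F)
    (hx : Transcendental k x) [hfd : FiniteDimensional k⟮x⟯ F] [hsep : Algebra.IsSeparable k⟮x⟯ F] :
    ∃ A : Subalgebra k F, IsChart x A := by
  let gx : k⟮x⟯ := AdjoinSimple.gen k x
  let i1 : Algebra k[X] k⟮x⟯ := (aeval (R := k) gx).toRingHom.toAlgebra
  let i2 : Algebra k[X] F := (aeval (R := k) x).toRingHom.toAlgebra
  have hm1 : ∀ q : k[X], algebraMap k[X] k⟮x⟯ q = aeval gx q := fun q => rfl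
  have hm2 : ∀ q : k[X], algebraMap k[X] F q = aeval x q := fun q => rfl
  have hgx : algebraMap k⟮x⟯ F gx = x := rfl
  have ht1 : IsScalarTower k[X] k⟮x⟯ F := by
    apply IsScalarTower.of_algebraMap_eq
    intro q
    rw [hm1, hm2, ← aeval_algebraMap_apply, hgx]
  have ht2 : IsScalarTower k k[X] F := by
    apply IsScalarTower.of_algebraMap_eq
    intro c
    rw [hm2, ← Polynomial.C_eq_algebraMap, aeval_C]
  have hinj2 : Function.Injective (algebraMap k[X] F) := by
    have := transcendental_iff_injective.mp hx
    exact this
  have hinj1 : Function.Injective (algebraMap k[X] k⟮x⟯) := by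
    have h1 : (algebraMap k⟮x⟯ F) ∘ (algebraMap k[X] k⟮x⟯) = algebraMap k[X] F := by
      funext q
      exact (IsScalarTower.algebraMap_apply k[X] k⟮x⟯ F q).symm
    rw [← h1] at hinj2
    exact Function.Injective.of_comp hinj2
  have hfs1 : FaithfulSMul k[X] k⟮x⟯ := (faithfulSMul_iff_algebraMap_injective _ _).mpr hinj1
  have hfr : IsFractionRing k[X] k⟮x⟯ := by
    apply IsFractionRing.of_field
    intro z
    obtain ⟨r, s, hrs⟩ := (mem_adjoin_simple_iff k (z : F)).mp z.2
    refine ⟨r, s, ?_⟩
    apply Subtype.ext
    rw [hrs]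
    show _ = algebraMap k⟮x⟯ F (algebraMap k[X] k⟮x⟯ r / algebraMap k[X] k⟮x⟯ s)
    rw [map_div₀, ← IsScalarTower.algebraMap_apply, ← IsScalarTower.algebraMap_apply]
    rfl
  let C := integralClosure k[X] F
  have hded : IsDedekindDomain C := IsIntegralClosure.isDedekindDomain k[X] k⟮x⟯ F C
  have hfin : Module.Finite k[X] C := IsIntegralClosure.finite k[X] k⟮x⟯ F C
  have hfrC : IsFractionRing C F := integralClosure.isFractionRing_of_finite_extension k⟮x⟯ F
  let A : Subalgebra k F := C.restrictScalars k
  have hAC : ∀ a : F, a ∈ A ↔ IsIntegral k[X] a := fun a => Iff.rfl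
  -- integrality over the two rings
  have hII : ∀ a : F, IsIntegral k[X] a ↔ IsIntegral (Algebra.adjoin k {x}) a := by
    intro a
    have hr : ∀ q : k[X], algebraMap k[X] F q ∈ Algebra.adjoin k {x} := by
      intro q
      rw [Algebra.adjoin_singleton_eq_range_aeval]
      exact ⟨q, rfl⟩
    let i3 : Algebra k[X] (Algebra.adjoin k {x}) :=
      ((algebraMap k[X] F).codRestrict (Algebra.adjoin k {x}).toSubring hr).toAlgebra
    have ht3 : IsScalarTower k[X] (Algebra.adjoin k {x}) F := by
      apply IsScalarTower.of_algebraMap_eq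
      intro q; rfl
    constructor
    · intro h
      exact h.tower_top
    · intro h
      have hsurj : Function.Surjective (algebraMap k[X] (Algebra.adjoin k {x})) := by
        rintro ⟨b, hb⟩
        have hb' := hb
        rw [Algebra.adjoin_singleton_eq_range_aeval] at hb'
        obtain ⟨q, hq⟩ := hb'
        exact ⟨q, Subtype.ext hq⟩
      have : Algebra.IsIntegral k[X] (Algebra.adjoin k {x}) :=
        Algebra.isIntegral_of_surjective hsurj
      exact isIntegral_trans (R := k[X]) (A := Algebra.adjoin k {x}) a h
  refine ⟨A, ?_, ?_, hded, hfrC, fun a ha => (hII a).mp ha, fun a ha => (hII a).mpr ha, ?_⟩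
  · have h1 : Algebra.FiniteType k C := by
      have : Algebra.FiniteType k k[X] := inferInstance
      have h2 : Algebra.FiniteType k[X] C := inferInstance
      exact Algebra.FiniteType.trans this h2
    have h2 : Algebra.FiniteType k A := h1
    exact A.fg_iff_finiteType.mpr h2
  · show IsIntegral k[X] x
    have : x = algebraMap k[X] F X := by rw [hm2, aeval_X]
    rw [this]
    exact isIntegral_algebraMap
  · intro h
    have h2 : IsField C := h
    have hinjC : Function.Injective (algebraMap k[X] C) := by
      have h1 : (algebraMap C F) ∘ (algebraMap k[X] C) = algebraMap k[X] F := by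
        funext q; rfl
      rw [← h1] at hinj2
      exact Function.Injective.of_comp hinj2
    have h3 := ((IsIntegralClosure.isIntegral_algebra k[X] F (A := C)).isField_iff_isField
      hinjC).mpr h2
    exact Polynomial.not_isField k h3

end Pool.Agent.H96.W
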