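import Mathlib

/-!
# A separating transcendence basis of a function field of a curve
-/

set_option autoImplicit false

namespace Pool.Agent.H96.W

open IntermediateField

theorem exists_sep (k F : Type) [Field k] [Field F] [Algebra k F] [PerfectField k]
    [Algebra.EssFiniteType k F] (htr : Algebra.trdeg k F = 1) :
    ∃ x : F, Transcendental k x ∧ FiniteDimensional k⟮x⟯ F ∧ Algebra.IsSeparable k⟮x⟯ F ∧
      FiniteDimensional k⟮x⁻¹⟯ F ∧ Algebra.IsSeparable k⟮x⁻¹⟯ F := by
  obtain ⟨s, hs, hsep⟩ := exists_isTranscendenceBasis_and_isSeparable_of_perfectField k F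
  have hcard : Cardinal.mk s = 1 := by
    rw [hs.cardinalMk_eq_trdeg, htr]
  obtain ⟨x0, hx0⟩ : ∃ x, s = {x} := by
    rw [← Finset.card_eq_one]
    have h1 : ((s.card : ℕ) : Cardinal) = 1 := by
      rw [← hcard, Cardinal.mk_coe_finset]
    exact_mod_cast h1
  subst hx0
  have hx : Transcendental k x0 := by
    have h1 := hs.1.transcendental ⟨x0, Finset.mem_singleton_self x0⟩
    exact h1
  have hsep' : Algebra.IsSeparable k⟮x0⟯ F := by
    have h1 : IntermediateField.adjoin k ((({x0} : Finset F)) : Set F) = k⟮x0⟯ := by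
      rw [Finset.coe_singleton]
    rw [← h1]; exact hsep
  have hfin : ∀ (y : F), Algebra.IsAlgebraic k⟮y⟯ F → FiniteDimensional k⟮y⟯ F := by
    intro y hy
    have h1 : Algebra.EssFiniteType k⟮y⟯ F := Algebra.EssFiniteType.of_comp k k⟮y⟯ F
    exact Algebra.finite_of_essFiniteType_of_isAlgebraic
  have h1 : k⟮x0⁻¹⟯ = k⟮x0⟯ := by
    apply le_antisymm
    · rw [adjoin_simple_le_iff]
      exact inv_mem (mem_adjoin_simple_self k x0)
    · rw [adjoin_simple_le_iff]
      have := inv_mem (mem_adjoin_simple_self k x0⁻¹)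
      rwa [inv_inv] at this
  refine ⟨x0, hx, hfin _ inferInstance, hsep', ?_, ?_⟩
  · rw [h1]; exact hfin _ inferInstance
  · rw [h1]; exact hsep'

end Pool.Agent.H96.W
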