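import Pool.Agent.H96.W.CPack
import Pool.Agent.H96.W.CTrans
import Pool.Agent.H96.VSys

/-!
# The data attached to a function on a curve over a finite field
-/

set_option autoImplicit false
set_option linter.unusedSectionVars false

namespace Pool.Agent.H96.W

open MvPolynomial IsLocalRing Pool.Agent.H96.VL

/-- The twist: `1` on the chart `v(x) ≤ 1`, and `x ^ N` on the other one. -/
noncomputable def tw {F : Type} [Field F] (x : F) (N : ℕ) (W : ValuationSubring F) : F :=
  open Classical in if W.valuation x ≤ 1 then 1 else x ^ N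

/-- The gauge on the chart. -/
noncomputable def gg {F : Type} [Field F] (x g0 g1 : F) (W : ValuationSubring F) : F :=
  open Classical in if W.valuation x ≤ 1 then g0 else g1

section

variable {F : Type} [Field F] {x g0 g1 : F} {N : ℕ} {W : ValuationSubring F}

theorem tw_le (h : W.valuation x ≤ 1) : tw x N W = 1 := if_pos h

theorem tw_gt (h : ¬ W.valuation x ≤ 1) : tw x N W = x ^ N := if_neg h

theorem gg_le (h : W.valuation x ≤ 1) : gg x g0 g1 W = g0 := if_pos h

theorem gg_gt (h : ¬ W.valuation x ≤ 1) : gg x g0 g1 W = g1 := if_neg h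

end

/-- The data attached to a function `f` on a curve with function field `F`. -/
structure CData (p : ℕ) [Fact p.Prime] (F : Type) [Field F] [Algebra (ZMod p) F] (f : F) where
  x : F
  g0 : F
  g1 : F
  N : ℕ
  M : ℕ
  base : Finset (Finset F)
  T : Finset F
  x0 : x ≠ 0
  zero_base : ∀ s ∈ base, 0 ∉ s ∧ s.Nonempty
  zero_T : 0 ∉ T
  detect : ∀ (W : ValuationSubring F) (R : Subring F), VLocal W R → (∀ s ∈ base, Prin R s) →
    ∀ w, W.valuation w ≤ 1 → w ∈ R
  h_le : ∀ W : ValuationSubring F, W.valuation x ≤ 1 → W.valuation (x ^ N * (g1 - g0)) ≤ 1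
  h_gt : ∀ W : ValuationSubring F, 1 ≤ W.valuation x → W.valuation ((g1 - g0) / x ^ N) ≤ 1
  unif : ∀ W : ValuationSubring F, ∃ τ, (τ = 1 ∨ Unif W τ) ∧
    (∀ g ∈ T, W.valuation g ≤ W.valuation (τ * tw x N W)) ∧
    (∃ g ∈ T, W.valuation g = W.valuation (τ * tw x N W)) ∧
    (W.valuation (f - (gg x g0 g1 W ^ p - gg x g0 g1 W)) ≤ 1 ∨
      (Unif W τ ∧ ∃ m, m ≤ M ∧ ¬ p ∣ m ∧
        W.valuation ((f - (gg x g0 g1 W ^ p - gg x g0 g1 W)) * τ ^ m) = 1))
  pres : ∀ (W : ValuationSubring F) (τ : F), τ = 1 ∨ Unif W τ → ∀ E : Finset F,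
    (∀ e ∈ E, W.valuation e ≤ 1) → ∃ (n : ℕ) (y : Fin (n + 1) → F)
      (G : Fin (n + 1) → MvPolynomial (Fin (n + 1)) (ZMod p)) (l : Fin (n + 1)),
      Pres W n y G l ∧ (∀ e ∈ E, ∃ b, y b = e) ∧ (Unif W τ → y l = τ)

section Abs

variable {p : ℕ} [Fact p.Prime] {F : Type} [Field F] {W : ValuationSubring F}

theorem Unif.vt0 {t : F} (h : Unif W t) : 0 < W.valuation t := by
  rw [Valuation.pos_iff]; exact h.t0

theorem unif_eq {s t : F} (hs : Unif W s) (ht : Unif W t) : W.valuation s = W.valuation t :=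
  le_antisymm (ht.max _ hs.lt) (hs.max _ ht.lt)

theorem not_unif_one : ¬ Unif W (1 : F) := by
  intro h
  have := h.lt
  rw [map_one] at this
  exact lt_irrefl _ this

/-- Transfer of the pole order. -/
theorem good_unif {f τ : F} (hτ : Unif W τ) (h : Good p W f) :
    W.valuation f ≤ 1 ∨ ∃ m : ℕ, ¬ p ∣ m ∧ W.valuation (f * τ ^ m) = 1 := by
  rcases h with h | ⟨t, m, ht, hm, hv⟩
  · exact Or.inl h
  · right
    refine ⟨m, hm, ?_⟩
    rw [map_mul, map_pow, unif_eq hτ ht, ← map_pow, ← map_mul, hv]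

theorem prin_pair {R : Subring F} (hR : VLocal W R) {s : Finset F} (h : Prin R s) {u w : F}
    (hw : w ∈ s) (hu : u ∈ s) (hmax : ∀ g ∈ s, W.valuation g ≤ W.valuation w) : u / w ∈ R := by
  obtain ⟨T, hT⟩ := h
  exact (hT.of_max hR hw hmax).mem u hu

end Abs

section Pres

variable {p : ℕ} [Fact p.Prime] {F : Type} [Field F] [Algebra (ZMod p) F] {x : F}
  {A : Subalgebra (ZMod p) F}

theorem IsChart.exists_pres (hA : IsChart x A) {W : ValuationSubring F} (hW : Le A W) {τ : F}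
    (hτ : τ = 1 ∨ Unif W τ) (E : Finset F) (hE : ∀ e ∈ E, W.valuation e ≤ 1) :
    ∃ (n : ℕ) (y : Fin (n + 1) → F)
      (G : Fin (n + 1) → MvPolynomial (Fin (n + 1)) (ZMod p)) (l : Fin (n + 1)),
      Pres W n y G l ∧ (∀ e ∈ E, ∃ b, y b = e) ∧ (Unif W τ → y l = τ) := by
  have h1 := hA.ded
  have h2 := hA.frac
  have h3 := hA.finiteType
  by_cases hu : Unif W τ
  · obtain ⟨n, y, G, l, h4, h5, h6⟩ := Pool.Agent.H96.W.exists_pres (p := p) hW (cen_ne_bot_of_unif hW hu) hu E hE
    exact ⟨n, y, G, l, h4, h5, fun _ => h6⟩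
  · by_cases hc : cen W hW = ⊥
    · obtain ⟨n, y, G, l, h4, h5⟩ := exists_pres_triv (p := p) hW hA.nf
        (fun w hw => triv_of_cen_eq_bot hW hc hw) E
      exact ⟨n, y, G, l, h4, h5, fun h => absurd h hu⟩
    · obtain ⟨t, ht⟩ := exists_place hW hc
      obtain ⟨n, y, G, l, h4, h5, -⟩ := Pool.Agent.H96.W.exists_pres (p := p) hW hc ht.unif E hE
      exact ⟨n, y, G, l, h4, h5, fun h => absurd h hu⟩

/-- A chart is detected by its generators. -/
theorem IsChart.detect (hA : IsChart x A) {W : ValuationSubring F} (hW : Le A W) {R : Subring F}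
    (hR : VLocal W R) {S : Finset F} (hS : ∀ a ∈ A, a ∈ Subring.closure (S : Set F))
    (hSR : ∀ e ∈ S, e ∈ R) {w : F} (hw : W.valuation w ≤ 1) : w ∈ R := by
  have h1 := hA.ded
  have h2 := hA.frac
  have hAR : ∀ a : A, (a : F) ∈ R := by
    intro a
    have h3 := hS a a.2
    have h4 : Subring.closure (S : Set F) ≤ R := (Subring.closure_le).mpr fun e he => hSR e he
    exact h4 h3
  obtain ⟨a, b, hb, rfl⟩ := exists_frac hW hw
  exact hR.div_mem (hAR a) (hAR b) hb

end Pres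

end Pool.Agent.H96.W
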