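import Pool.Agent.H96.W.CData

/-!
# Construction of the data of a curve
-/

set_option autoImplicit false
set_option linter.unusedSectionVars false

namespace Pool.Agent.H96.W

open MvPolynomial IsLocalRing Pool.Agent.H96.VL

variable {p : ℕ} [Fact p.Prime] {F : Type} [Field F] [Algebra (ZMod p) F] {x : F}
  {A₀ A₁ : Subalgebra (ZMod p) F}

theorem charP_F (p : ℕ) [Fact p.Prime] (F : Type) [Field F] [Algebra (ZMod p) F] : CharP F p :=
  charP_of_injective_algebraMap (algebraMap (ZMod p) F).injective p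

theorem val_inv_le {W : ValuationSubring F} (hx0 : x ≠ 0) : W.valuation x⁻¹ ≤ 1 ↔ 1 ≤ W.valuation x := by
  have h0 : 0 < W.valuation x := by rw [Valuation.pos_iff]; exact hx0
  rw [map_inv₀]
  exact inv_le_one₀ h0

theorem val_inv_lt {W : ValuationSubring F} (hx0 : x ≠ 0) : W.valuation x⁻¹ < 1 ↔ ¬ W.valuation x ≤ 1 := by
  have h0 : 0 < W.valuation x := by rw [Valuation.pos_iff]; exact hx0
  rw [map_inv₀, not_le]
  exact inv_lt_one₀ h0

theorem val_sub_pow {W : ValuationSubring F} {f g : F} (hf : W.valuation f ≤ 1)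
    (hg : W.valuation g ≤ 1) : W.valuation (f - (g ^ p - g)) ≤ 1 := by
  refine (W.valuation.map_sub _ _).trans (max_le hf ((W.valuation.map_sub _ _).trans (max_le ?_ hg)))
  rw [map_pow]
  exact pow_le_one' hg p

/-- The gauges. -/
theorem exists_gauges (hx0 : x ≠ 0) (hA₀ : IsChart x A₀) (hA₁ : IsChart x⁻¹ A₁) (f : F) :
    ∃ (g0 g1 : F) (N : ℕ),
      (∀ W : ValuationSubring F, W.valuation x ≤ 1 → Good p W (f - (g0 ^ p - g0))) ∧
      (∀ W : ValuationSubring F, ¬ W.valuation x ≤ 1 → Good p W (f - (g1 ^ p - g1))) ∧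
      (∀ W : ValuationSubring F, ∀ n, N ≤ n → W.valuation x ≤ 1 →
        W.valuation (x ^ n * (g1 - g0)) ≤ 1) ∧
      (∀ W : ValuationSubring F, ∀ n, N ≤ n → 1 ≤ W.valuation x →
        W.valuation ((g1 - g0) / x ^ n) ≤ 1) := by
  have hc := charP_F p F
  have d0 := hA₀.ded
  have e0 := hA₀.frac
  have t0 := hA₀.finiteType
  have d1 := hA₁.ded
  have e1 := hA₁.frac
  have t1 := hA₁.finiteType
  obtain ⟨a, b, hb, hab⟩ := IsFractionRing.div_surjective (A := A₀) f
  obtain ⟨g0, ⟨N0, c0, hg0⟩, hgood0⟩ := exists_gauge (R := A₀) (p := p) (fun q hq u => perfect_res q hq u) b f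
  set f1 := f - (g0 ^ p - g0) with hf1
  set ξ : A₁ := ⟨x⁻¹, hA₁.mem⟩ with hξ
  have hξ0 : ξ ≠ 0 := by
    intro h
    have : x⁻¹ = 0 := congrArg (fun z : A₁ => (z : F)) h
    exact hx0 (inv_eq_zero.mp this)
  have hξF : algebraMap A₁ F ξ = x⁻¹ := rfl
  obtain ⟨h, ⟨N1, c1, hh⟩, hgood1⟩ := exists_gauge (R := A₁) (p := p) (fun q hq u => perfect_res q hq u) ξ f1
  rw [hξF] at hh
  have hbd1 : ∀ W : ValuationSubring F, 1 ≤ W.valuation x → W.valuation (x⁻¹ ^ N1 * h) ≤ 1 := by
    intro W hW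
    rw [hh]
    exact hA₁.le ((val_inv_le hx0).mpr hW) c1
  set X : A₀ := ⟨x, hA₀.mem⟩ with hX
  have hXF : algebraMap A₀ F X = x := rfl
  obtain ⟨N2, c2, h2⟩ := exists_pow_den (R := A₀) X h (by
    intro W hW hv
    rw [hXF] at hv
    have h1 := hbd1 W hv.ge
    rwa [map_mul, map_pow, map_inv₀, hv, inv_one, one_pow, one_mul] at h1)
  rw [hXF] at h2
  refine ⟨g0, g0 + h, max N1 N2, ?_, ?_, ?_, ?_⟩
  · intro W hW
    have hLe := hA₀.le hW
    by_cases hbv : W.valuation (algebraMap A₀ F b) < 1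
    · exact hgood0 W hLe hbv (nonZeroDivisors.ne_zero hb)
    · left
      have hb1 : W.valuation (algebraMap A₀ F b) = 1 := le_antisymm (hLe b) (not_lt.mp hbv)
      apply val_sub_pow
      · rw [← hab, map_div₀, hb1, div_one]
        exact hLe a
      · have h3 := congrArg W.valuation hg0
        rw [map_mul, map_pow, hb1, one_pow, one_mul] at h3
        rw [h3]
        exact hLe c0
  · intro W hW
    have hv := (val_inv_lt hx0).mpr hW
    have hLe := hA₁.le hv.le
    have h3 := hgood1 W hLe hv hξ0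
    have h4 : f - ((g0 + h) ^ p - (g0 + h)) = f1 - (h ^ p - h) := by
      rw [hf1, add_pow_char]; ring
    rw [h4]
    exact h3
  · intro W n hn hW
    rw [add_sub_cancel_left]
    have h3 : x ^ n * h = x ^ (n - N2) * (x ^ N2 * h) := by
      rw [← mul_assoc, ← pow_add]
      congr 2
      have := le_max_right N1 N2
      omega
    rw [h3, h2, map_mul, map_pow]
    exact mul_le_one' (pow_le_one' hW _) (hA₀.le hW c2)
  · intro W n hn hW
    rw [add_sub_cancel_left]
    have h3 : h / x ^ n = x⁻¹ ^ (n - N1) * (x⁻¹ ^ N1 * h) := by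
      rw [← mul_assoc, ← pow_add]
      have h4 : n - N1 + N1 = n := by
        have := le_max_left N1 N2
        omega
      rw [h4, inv_pow, div_eq_mul_inv, mul_comm]
    rw [h3, map_mul, map_pow]
    exact mul_le_one' (pow_le_one' ((val_inv_le hx0).mpr hW) _) (hbd1 W hW)

/-- A common bound for finitely many exponents. -/
theorem exists_common {α : Type} (s : Finset α) (P : α → ℕ → Prop)
    (h : ∀ a ∈ s, ∃ n, ∀ m, n ≤ m → P a m) : ∃ n, ∀ m, n ≤ m → ∀ a ∈ s, P a m := by
  classical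
  choose! n hn using h
  refine ⟨s.sup n, fun m hm a ha => hn a ha m ((Finset.le_sup ha).trans hm)⟩

/-- The set of uniformizers. -/
theorem exists_T (hx0 : x ≠ 0) (hA₀ : IsChart x A₀) (hA₁ : IsChart x⁻¹ A₁) (f0 : F) :
    ∃ N : ℕ, ∀ n, N ≤ n → ∃ T : Finset F, 0 ∉ T ∧ ∀ W : ValuationSubring F, ∃ τ,
      (τ = 1 ∨ Unif W τ) ∧ (∀ g ∈ T, W.valuation g ≤ W.valuation (τ * tw x n W)) ∧
      (∃ g ∈ T, W.valuation g = W.valuation (τ * tw x n W)) ∧
      (W.valuation x ≤ 1 → W.valuation f0 ≤ 1 ∨ Unif W τ) ∧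
      (¬ W.valuation x ≤ 1 → Unif W τ) := by
  classical
  have d0 := hA₀.ded
  have e0 := hA₀.frac
  have t0 := hA₀.finiteType
  have d1 := hA₁.ded
  have e1 := hA₁.frac
  have t1 := hA₁.finiteType
  set ξ : A₁ := ⟨x⁻¹, hA₁.mem⟩ with hξ
  have hξF : algebraMap A₁ F ξ = x⁻¹ := rfl
  set X : A₀ := ⟨x, hA₀.mem⟩ with hX
  have hXF : algebraMap A₀ F X = x := rfl
  have hξ0 : ξ ≠ 0 := by
    intro h
    have : x⁻¹ = 0 := congrArg (fun z : A₁ => (z : F)) h
    exact hx0 (inv_eq_zero.mp this)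
  have hX0 : X ≠ 0 := by
    intro h
    have : x = 0 := congrArg (fun z : A₀ => (z : F)) h
    exact hx0 this
  obtain ⟨a, b, hb, hab⟩ := IsFractionRing.div_surjective (A := A₀) f0
  have hb0 : b ≠ 0 := nonZeroDivisors.ne_zero hb
  have hb0' : algebraMap A₀ F b ≠ 0 := algebraMap_ne_zero hb0
  obtain ⟨G0, hG00, hG0⟩ := exists_unif_set (F := F) (X * b) (mul_ne_zero hX0 hb0)
  obtain ⟨K, b1, hb1⟩ := exists_pow_den (R := A₁) ξ (algebraMap A₀ F b) (by
    intro W hW hv
    rw [hξF, map_inv₀, inv_eq_one] at hv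
    exact hA₀.le hv.le b)
  rw [hξF] at hb1
  have hb10 : b1 ≠ 0 := by
    rintro rfl
    rw [map_zero] at hb1
    exact mul_ne_zero (pow_ne_zero _ (inv_ne_zero hx0)) hb0' hb1
  obtain ⟨G1, hG10, hG1⟩ := exists_unif_set (F := F) (ξ * b1) (mul_ne_zero hξ0 hb10)
  -- the exponents
  have hN1 : ∀ g ∈ G1, ∃ n, ∀ m, n ≤ m → ∀ W : ValuationSubring F, W.valuation x < 1 →
      W.valuation (x ^ m * algebraMap A₁ F g) < 1 := by
    intro g _
    obtain ⟨n, e, he⟩ := exists_pow_den (R := A₀) X (algebraMap A₁ F g) (by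
      intro W hW hv
      rw [hXF] at hv
      exact hA₁.le ((val_inv_le hx0).mpr hv.ge) g)
    rw [hXF] at he
    refine ⟨n + 1, fun m hm W hW => ?_⟩
    have h1 : x ^ m * algebraMap A₁ F g = x ^ (m - n) * (x ^ n * algebraMap A₁ F g) := by
      rw [← mul_assoc, ← pow_add]
      congr 2
      omega
    rw [h1, he, map_mul, map_pow]
    calc W.valuation x ^ (m - n) * W.valuation (algebraMap A₀ F e) ≤ W.valuation x ^ (m - n) * 1 :=
          mul_le_mul' le_rfl (hA₀.le hW.le e)
      _ < 1 := by rw [mul_one]; exact pow_lt_one₀ zero_le hW (by omega)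
  have hN0 : ∀ g ∈ G0, ∃ n, ∀ m, n ≤ m → ∀ W : ValuationSubring F, ¬ W.valuation x ≤ 1 →
      W.valuation (algebraMap A₀ F g / x ^ m) < 1 := by
    intro g _
    obtain ⟨n, e, he⟩ := exists_pow_den (R := A₁) ξ (algebraMap A₀ F g) (by
      intro W hW hv
      rw [hξF, map_inv₀, inv_eq_one] at hv
      exact hA₀.le hv.le g)
    rw [hξF] at he
    refine ⟨n + 1, fun m hm W hW => ?_⟩
    have h1 : algebraMap A₀ F g / x ^ m = x⁻¹ ^ (m - n) * (x⁻¹ ^ n * algebraMap A₀ F g) := by
      rw [← mul_assoc, ← pow_add]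
      have h4 : m - n + n = m := by omega
      rw [h4, inv_pow, div_eq_mul_inv, mul_comm]
    have hv := (val_inv_lt hx0).mpr hW
    rw [h1, he, map_mul, map_pow]
    calc W.valuation x⁻¹ ^ (m - n) * W.valuation (algebraMap A₁ F e) ≤
          W.valuation x⁻¹ ^ (m - n) * 1 := mul_le_mul' le_rfl (hA₁.le hv.le e)
      _ < 1 := by rw [mul_one]; exact pow_lt_one₀ zero_le hv (by omega)
  obtain ⟨n1, hn1⟩ := exists_common G1 _ hN1
  obtain ⟨n0, hn0⟩ := exists_common G0 _ hN0
  refine ⟨max n0 n1, fun n hn => ?_⟩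
  have hnn0 := (le_max_left n0 n1).trans hn
  have hnn1 := (le_max_right n0 n1).trans hn
  refine ⟨G0.image (algebraMap A₀ F) ∪ G1.image (fun g => x ^ n * algebraMap A₁ F g), ?_, ?_⟩
  · intro h
    rcases Finset.mem_union.mp h with h | h
    · obtain ⟨g, hg, h0⟩ := Finset.mem_image.mp h
      exact algebraMap_ne_zero (hG00 g hg) h0
    · obtain ⟨g, hg, h0⟩ := Finset.mem_image.mp h
      exact mul_ne_zero (pow_ne_zero _ hx0) (algebraMap_ne_zero (hG10 g hg)) h0
  · intro W
    by_cases hW : W.valuation x ≤ 1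
    · have hLe := hA₀.le hW
      obtain ⟨g, hg, hmax, hcase⟩ := hG0 W hLe
      rw [tw_le hW]
      rcases hcase with ⟨hβ, hg1⟩ | ⟨hβ, hg1⟩
      · rw [map_mul, map_mul, hXF] at hβ
        have hx1 : W.valuation x = 1 := by
          apply le_antisymm hW
          rw [← hβ]
          exact mul_le_of_le_one_right' (hLe b)
        have hb1 : W.valuation (algebraMap A₀ F b) = 1 := by
          rw [hx1, one_mul] at hβ
          exact hβ
        refine ⟨1, Or.inl rfl, ?_, ⟨algebraMap A₀ F g,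
          Finset.mem_union_left _ (Finset.mem_image_of_mem _ hg), ?_⟩, fun _ => Or.inl ?_,
          fun h => absurd hW h⟩
        · intro g' hg'
          rw [mul_one, map_one]
          rcases Finset.mem_union.mp hg' with h | h
          · obtain ⟨g'', hg'', rfl⟩ := Finset.mem_image.mp h
            exact hLe g''
          · obtain ⟨g'', hg'', rfl⟩ := Finset.mem_image.mp h
            rw [map_mul, map_pow, hx1, one_pow, one_mul]
            exact hA₁.le ((val_inv_le hx0).mpr hx1.ge) g''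
        · rw [mul_one, map_one, hg1]
        · rw [← hab, map_div₀, hb1, div_one]
          exact hLe a
      · refine ⟨algebraMap A₀ F g, Or.inr hg1, ?_, ⟨algebraMap A₀ F g,
          Finset.mem_union_left _ (Finset.mem_image_of_mem _ hg), by rw [mul_one]⟩,
          fun _ => Or.inr hg1, fun h => absurd hW h⟩
        intro g' hg'
        rw [mul_one]
        rcases Finset.mem_union.mp hg' with h | h
        · obtain ⟨g'', hg'', rfl⟩ := Finset.mem_image.mp h
          exact hmax g'' hg''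
        · obtain ⟨g'', hg'', rfl⟩ := Finset.mem_image.mp h
          apply hg1.max
          rcases eq_or_lt_of_le hW with hx1 | hx1
          · have hLe1 := hA₁.le (W := W) ((val_inv_le hx0).mpr hx1.ge)
            obtain ⟨g₁, hg₁, hmax₁, hcase₁⟩ := hG1 W hLe1
            rw [map_mul W.valuation, map_pow, hx1, one_pow, one_mul]
            refine (hmax₁ g'' hg'').trans_lt ?_
            rcases hcase₁ with ⟨h2, -⟩ | ⟨-, h2⟩
            · exfalso
              rw [map_mul, map_mul, hξF, ← hb1, map_mul, map_pow, map_inv₀, hx1, inv_one, one_pow,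
                one_mul, one_mul] at h2
              rw [map_mul, map_mul, hXF, hx1, one_mul, h2] at hβ
              exact lt_irrefl _ hβ
            · exact h2.lt
          · exact hn1 n hnn1 g'' hg'' W hx1
    · have hv := (val_inv_lt hx0).mpr hW
      have hLe := hA₁.le hv.le
      obtain ⟨g, hg, hmax, hcase⟩ := hG1 W hLe
      rw [tw_gt hW]
      have hg1 : Unif W (algebraMap A₁ F g) := by
        rcases hcase with ⟨h2, -⟩ | ⟨-, h2⟩
        · exfalso
          rw [map_mul, map_mul, hξF] at h2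
          have h3 : W.valuation x⁻¹ * W.valuation (algebraMap A₁ F b1) < 1 := by
            calc W.valuation x⁻¹ * W.valuation (algebraMap A₁ F b1) ≤ W.valuation x⁻¹ * 1 :=
                  mul_le_mul' le_rfl (hLe b1)
              _ < 1 := by rw [mul_one]; exact hv
          rw [h2] at h3
          exact lt_irrefl _ h3
        · exact h2
      refine ⟨algebraMap A₁ F g, Or.inr hg1, ?_, ⟨x ^ n * algebraMap A₁ F g,
          Finset.mem_union_right _ (Finset.mem_image_of_mem _ hg), by rw [mul_comm]⟩,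
          fun h => absurd h hW, fun _ => hg1⟩
      have hxn : 0 < W.valuation (x ^ n) := by
        rw [Valuation.pos_iff]; exact pow_ne_zero _ hx0
      intro g' hg'
      rcases Finset.mem_union.mp hg' with h | h
      · obtain ⟨g'', hg'', rfl⟩ := Finset.mem_image.mp h
        have h1 := hg1.max _ (hn0 n hnn0 g'' hg'' W hW)
        rw [map_div₀, div_le_iff₀ hxn] at h1
        rw [map_mul]
        exact h1
      · obtain ⟨g'', hg'', rfl⟩ := Finset.mem_image.mp h
        rw [map_mul, map_mul, mul_comm (W.valuation (x ^ n))]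
        exact mul_le_mul' (hmax g'' hg'') le_rfl

end Pool.Agent.H96.W
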