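import Mathlib

/-!
# Factorization of principal ideals
-/

set_option autoImplicit false

namespace Pool.Agent.H96.W

theorem exists_pow_mul {R : Type} [CommRing R] [IsDedekindDomain R] (q : Ideal R) (hq : q.IsPrime)
    (hq0 : q ≠ ⊥) {a : R} (ha : a ≠ 0) : ∃ (r : ℕ) (J : Ideal R), Ideal.span {a} = q ^ r * J ∧
      ¬ J ≤ q := by
  have hirr : Irreducible q := (Ideal.prime_of_isPrime hq0 hq).irreducible
  have hspan : Ideal.span {a} ≠ 0 := by
    rw [Ne, Ideal.zero_eq_bot, Ideal.span_singleton_eq_bot]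
    exact ha
  obtain ⟨r, J, hJ, hr⟩ := WfDvdMonoid.max_power_factor hspan hirr
  exact ⟨r, J, hr, fun hle => hJ (Ideal.dvd_iff_le.mpr hle)⟩

end Pool.Agent.H96.W
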