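import Pool.Agent.H96.W.CPlace

/-!
# Gauges: reduction of the poles of a function modulo `g ^ p - g`
-/

set_option autoImplicit false
set_option linter.unusedSectionVars false

namespace Pool.Agent.H96.W

variable {R F : Type} [CommRing R] [IsDedekindDomain R] [Field F] [Algebra R F] [IsFractionRing R F]
  {W : ValuationSubring F}

/-- `t` is a uniformizer of `W`. -/
structure Unif (W : ValuationSubring F) (t : F) : Prop where
  lt : W.valuation t < 1
  t0 : t ≠ 0
  max : ∀ w, W.valuation w < 1 → W.valuation w ≤ W.valuation t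

theorem Place.unif {t : R} (h : Place W t) : Unif W (algebraMap R F t) :=
  ⟨h.lt, algebraMap_ne_zero h.t0, h.max⟩

theorem exists_place (hW : Le R W) (hq : cen W hW ≠ ⊥) : ∃ t : R, Place W t := by
  have hqp := cen_isPrime hW
  obtain ⟨t, ht1, ht2⟩ := Ideal.exists_mem_pow_notMem_pow_succ (cen W hW) hq hqp.ne_top 1
  rw [pow_one] at ht1
  have ht0 : t ≠ 0 := by rintro rfl; exact ht2 (Ideal.zero_mem _)
  obtain ⟨r, J, hr, hJ⟩ := exists_pow_mul _ hqp hq ht0
  have hr1 : r = 1 := by
    have h1 : ¬ 2 ≤ r := by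
      intro h2
      apply ht2
      have h3 : t ∈ Ideal.span {t} := Ideal.mem_span_singleton_self t
      rw [hr] at h3
      have h4 : (cen W hW) ^ r * J ≤ (cen W hW) ^ r := Ideal.mul_le_left
      exact Ideal.pow_le_pow_right h2 (h4 h3)
    have h2 : r ≠ 0 := by
      rintro rfl
      rw [pow_zero, one_mul] at hr
      apply hJ
      rw [← hr, Ideal.span_singleton_le_iff_mem]
      exact ht1
    omega
  subst hr1
  rw [pow_one] at hr
  refine ⟨t, hW, ht1, ht0, fun w hw => ?_⟩
  obtain ⟨a, s, hs1, rfl⟩ := exists_frac hW hw.le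
  rw [map_div₀, hs1, div_one] at hw ⊢
  obtain ⟨j, hjJ, hjq⟩ := SetLike.not_le_iff_exists.mp hJ
  have h1 : a * j ∈ cen W hW * J := Ideal.mul_mem_mul hw hjJ
  rw [← hr, Ideal.mem_span_singleton'] at h1
  obtain ⟨y, hy⟩ := h1
  have h2 := congrArg (fun z => W.valuation (algebraMap R F z)) hy
  simp only [map_mul, val_eq_one hjq, mul_one] at h2
  rw [← h2]
  calc W.valuation (algebraMap R F y) * W.valuation (algebraMap R F t) ≤
        1 * W.valuation (algebraMap R F t) := mul_le_mul' (hW y) le_rfl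
    _ = _ := one_mul _

/-- The function is integral, or has a pole of order prime to `p`. -/
def Good (p : ℕ) (W : ValuationSubring F) (f : F) : Prop :=
  W.valuation f ≤ 1 ∨ ∃ (t : F) (m : ℕ), Unif W t ∧ ¬ p ∣ m ∧ W.valuation (f * t ^ m) = 1

/-- The ideal of denominators. -/
def den (R : Type) {F : Type} [CommRing R] [Field F] [Algebra R F] (w : F) : Ideal R where
  carrier := {a | ∃ e : R, algebraMap R F a * w = algebraMap R F e}
  add_mem' := by
    rintro a b ⟨e, he⟩ ⟨e', he'⟩
    exact ⟨e + e', by rw [map_add, map_add, add_mul, he, he']⟩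
  zero_mem' := ⟨0, by simp⟩
  smul_mem' := by
    rintro c a ⟨e, he⟩
    exact ⟨c * e, by rw [smul_eq_mul, map_mul, map_mul, mul_assoc, he]⟩

theorem mem_den {w : F} {a : R} : a ∈ den R w ↔ ∃ e : R, algebraMap R F a * w = algebraMap R F e :=
  Iff.rfl

theorem mul_pow_mem {q : Ideal R} {c : F} (hc : ∀ x ∈ q, ∃ e : R, algebraMap R F x * c =
    algebraMap R F e) (n : ℕ) {d : R} (hd : d ∈ q ^ n) :
    ∃ e : R, algebraMap R F d * c ^ n = algebraMap R F e := by
  induction n generalizing d with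
  | zero => exact ⟨d, by rw [pow_zero, mul_one]⟩
  | succ n ih =>
    rw [pow_succ] at hd
    induction hd using Submodule.mul_induction_on' with
    | mem_mul_mem u hu v hv =>
      obtain ⟨e1, h1⟩ := ih hu
      obtain ⟨e2, h2⟩ := hc v hv
      refine ⟨e1 * e2, ?_⟩
      rw [map_mul, map_mul, ← h1, ← h2]; ring
    | add u _ v _ hu hv =>
      obtain ⟨e1, h1⟩ := hu
      obtain ⟨e2, h2⟩ := hv
      refine ⟨e1 + e2, ?_⟩
      rw [map_add, map_add, ← h1, ← h2]; ring

/-- **Gauge lemma.** -/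
theorem exists_gauge {p : ℕ} [Fact p.Prime] [CharP F p]
    (hperf : ∀ q : Ideal R, q.IsMaximal → ∀ u : R, ∃ a : R, a ^ p - u ∈ q) (b : R) (f : F) :
    ∃ g : F, (∃ (N : ℕ) (e : R), algebraMap R F b ^ N * g = algebraMap R F e) ∧
      ∀ W : ValuationSubring F, Le R W → W.valuation (algebraMap R F b) < 1 → b ≠ 0 →
        Good p W (f - (g ^ p - g)) := by
  classical
  have hp : p.Prime := Fact.out
  let G : Set F := {g | ∃ (N : ℕ) (e : R), algebraMap R F b ^ N * g = algebraMap R F e}
  have hG0 : (0 : F) ∈ G := ⟨0, 0, by simp⟩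
  obtain ⟨I, ⟨g, hg, rfl⟩, hmax⟩ := (IsWellFounded.wf (r := ((· > ·) : Ideal R → Ideal R → Prop))).has_min
    ((fun g => den R (f - (g ^ p - g))) '' G) ⟨_, 0, hG0, rfl⟩
  refine ⟨g, hg, fun W hW hbW hb0 => ?_⟩
  by_contra hbad
  set f' := f - (g ^ p - g) with hf'
  have hq0 : cen W hW ≠ ⊥ := by
    intro h0
    have h1 : b ∈ cen W hW := hbW
    rw [h0] at h1
    exact hb0 h1
  obtain ⟨t, ht⟩ := exists_place hW hq0
  have hqp := cen_isPrime hW
  have hqm : (cen W hW).IsMaximal := hqp.isMaximal hq0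
  have hvt := ht.vt0
  rw [Good, not_or] at hbad
  obtain ⟨hbad1, hbad2⟩ := hbad
  rw [not_le] at hbad1
  have hf0 : f' ≠ 0 := by
    intro h0
    rw [h0, map_zero] at hbad1
    exact absurd hbad1 (not_lt.mpr zero_le_one)
  obtain ⟨z, hz⟩ := exists_zpow ht hf0
  have hzneg : z < 0 := by
    by_contra hge
    rw [not_lt] at hge
    obtain ⟨n, rfl⟩ := Int.eq_ofNat_of_zero_le hge
    rw [hz, zpow_natCast] at hbad1
    exact absurd (pow_le_one' ht.lt.le n) (not_le.mpr hbad1)
  obtain ⟨m, hm⟩ : ∃ m : ℕ, z = -(m : ℤ) := ⟨(-z).toNat, by omega⟩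
  have hm1 : 1 ≤ m := by omega
  have hvf : W.valuation (f' * algebraMap R F t ^ m) = 1 := by
    rw [map_mul, map_pow, hz, hm, zpow_neg, zpow_natCast, inv_mul_cancel₀]
    exact pow_ne_zero _ hvt.ne'
  have hpm : p ∣ m := by
    by_contra hnd
    exact hbad2 ⟨_, m, ht.unif, hnd, hvf⟩
  obtain ⟨n, rfl⟩ := hpm
  have hn1 : 1 ≤ n := by
    rcases Nat.eq_zero_or_pos n with h | h
    · rw [h] at hm1; omega
    · exact h
  -- an element of `R` with exact order `n`
  have hte0 : t ^ n ≠ 0 := pow_ne_zero _ ht.t0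
  obtain ⟨r, J, hr, hrJ, hJ⟩ := exists_ord ht hte0
  have hrn : r = n := by
    rw [map_pow, map_pow] at hr
    rcases lt_trichotomy r n with h | h | h
    · exact absurd hr (pow_lt_pow_right_of_lt_one₀ hvt ht.lt h).ne
    · exact h
    · exact absurd hr (pow_lt_pow_right_of_lt_one₀ hvt ht.lt h).ne'
  subst hrn
  obtain ⟨j, hjJ, hjq⟩ := SetLike.not_le_iff_exists.mp hJ
  have hj1 := val_eq_one hjq
  have hj0 : algebraMap R F j ≠ 0 := by
    intro h0
    rw [h0, map_zero] at hj1
    exact zero_ne_one hj1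
  have hT0 : algebraMap R F t ≠ 0 := algebraMap_ne_zero ht.t0
  set T := algebraMap R F t with hT
  set jj := algebraMap R F j with hjj
  set u := f' * (T ^ r) ^ p / jj ^ p with hu
  have hvu : W.valuation u = 1 := by
    rw [hu, map_div₀, map_pow W.valuation jj, hj1, one_pow, div_one, ← pow_mul, mul_comm r p]
    exact hvf
  obtain ⟨a1, b1, hb1, hab⟩ := exists_frac hW hvu.le
  have hb10 : algebraMap R F b1 ≠ 0 := by
    intro h0
    rw [h0, map_zero] at hb1
    exact zero_ne_one hb1
  have hb1q : b1 ∉ cen W hW := fun h => absurd hb1 (ne_of_lt h)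
  obtain ⟨b1', hb1'⟩ : ∃ b1', b1 * b1' - 1 ∈ cen W hW := by
    obtain ⟨y, i, hi, hyi⟩ := hqm.exists_inv hb1q
    refine ⟨y, ?_⟩
    have : b1 * y - 1 = -i := by linear_combination hyi
    rw [this]
    exact Ideal.neg_mem_iff _ |>.mpr hi
  obtain ⟨a, ha⟩ := hperf _ hqm (a1 * b1')
  have hua : W.valuation (u - algebraMap R F a ^ p) < 1 := by
    have h1 : a1 - a ^ p * b1 ∈ cen W hW := by
      have h2 : a1 - a ^ p * b1 = -((a ^ p - a1 * b1') * b1) - a1 * (b1 * b1' - 1) := by ring
      rw [h2]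
      refine Ideal.sub_mem _ ?_ (Ideal.mul_mem_left _ _ hb1')
      exact (Ideal.neg_mem_iff _).mpr (Ideal.mul_mem_right _ _ ha)
    have h2 : u - algebraMap R F a ^ p = algebraMap R F (a1 - a ^ p * b1) / algebraMap R F b1 := by
      rw [hab, map_sub, map_mul, map_pow]
      field_simp
    rw [h2, map_div₀, hb1, div_one]
    exact h1
  set c := algebraMap R F a * jj / T ^ r with hc
  have hqc : ∀ x ∈ (cen W hW) ^ r, ∃ e : R, algebraMap R F x * c = algebraMap R F e := by
    intro x hx
    have h1 : x * j ∈ (cen W hW) ^ r * J := Ideal.mul_mem_mul hx hjJ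
    rw [← hrJ, Ideal.mem_span_singleton'] at h1
    obtain ⟨y, hy⟩ := h1
    refine ⟨a * y, ?_⟩
    have h2 : algebraMap R F y * T ^ r = algebraMap R F x * jj := by
      rw [hT, hjj, ← map_pow, ← map_mul, ← map_mul, hy]
    rw [hc, map_mul]
    have h3 := pow_ne_zero r hT0
    field_simp
    linear_combination (-algebraMap R F a) * h2
  have hg' : g + c ∈ G := by
    obtain ⟨N, e, hNe⟩ := hg
    obtain ⟨e2, he2⟩ := hqc (b ^ r) (Ideal.pow_mem_pow hbW r)
    refine ⟨N + r, b ^ r * e + b ^ N * e2, ?_⟩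
    rw [map_add, map_mul, map_mul, ← hNe, ← he2, map_pow, map_pow]
    ring
  apply hmax _ ⟨g + c, hg', rfl⟩
  show den R (f - (g ^ p - g)) < den R (f - ((g + c) ^ p - (g + c)))
  have hf'' : f - ((g + c) ^ p - (g + c)) = f' - c ^ p + c := by
    rw [add_pow_char, hf']; ring
  rw [hf'', ← hf']
  have hval : ∀ d : R, d ∈ den R f' → W.valuation (algebraMap R F d) ≤ W.valuation T ^ (p * r) := by
    rintro d ⟨e, he⟩
    have h1 : algebraMap R F d * (f' * T ^ (p * r)) = algebraMap R F e * T ^ (p * r) := by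
      rw [← he]; ring
    have h2 := congrArg W.valuation h1
    rw [map_mul, hvf, mul_one, map_mul, map_pow] at h2
    rw [h2]
    calc W.valuation (algebraMap R F e) * W.valuation T ^ (p * r) ≤ 1 * W.valuation T ^ (p * r) :=
          mul_le_mul' (hW e) le_rfl
      _ = _ := one_mul _
  refine lt_of_le_of_ne ?_ ?_
  · intro d hd
    have h1 := mem_pow_of_val ht (hval d hd)
    obtain ⟨e1, he1⟩ := hd
    have h2 : d ∈ ((cen W hW) ^ r) ^ p := by
      rw [← pow_mul, mul_comm r p]; exact h1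
    obtain ⟨e2, he2⟩ := mul_pow_mem hqc p h2
    have h3 : d ∈ (cen W hW) ^ r := by
      refine Ideal.pow_le_pow_right ?_ h1
      exact Nat.le_mul_of_pos_left _ hp.pos
    obtain ⟨e3, he3⟩ := hqc d h3
    refine ⟨e1 - e2 + e3, ?_⟩
    rw [map_add, map_sub, ← he1, ← he2, ← he3]; ring
  · intro heq
    have hpr : r ≤ p * r - 1 := by
      have h2 := Nat.mul_le_mul_right r hp.two_le
      omega
    have h1 : W.valuation ((f' - c ^ p + c) * T ^ (p * r - 1)) ≤ 1 := by
      have hTr : T ^ (p * r) ≠ 0 := pow_ne_zero _ hT0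
      have hsplit : (f' - c ^ p + c) * T ^ (p * r - 1) =
          (u - algebraMap R F a ^ p) * jj ^ p / T + algebraMap R F a * jj * T ^ (p * r - 1 - r) := by
        have h2 : T ^ (p * r) = T ^ (p * r - 1) * T := by
          rw [← pow_succ]; congr 1
          have := Nat.mul_pos hp.pos hn1
          omega
        have h3 : T ^ (p * r - 1) = T ^ (p * r - 1 - r) * T ^ r := by
          rw [← pow_add]; congr 1; omega
        have h4 : f' - c ^ p = (u - algebraMap R F a ^ p) * jj ^ p / T ^ (p * r) := by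
          rw [hu, hc, div_pow, mul_pow, ← pow_mul, mul_comm r p]
          field_simp
        rw [add_mul, h4, h2]
        congr 1
        · have h5 := pow_ne_zero (p * r - 1) hT0
          field_simp
        · rw [hc, h3]
          have h5 := pow_ne_zero r hT0
          field_simp
      rw [hsplit]
      refine (W.valuation.map_add _ _).trans (max_le ?_ ?_)
      · rw [map_div₀, map_mul, map_pow, hj1, one_pow, mul_one]
        exact (div_le_one₀ hvt).mpr (ht.max _ hua)
      · rw [map_mul, map_mul, hj1, mul_one, map_pow]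
        exact mul_le_one' (hW a) (pow_le_one' ht.lt.le _)
    obtain ⟨d, e, hde, hvd⟩ := exists_den ht h1
    have h2 : d ∈ den R (f' - c ^ p + c) := ⟨e, hde⟩
    rw [← heq] at h2
    have h3 := hval d h2
    rw [hvd] at h3
    have h4 : W.valuation T ^ (p * r) < W.valuation T ^ (p * r - 1) := by
      apply pow_lt_pow_right_of_lt_one₀ hvt ht.lt
      have := Nat.mul_pos hp.pos hn1
      omega
    exact absurd h3 (not_le.mpr h4)

end Pool.Agent.H96.W
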