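import Pool.Agent.H96.W.CPres
import Pool.Agent.H96.W.CChart

/-!
# The data attached to a function on a curve over a finite field
-/

set_option autoImplicit false
set_option linter.unusedSectionVars false

namespace Pool.Agent.H96.W

open MvPolynomial IsLocalRing Pool.Agent.H96.VL

section Abs

variable {p : ℕ} [Fact p.Prime] {R F : Type} [CommRing R] [IsDedekindDomain R] [Field F]
  [Algebra R F] [IsFractionRing R F]

theorem cen_ne_bot_of_unif {W : ValuationSubring F} (hW : Le R W) {t : F} (ht : Unif W t) :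
    cen W hW ≠ ⊥ := by
  intro h0
  obtain ⟨a, s, hs, hts⟩ := exists_frac hW ht.lt.le
  have h1 := ht.lt
  rw [hts, map_div₀, hs, div_one] at h1
  have h2 : a ∈ cen W hW := h1
  rw [h0] at h2
  have h3 : a = 0 := h2
  apply ht.t0
  rw [hts, h3, map_zero, zero_div]

theorem triv_of_cen_eq_bot {W : ValuationSubring F} (hW : Le R W) (h : cen W hW = ⊥) {w : F}
    (hw : w ≠ 0) : W.valuation w = 1 := by
  obtain ⟨a, b, hb, rfl⟩ := IsFractionRing.div_surjective (A := R) w
  have hb0 : b ≠ 0 := nonZeroDivisors.ne_zero hb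
  have ha0 : a ≠ 0 := by
    rintro rfl
    apply hw
    simp
  have h1 : ∀ a : R, a ≠ 0 → W.valuation (algebraMap R F a) = 1 := by
    intro a ha
    apply val_eq_one (hW := hW)
    rw [h]
    exact ha
  rw [map_div₀, h1 a ha0, h1 b hb0, div_one]

theorem exists_unif_or (W : ValuationSubring F) (hW : Le R W) :
    (∃ t, Unif W t) ∨ ∀ w, w ≠ 0 → W.valuation w = 1 := by
  by_cases h : cen W hW = ⊥
  · exact Or.inr fun w hw => triv_of_cen_eq_bot hW h hw
  · obtain ⟨t, ht⟩ := exists_place hW h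
    exact Or.inl ⟨_, ht.unif⟩

theorem good_add {W : ValuationSubring F} {f h : F} (hf : Good p W f)
    (hh : W.valuation h ≤ 1) : Good p W (f + h) := by
  rcases hf with hf | ⟨t, m, ht, hm, hv⟩
  · exact Or.inl ((W.valuation.map_add _ _).trans (max_le hf hh))
  · right
    refine ⟨t, m, ht, hm, ?_⟩
    have hm0 : m ≠ 0 := by rintro rfl; exact hm (dvd_zero p)
    have h1 : W.valuation (h * t ^ m) < 1 := by
      rw [map_mul, map_pow]
      calc W.valuation h * W.valuation t ^ m ≤ 1 * W.valuation t ^ m := mul_le_mul' hh le_rfl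
        _ < 1 := by rw [one_mul]; exact pow_lt_one₀ zero_le ht.lt hm0
    rw [add_mul, W.valuation.map_add_eq_of_lt_left (by rw [hv]; exact h1), hv]

variable [Algebra (ZMod p) R] [Algebra.FiniteType (ZMod p) R]
  [Algebra (ZMod p) F] [IsScalarTower (ZMod p) R F]

theorem exists_pres_triv {W : ValuationSubring F} (hW : Le R W) (hnf : ¬ IsField R)
    (htriv : ∀ w, w ≠ 0 → W.valuation w = 1) (E : Finset F) :
    ∃ (n : ℕ) (y : Fin (n + 1) → F) (G : Fin (n + 1) → MvPolynomial (Fin (n + 1)) (ZMod p))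
      (l : Fin (n + 1)), Pres W n y G l ∧ (∀ e ∈ E, ∃ b, y b = e) := by
  obtain ⟨W', hW', hq', hE'⟩ := exists_nontrivial p hnf E
  obtain ⟨t, ht⟩ := exists_place hW' hq'
  obtain ⟨n, y, G, l, h1, h2, -⟩ := exists_pres (p := p) hW' hq' ht.unif E hE'
  have hv : ∀ w : F, W.valuation w ≤ 1 := by
    intro w
    by_cases hw : w = 0
    · rw [hw, map_zero]; exact zero_le
    · exact (htriv w hw).le
  have hne : ∀ {w : F}, W'.valuation w = 1 → w ≠ 0 := by
    intro w hw h0
    rw [h0, map_zero] at hw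
    exact zero_ne_one hw
  refine ⟨n, y, G, l, ⟨fun b => hv _, fun w _ => ?_, h1.G0, h1.rel, htriv _ (hne h1.det)⟩, h2⟩
  obtain ⟨a, b, hb, rfl⟩ := IsFractionRing.div_surjective (A := R) w
  have hb0 : b ≠ 0 := nonZeroDivisors.ne_zero hb
  have hb0' := algebraMap_ne_zero (F := F) hb0
  obtain ⟨P1, Q1, hQ1, h3⟩ := h1.gen _ (hW' a)
  obtain ⟨P2, Q2, hQ2, h4⟩ := h1.gen _ (hW' b)
  have hP2 : aeval y P2 ≠ 0 := by
    intro h0
    rw [h0, zero_div] at h4
    exact hb0' h4
  have h5 := hne hQ1
  have h6 := hne hQ2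
  refine ⟨P1 * Q2, Q1 * P2, ?_, ?_⟩
  · rw [map_mul]
    exact htriv _ (mul_ne_zero h5 hP2)
  · rw [h3, h4, map_mul, map_mul]
    field_simp

end Abs

section Chart

variable {p : ℕ} [Fact p.Prime] {F : Type} [Field F] [Algebra (ZMod p) F] {x : F}
  {A : Subalgebra (ZMod p) F}

theorem zmod_mem (W : ValuationSubring F) (c : ZMod p) : algebraMap (ZMod p) F c ∈ W := by
  obtain ⟨n, hn⟩ := algebraMap_eq_intCast (zmod_surj p) c
  rw [hn]
  exact intCast_mem W n

/-- Elements integral over a subring of a valuation ring. -/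
theorem mem_of_isIntegral {W : ValuationSubring F} {B : Subalgebra (ZMod p) F}
    (hB : ∀ b ∈ B, b ∈ W) {a : F} (ha : IsIntegral B a) : a ∈ W := by
  let j : B →+* W :=
    { toFun := fun b => ⟨b, hB b b.2⟩
      map_one' := rfl
      map_mul' := fun _ _ => rfl
      map_zero' := rfl
      map_add' := fun _ _ => rfl }
  let i1 : Algebra B W := j.toAlgebra
  have : IsScalarTower B W F := IsScalarTower.of_algebraMap_eq fun b => rfl
  have h1 : IsIntegral W a := ha.tower_top
  obtain ⟨w, hw⟩ := (IsIntegrallyClosed.isIntegral_iff (R := W) (K := F)).mp h1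
  rw [← hw]
  exact w.2

theorem IsChart.le (hA : IsChart x A) {W : ValuationSubring F} (hx : W.valuation x ≤ 1) :
    Le A W := by
  rintro ⟨a, ha⟩
  refine (W.valuation_le_one_iff _).mpr (mem_of_isIntegral (B := Algebra.adjoin (ZMod p) {x}) ?_
    (hA.int a ha))
  intro b hb
  induction hb using Algebra.adjoin_induction with
  | mem y hy => rw [Set.mem_singleton_iff.mp hy]; exact (W.valuation_le_one_iff _).mp hx
  | algebraMap r => exact zmod_mem W r
  | add y z _ _ hy hz => exact W.add_mem _ _ hy hz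
  | mul y z _ _ hy hz => exact W.mul_mem _ _ hy hz

theorem IsChart.val_x (hA : IsChart x A) {W : ValuationSubring F} (h : Le A W) :
    W.valuation x ≤ 1 := h ⟨x, hA.mem⟩

theorem IsChart.finiteType (hA : IsChart x A) : Algebra.FiniteType (ZMod p) A :=
  A.fg_iff_finiteType.mp hA.fg

/-- Generators. -/
theorem IsChart.exists_gens (hA : IsChart x A) : ∃ S : Finset F, (∀ e ∈ S, e ≠ 0) ∧
    (∀ e ∈ S, e ∈ A) ∧ ∀ a ∈ A, a ∈ Subring.closure (S : Set F) := by
  classical
  obtain ⟨S, hS⟩ := hA.fg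
  refine ⟨S.erase 0, fun e he => Finset.ne_of_mem_erase he, fun e he => ?_, fun a ha => ?_⟩
  · rw [← hS]
    exact Algebra.subset_adjoin (Finset.mem_of_mem_erase he)
  · rw [← hS] at ha
    induction ha using Algebra.adjoin_induction with
    | mem y hy =>
      by_cases h0 : y = 0
      · rw [h0]; exact Subring.zero_mem _
      · exact Subring.subset_closure (by
          rw [Finset.coe_erase]; exact ⟨hy, h0⟩)
    | algebraMap r =>
      obtain ⟨n, hn⟩ := algebraMap_eq_intCast (zmod_surj p) r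
      rw [hn]
      exact intCast_mem _ n
    | add y z _ _ hy hz => exact Subring.add_mem _ hy hz
    | mul y z _ _ hy hz => exact Subring.mul_mem _ hy hz

end Chart

end Pool.Agent.H96.W
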