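import Pool.Agent.H96.W.CDed

/-!
# Places of the field of fractions of a Dedekind domain
-/

set_option autoImplicit false
set_option linter.unusedSectionVars false

namespace Pool.Agent.H96.W

variable {R F : Type} [CommRing R] [IsDedekindDomain R] [Field F] [Algebra R F] [IsFractionRing R F]
  {W : ValuationSubring F}

/-- `R` is contained in `W`. -/
def Le (R : Type) {F : Type} [CommRing R] [Field F] [Algebra R F] (W : ValuationSubring F) : Prop :=
  ∀ a : R, W.valuation (algebraMap R F a) ≤ 1

/-- The centre of `W` on `R`. -/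
def cen (W : ValuationSubring F) (hW : Le R W) : Ideal R where
  carrier := {a | W.valuation (algebraMap R F a) < 1}
  add_mem' := by
    intro a b ha hb
    show W.valuation (algebraMap R F (a + b)) < 1
    rw [map_add]
    exact W.valuation.map_add_lt ha hb
  zero_mem' := by
    show W.valuation (algebraMap R F 0) < 1
    rw [map_zero, map_zero]; exact zero_lt_one
  smul_mem' := by
    intro c a ha
    show W.valuation (algebraMap R F (c * a)) < 1
    rw [map_mul, map_mul]
    exact (mul_le_mul_left (hW c) _).trans_lt (by simpa using ha)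

theorem mem_cen {hW : Le R W} {a : R} : a ∈ cen W hW ↔ W.valuation (algebraMap R F a) < 1 := Iff.rfl

theorem val_eq_one {hW : Le R W} {a : R} (ha : a ∉ cen W hW) :
    W.valuation (algebraMap R F a) = 1 := le_antisymm (hW a) (not_lt.mp ha)

theorem cen_isPrime (hW : Le R W) : (cen W hW).IsPrime where
  ne_top' := by
    intro h
    have h1 : (1 : R) ∈ cen W hW := by rw [h]; trivial
    rw [mem_cen, map_one, map_one] at h1
    exact lt_irrefl _ h1
  mem_or_mem' := by
    intro a b hab
    by_contra hcon
    push Not at hcon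
    obtain ⟨ha, hb⟩ := hcon
    rw [mem_cen, map_mul, map_mul, val_eq_one ha, val_eq_one hb, one_mul] at hab
    exact lt_irrefl _ hab

theorem algebraMap_ne_zero {a : R} (ha : a ≠ 0) : algebraMap R F a ≠ 0 :=
  (map_ne_zero_iff _ (IsFractionRing.injective R F)).mpr ha

/-- `W` is a localization of `R`. -/
theorem exists_frac (hW : Le R W) {w : F} (hw : W.valuation w ≤ 1) :
    ∃ a b : R, W.valuation (algebraMap R F b) = 1 ∧ w = algebraMap R F a / algebraMap R F b := by
  classical
  set q := cen W hW with hq
  have hqp : q.IsPrime := cen_isPrime hW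
  have hv1 : ∀ a : R, a ∉ q → W.valuation (algebraMap R F a) = 1 := fun a ha => val_eq_one ha
  obtain ⟨a, b, hb, hab⟩ := IsFractionRing.div_surjective (A := R) w
  have hb0 : b ≠ 0 := nonZeroDivisors.ne_zero hb
  have hb0' : algebraMap R F b ≠ 0 := algebraMap_ne_zero hb0
  by_cases hq0 : q = ⊥
  · refine ⟨a, b, hv1 b ?_, hab.symm⟩
    rw [hq0]
    exact hb0
  · have hdvr := IsLocalization.AtPrime.isDiscreteValuationRing_of_dedekind_domain R hq0
      (Localization.AtPrime q)
    have hval : ValuationRing (Localization.AtPrime q) := inferInstance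
    have hinj : Function.Injective (algebraMap R (Localization.AtPrime q)) :=
      IsLocalization.injective _ q.primeCompl_le_nonZeroDivisors
    obtain ⟨z, hz⟩ := ValuationRing.cond (algebraMap R (Localization.AtPrime q) a)
      (algebraMap R (Localization.AtPrime q) b)
    obtain ⟨c, s, hcs⟩ := IsLocalization.exists_mk'_eq q.primeCompl z
    have hs1 : W.valuation (algebraMap R F (s : R)) = 1 := hv1 s s.2
    have hs0 : algebraMap R F (s : R) ≠ 0 := by
      intro h0
      rw [h0, map_zero] at hs1
      exact zero_ne_one hs1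
    have hspec : z * algebraMap R (Localization.AtPrime q) s = algebraMap R _ c := by
      rw [← hcs]
      exact IsLocalization.mk'_spec _ c s
    rcases hz with h | h
    · -- `b = a z`
      have h1 : algebraMap R (Localization.AtPrime q) (b * s) = algebraMap R _ (a * c) := by
        rw [map_mul, map_mul, ← hspec, ← h]; ring
      have h2 : b * (s : R) = a * c := hinj h1
      have h3 : algebraMap R F b * algebraMap R F (s : R) = algebraMap R F a * algebraMap R F c := by
        rw [← map_mul, h2, map_mul]
      by_cases ha0 : algebraMap R F a = 0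
      · rw [ha0, zero_div] at hab
        exact ⟨0, 1, by rw [map_one, map_one], by rw [← hab]; simp⟩
      · have hc0 : algebraMap R F c ≠ 0 := by
          intro h0
          rw [h0, mul_zero] at h3
          exact mul_ne_zero hb0' hs0 h3
        have h4 : w = algebraMap R F (s : R) / algebraMap R F c := by
          rw [← hab, div_eq_div_iff hb0' hc0, ← h3]; ring
        have h5 : W.valuation (algebraMap R F c) = 1 := by
          apply le_antisymm (hW c)
          rw [h4, map_div₀, hs1, one_div] at hw
          have hc' : 0 < W.valuation (algebraMap R F c) := by rw [Valuation.pos_iff]; exact hc0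
          exact (inv_le_one₀ hc').mp hw
        exact ⟨_, _, h5, h4⟩
    · -- `a = b z`
      have h1 : algebraMap R (Localization.AtPrime q) (a * s) = algebraMap R _ (b * c) := by
        rw [map_mul, map_mul, ← hspec, ← h]; ring
      have h2 : a * (s : R) = b * c := hinj h1
      have h3 : algebraMap R F a * algebraMap R F (s : R) = algebraMap R F b * algebraMap R F c := by
        rw [← map_mul, h2, map_mul]
      refine ⟨c, s, hs1, ?_⟩
      rw [← hab, div_eq_div_iff hb0' hs0, h3]; ring

/-- A nontrivial place with a uniformizer `t` in `R`. -/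
structure Place (W : ValuationSubring F) (t : R) : Prop where
  le : Le R W
  lt : W.valuation (algebraMap R F t) < 1
  t0 : t ≠ 0
  max : ∀ w, W.valuation w < 1 → W.valuation w ≤ W.valuation (algebraMap R F t)

theorem Place.vt0 {t : R} (h : Place W t) : 0 < W.valuation (algebraMap R F t) := by
  rw [Valuation.pos_iff]; exact algebraMap_ne_zero h.t0

theorem pow_le_of_mem {t : R} (h : Place W t) (n : ℕ) {a : R}
    (ha : a ∈ (cen W h.le) ^ n) :
    W.valuation (algebraMap R F a) ≤ W.valuation (algebraMap R F t) ^ n := by
  induction n generalizing a with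
  | zero =>
    rw [pow_zero]
    exact h.le a
  | succ n ih =>
    rw [pow_succ] at ha
    induction ha using Submodule.mul_induction_on' with
    | mem_mul_mem m hm n hn =>
      rw [map_mul, map_mul, pow_succ]
      exact mul_le_mul' (ih hm) (h.max _ hn)
    | add u _ v _ hu hv =>
      rw [map_add]
      exact (W.valuation.map_add _ _).trans (max_le hu hv)

theorem Place.cen_ne_bot {t : R} (h : Place W t) : cen W h.le ≠ ⊥ := by
  intro h0
  have h1 : t ∈ cen W h.le := h.lt
  rw [h0] at h1
  exact h.t0 h1

/-- The order of an element of `R`. -/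
theorem exists_ord {t : R} (h : Place W t) {a : R} (ha : a ≠ 0) :
    ∃ (r : ℕ) (J : Ideal R), W.valuation (algebraMap R F a) = W.valuation (algebraMap R F t) ^ r ∧
      Ideal.span {a} = (cen W h.le) ^ r * J ∧ ¬ J ≤ cen W h.le := by
  have hqp : (cen W h.le).IsPrime := cen_isPrime h.le
  obtain ⟨r, J, hr, hJ'⟩ := exists_pow_mul _ hqp h.cen_ne_bot ha
  refine ⟨r, J, ?_, hr, hJ'⟩
  apply le_antisymm
  · apply pow_le_of_mem h
    have h1 : a ∈ Ideal.span {a} := Ideal.mem_span_singleton_self a
    rw [hr] at h1
    have h2 : (cen W h.le) ^ r * J ≤ (cen W h.le) ^ r := Ideal.mul_le_left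
    exact h2 h1
  · obtain ⟨s, hsJ, hsq⟩ := SetLike.not_le_iff_exists.mp hJ'
    have hs1 := val_eq_one hsq
    have h1 : t ^ r * s ∈ (cen W h.le) ^ r * J :=
      Ideal.mul_mem_mul (Ideal.pow_mem_pow (show t ∈ cen W h.le from h.lt) r) hsJ
    rw [← hr, Ideal.mem_span_singleton'] at h1
    obtain ⟨c, hc⟩ := h1
    have h3 := congrArg (fun z => W.valuation (algebraMap R F z)) hc
    simp only [map_mul, map_pow, hs1, mul_one] at h3
    rw [← h3]
    calc W.valuation (algebraMap R F c) * W.valuation (algebraMap R F a) ≤
          1 * W.valuation (algebraMap R F a) := mul_le_mul' (h.le c) le_rfl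
      _ = _ := one_mul _

theorem mem_pow_of_val {t : R} (h : Place W t) {a : R} {n : ℕ}
    (ha : W.valuation (algebraMap R F a) ≤ W.valuation (algebraMap R F t) ^ n) :
    a ∈ (cen W h.le) ^ n := by
  by_cases ha0 : a = 0
  · rw [ha0]; exact Ideal.zero_mem _
  · obtain ⟨r, J, h1, h2, -⟩ := exists_ord h ha0
    rw [h1] at ha
    have hnr : n ≤ r := by
      by_contra hlt
      have h3 := pow_lt_pow_right_of_lt_one₀ h.vt0 h.lt (not_le.mp hlt)
      exact absurd ha (not_le.mpr h3)
    have h3 : a ∈ Ideal.span {a} := Ideal.mem_span_singleton_self a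
    rw [h2] at h3
    have h4 : (cen W h.le) ^ r * J ≤ (cen W h.le) ^ r := Ideal.mul_le_left
    exact Ideal.pow_le_pow_right hnr (h4 h3)

/-- The order of an element of `F`. -/
theorem exists_zpow {t : R} (h : Place W t) {w : F} (hw : w ≠ 0) :
    ∃ m : ℤ, W.valuation w = W.valuation (algebraMap R F t) ^ m := by
  obtain ⟨a, b, hb, hab⟩ := IsFractionRing.div_surjective (A := R) w
  have hb0 : b ≠ 0 := nonZeroDivisors.ne_zero hb
  have ha0 : a ≠ 0 := by
    rintro rfl
    apply hw
    rw [← hab]; simp
  obtain ⟨r, -, hr, -, -⟩ := exists_ord h ha0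
  obtain ⟨s, -, hs, -, -⟩ := exists_ord h hb0
  refine ⟨(r : ℤ) - s, ?_⟩
  rw [← hab, map_div₀, hr, hs, zpow_sub₀ (ne_of_gt h.vt0), zpow_natCast, zpow_natCast]

/-- Denominators with exact order. -/
theorem exists_den {t : R} (h : Place W t) {w : F} {r : ℕ}
    (hw : W.valuation (w * algebraMap R F t ^ r) ≤ 1) :
    ∃ d e : R, algebraMap R F d * w = algebraMap R F e ∧
      W.valuation (algebraMap R F d) = W.valuation (algebraMap R F t) ^ r := by
  obtain ⟨a, s, hs1, hwa⟩ := exists_frac h.le hw
  have hs0 : algebraMap R F s ≠ 0 := by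
    intro h0
    rw [h0, map_zero] at hs1
    exact zero_ne_one hs1
  refine ⟨s * t ^ r, a, ?_, ?_⟩
  · have h2 : algebraMap R F s * (w * algebraMap R F t ^ r) = algebraMap R F a := by
      rw [hwa]; field_simp
    rw [map_mul, map_pow]
    linear_combination h2
  · rw [map_mul, map_mul, map_pow, map_pow, hs1, one_mul]

end Pool.Agent.H96.W
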