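import Pool.Agent.H96.RegV
import Pool.Agent.H96.IndepLin
import Pool.Agent.H96.DSys2

/-!
# Regularity at the centre of a valuation, over a general prime ring
-/

set_option autoImplicit false
set_option linter.unusedSectionVars false

namespace Pool.Agent.H96.W

open MvPolynomial IsLocalRing Pool.Agent.H96.Reg Pool.Agent.H96.VL

variable {A : Type} [CommRing A]

section Residue

variable {K : Type} [Field K] [Algebra A K]

theorem algebraMap_eq_intCast (hA : Function.Surjective (Int.castRingHom A)) (a : A) :
    ∃ n : ℤ, ∀ (B : Type) [CommRing B] [Algebra A B], algebraMap A B a = (n : B) := by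
  obtain ⟨n, rfl⟩ := hA a
  exact ⟨n, fun B _ _ => by simp⟩

theorem resv_algebraMap (hA : Function.Surjective (Int.castRingHom A)) (V : ValuationSubring K)
    [Algebra A (ResidueField V)] (a : A) :
    V.valuation (algebraMap A K a) ≤ 1 ∧
      resv V (algebraMap A K a) = algebraMap A (ResidueField V) a := by
  obtain ⟨n, hn⟩ := algebraMap_eq_intCast hA a
  rw [hn, hn]
  exact ⟨val_intCast_le V n, resv_intCast V n⟩

theorem resv_aevalA (hA : Function.Surjective (Int.castRingHom A)) {V : ValuationSubring K}
    [Algebra A (ResidueField V)] {σ : Type} (z : σ → K)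
    (hz : ∀ s, V.valuation (z s) ≤ 1) (P : MvPolynomial σ A) :
    V.valuation (aeval z P) ≤ 1 ∧ resv V (aeval z P) = aeval (fun s => resv V (z s)) P := by
  induction P using MvPolynomial.induction_on with
  | C n =>
    rw [aeval_C, aeval_C]
    exact resv_algebraMap hA V n
  | add P Q hP hQ =>
    refine ⟨?_, ?_⟩
    · rw [map_add]
      exact (V.valuation.map_add _ _).trans (max_le hP.1 hQ.1)
    · rw [map_add, resv_add hP.1 hQ.1, hP.2, hQ.2, map_add]
  | mul_X P i hP =>
    refine ⟨?_, ?_⟩
    · rw [map_mul, aeval_X, map_mul]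
      exact mul_le_one' hP.1 (hz i)
    · rw [map_mul, aeval_X, resv_mul hP.1 (hz i), hP.2, map_mul, aeval_X]

end Residue

section Height

variable [IsDomain A] [IsNoetherianRing A]

theorem height_ker_leA {σ : Type} [Finite σ] {B : Type} [CommRing B] [IsDomain B] [Algebra A B]
    (π : MvPolynomial σ A →ₐ[A] B) (T : Set σ)
    (hT : AlgebraicIndependent A (fun t : T => π (X (t : σ)))) :
    (RingHom.ker (π : MvPolynomial σ A →+* B)).height ≤ Nat.card (Tᶜ : Set σ) := by
  classical
  let e : σ ≃ (↥(Tᶜ : Set σ)) ⊕ (↥T) := ((Equiv.sumComm _ _).trans (Equiv.Set.sumCompl T)).symm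
  let E : MvPolynomial σ A ≃ₐ[A] MvPolynomial (↥(Tᶜ : Set σ)) (MvPolynomial (↥T) A) :=
    (renameEquiv A e).trans (sumAlgEquiv A _ _)
  have hprime : (RingHom.ker (π : MvPolynomial σ A →+* B)).IsPrime := RingHom.ker_isPrime _
  have h1 : ((RingHom.ker (π : MvPolynomial σ A →+* B)).comap
      (E.symm.toRingEquiv : _ ≃+* _)).height =
      (RingHom.ker (π : MvPolynomial σ A →+* B)).height := RingEquiv.height_comap _ _
  rw [← h1]
  have : ((RingHom.ker (π : MvPolynomial σ A →+* B)).comap
      (E.symm.toRingEquiv : _ ≃+* _)).IsPrime := Ideal.comap_isPrime _ _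
  apply height_le_of_comap_C
  intro a ha
  have h2 : π (E.symm (C a)) = 0 := ha
  have h3 : E.symm (C a) = rename (Subtype.val) a := by
    rw [AlgEquiv.symm_apply_eq]
    show C a = (sumAlgEquiv A _ _) (renameEquiv A e (rename Subtype.val a))
    rw [renameEquiv_apply, rename_rename]
    have h4 : (e ∘ Subtype.val : ↥T → _) = Sum.inr := by
      ext t
      simp only [Function.comp_apply]
      rw [Equiv.symm_apply_eq]
      simp
    rw [h4]
    have h5 := congrArg (fun φ => φ a)
      (sumAlgEquiv_comp_rename_inr (R := A) (S₁ := ↥(Tᶜ : Set σ)) (S₂ := ↥T))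
    simpa using h5.symm
  rw [h3] at h2
  have h6 : aeval (fun t : T => π (X (t : σ))) a = 0 := by
    rw [← h2]
    have h7 : (aeval (fun t : T => π (X (t : σ)))) =
        π.comp (rename (Subtype.val : T → σ)) := by
      apply MvPolynomial.algHom_ext
      intro t; simp
    exact congrFun (congrArg DFunLike.coe h7) a
  exact (injective_iff_map_eq_zero _).mp hT a h6

theorem height_ker_aeval_leA {σ κ : Type} [Finite σ] [Fintype κ] {K : Type} [Field K] [Algebra A K]
    (B : Subalgebra A K) (x : σ → K) (hB : B = Algebra.adjoin A (Set.range x))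
    (halg : Algebra.IsAlgebraic B K) [FaithfulSMul A K]
    (htr : (Nat.card σ : Cardinal.{0}) ≤ Algebra.trdeg A K + Fintype.card κ)
    (π : MvPolynomial σ A →ₐ[A] B) (hπx : ∀ g, ((π g : B) : K) = aeval x g) :
    (RingHom.ker (π : MvPolynomial σ A →+* B)).height ≤ ((Fintype.card κ : ℕ) : ℕ∞) := by
  classical
  subst hB
  obtain ⟨t, htx, ht⟩ := exists_isTranscendenceBasis_subset (R := A) (A := K) (Set.range x)
  choose g hg using fun z : t => htx z.2
  have hginj : Function.Injective g := by
    intro a b hab
    apply Subtype.ext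
    rw [← hg a, ← hg b, hab]
  let T : Set σ := Set.range g
  let e : t ≃ T := Equiv.ofInjective g hginj
  have hT : AlgebraicIndependent A (fun i : T => x (i : σ)) := by
    have h1 : (fun i : T => x (i : σ)) = (Subtype.val : t → K) ∘ e.symm := by
      funext i
      obtain ⟨z, rfl⟩ := e.surjective i
      rw [Function.comp_apply, Equiv.symm_apply_apply]
      exact hg z
    rw [h1]
    exact ht.1.comp _ e.symm.injective
  have hcardT : (Nat.card T : Cardinal.{0}) = Algebra.trdeg A K := by
    rw [← ht.cardinalMk_eq_trdeg, Nat.cast_card]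
    exact (Cardinal.mk_congr e).symm
  have hsplit : Nat.card σ = Nat.card T + Nat.card (Tᶜ : Set σ) := by
    rw [← Nat.card_sum]
    exact Nat.card_congr (Equiv.Set.sumCompl T).symm
  have hcompl : Nat.card (Tᶜ : Set σ) ≤ Fintype.card κ := by
    rw [← hcardT, hsplit] at htr
    have : Nat.card T + Nat.card (Tᶜ : Set σ) ≤ Nat.card T + Fintype.card κ := by exact_mod_cast htr
    omega
  have hTπ : AlgebraicIndependent A (fun i : T => π (X (i : σ))) := by
    have h1 : AlgebraicIndependent A
        (fun i : T => (Algebra.adjoin A (Set.range x)).val (π (X (i : σ)))) := by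
      have : (fun i : T => (Algebra.adjoin A (Set.range x)).val (π (X (i : σ)))) =
          fun i : T => x (i : σ) := by
        funext i
        show ((π (X (i : σ)) : Algebra.adjoin A (Set.range x)) : K) = x i
        rw [hπx, aeval_X]
      rw [this]; exact hT
    exact AlgebraicIndependent.of_comp (Algebra.adjoin A (Set.range x)).val h1
  exact (height_ker_leA π T hTπ).trans
    (show ((Nat.card (Tᶜ : Set σ) : ℕ) : ℕ∞) ≤ ((Fintype.card κ : ℕ) : ℕ∞) by exact_mod_cast hcompl)

end Height

/-- **Regularity at the centre of a valuation, from relations.** -/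
theorem isRegularLocalRing_vlocA [IsDomain A] [IsRegularRing A]
    (hA : Function.Surjective (Int.castRingHom A)) {σ κ : Type} [Finite σ] [Fintype κ]
    {K : Type} [Field K] [Algebra A K] [FaithfulSMul A K] (V : ValuationSubring K)
    [Algebra A (ResidueField V)] (z : σ → K) (hz : ∀ s, V.valuation (z s) ≤ 1)
    (halg : Algebra.IsAlgebraic (Algebra.adjoin A (Set.range z)) K)
    (f : κ → MvPolynomial σ A) (hf : ∀ k, aeval z (f k) = 0)
    (htr : (Nat.card σ : Cardinal.{0}) ≤ Algebra.trdeg A K + Fintype.card κ)
    (hind : IndepAt f (RingHom.ker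
      (aeval (fun s => resv V (z s)) : MvPolynomial σ A →ₐ[A] ResidueField V))) :
    IsRegularLocalRing (vloc V (Algebra.adjoin ℤ (Set.range z))) := by
  classical
  set B := Algebra.adjoin ℤ (Set.range z) with hB
  have hBV : ∀ x ∈ B, V.valuation x ≤ 1 := by
    apply adjoin_val_le
    rintro _ ⟨s, rfl⟩
    exact hz s
  have hmem : ∀ x, x ∈ Algebra.adjoin A (Set.range z) ↔ x ∈ B := by
    intro x
    constructor
    · intro hx
      induction hx using Algebra.adjoin_induction with
      | mem x hx => exact Algebra.subset_adjoin hx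
      | algebraMap r =>
        obtain ⟨n, hn⟩ := algebraMap_eq_intCast hA r
        rw [hn]
        exact intCast_mem B n
      | add x y _ _ hx hy => exact B.add_mem hx hy
      | mul x y _ _ hx hy => exact B.mul_mem hx hy
    · intro hx
      exact adjoin_le_of (R := (Algebra.adjoin A (Set.range z)).toSubring)
        (fun x hx => Algebra.subset_adjoin hx) x hx
  let B' := Algebra.adjoin A (Set.range z)
  let e : B' ≃+* B := 
    { toFun := fun x => ⟨x, (hmem _).mp x.2⟩
      invFun := fun x => ⟨x, (hmem _).mpr x.2⟩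
      left_inv := fun x => rfl
      right_inv := fun x => rfl
      map_mul' := fun x y => rfl
      map_add' := fun x y => rfl }
  let π : MvPolynomial σ A →ₐ[A] B' := aeval (fun i => ⟨z i, Algebra.subset_adjoin ⟨i, rfl⟩⟩)
  have hπx : ∀ g, ((π g : B') : K) = aeval z g := by
    intro g
    have : (B'.val.comp π) = aeval z := by
      apply MvPolynomial.algHom_ext
      intro i
      simp [π]
    exact congrFun (congrArg DFunLike.coe this) g
  have hπ : Function.Surjective π := by
    rintro ⟨w, hw⟩
    have hz' : w ∈ Algebra.adjoin A (Set.range z) := hw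
    rw [Algebra.adjoin_range_eq_range_aeval] at hz'
    obtain ⟨g, hg⟩ := hz'
    exact ⟨g, Subtype.ext ((hπx g).trans hg)⟩
  have hht := height_ker_aeval_leA (κ := κ) B' z rfl halg htr π hπx
  let π' : MvPolynomial σ A →+* B := (e : B' →+* B).comp (π : MvPolynomial σ A →+* B')
  have hπ' : Function.Surjective π' := e.surjective.comp hπ
  have hker : RingHom.ker π' = RingHom.ker (π : MvPolynomial σ A →+* B') := by
    ext g
    show e (π g) = 0 ↔ π g = 0
    rw [map_eq_zero_iff _ e.injective]
  let ε : Fin (Fintype.card κ) ≃ κ := (Fintype.equivFin κ).symm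
  have hf0 : ∀ k, π' (f k) = 0 := by
    intro k
    apply Subtype.ext
    exact (hπx (f k)).trans (hf k)
  have hnoeth : IsNoetherianRing B := isNoetherianRing_of_surjective _ _ π' hπ'
  let q := centre V B hBV
  have hq : q.IsPrime := centre_isPrime V B hBV
  have hcomap : q.comap π' = RingHom.ker
      (aeval (fun s => resv V (z s)) : MvPolynomial σ A →ₐ[A] ResidueField V) := by
    ext g
    have h1 := resv_aevalA hA z hz g
    show V.valuation ((π g : B') : K) < 1 ↔ aeval (fun s => resv V (z s)) g = 0
    rw [hπx, ← resv_eq_zero_iff h1.1, h1.2]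
  have hreg : IsRegularLocalRing (Localization.AtPrime q) := by
    refine isRegularLocalRing_of_surjective_pt π' hπ' (f ∘ ε) (fun k => hf0 _) ?_ q ?_
    · rw [hker]; exact hht
    · rw [hcomap]
      exact hind.comp_equiv ε
  obtain ⟨e⟩ := exists_equiv V B hBV q (fun x => Iff.rfl)
  exact IsRegularLocalRing.of_ringEquiv e

/-- Independence from linearly independent differentials. -/
theorem indepAt_of_linearA {σ κ : Type} [Fintype κ] {k : Type} [Field k] [Algebra A k] (y : σ → k)
    (f : κ → MvPolynomial σ A) (hf : ∀ i, aeval y (f i) = 0)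
    (hlin : ∀ a : κ → k, (∀ l, ∑ i, a i * aeval y (pderiv l (f i)) = 0) → ∀ i, a i = 0) :
    IndepAt f (RingHom.ker (aeval y : MvPolynomial σ A →ₐ[A] k)) := by
  classical
  set P := RingHom.ker (aeval y : MvPolynomial σ A →ₐ[A] k) with hP
  intro a t ht hmem
  have ht' : aeval y t ≠ 0 := ht
  have hzero : ∀ (h : MvPolynomial σ A), h ∈ P ^ 2 → ∀ l, aeval y (pderiv l h) = 0 := by
    intro h hh l
    rw [pow_two] at hh
    induction hh using Submodule.mul_induction_on' with
    | mem_mul_mem a ha b hb =>
      have ha' : aeval y a = 0 := ha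
      have hb' : aeval y b = 0 := hb
      rw [Derivation.leibniz, map_add, smul_eq_mul, smul_eq_mul, map_mul, map_mul, ha', hb']
      ring
    | add a _ b _ ha hb => rw [map_add, map_add, ha, hb, add_zero]
  have hder : ∀ l, ∑ i, aeval y (a i) * aeval y (pderiv l (f i)) = 0 := by
    intro l
    have h1 := hzero _ hmem l
    rw [Derivation.leibniz, map_add, smul_eq_mul, smul_eq_mul, map_mul, map_mul] at h1
    have h2 : aeval y (∑ i, a i * f i) = 0 := by
      rw [map_sum]
      refine Finset.sum_eq_zero fun i _ => ?_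
      rw [map_mul, hf, mul_zero]
    rw [h2, zero_mul, add_zero, map_sum, map_sum] at h1
    have h3 := (mul_eq_zero.mp h1).resolve_left ht'
    rw [← h3]
    refine Finset.sum_congr rfl fun i _ => ?_
    rw [Derivation.leibniz, map_add, smul_eq_mul, smul_eq_mul, map_mul, map_mul, hf, zero_mul,
      add_zero]
  exact hlin _ hder

end Pool.Agent.H96.W
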