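import Pool.Agent.H96.W.CRes
import Pool.Agent.H96.W.RegA

/-!
# Presentations of the places of a curve
-/

set_option autoImplicit false
set_option linter.unusedSectionVars false

namespace Pool.Agent.H96.W

open MvPolynomial IsLocalRing Pool.Agent.H96.VL

variable {p : ℕ} [Fact p.Prime]

theorem zmod_surj (p : ℕ) : Function.Surjective (Int.castRingHom (ZMod p)) :=
  ZMod.ringHom_surjective _

/-- The algebra structure on the residue field. -/
noncomputable def resHom {K : Type} [Field K] [Algebra (ZMod p) K] (V : ValuationSubring K) :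
    ZMod p →+* ResidueField V :=
  (residue V).comp ((algebraMap (ZMod p) K).codRestrict V.toSubring (by
    intro a
    obtain ⟨n, hn⟩ := algebraMap_eq_intCast (zmod_surj p) a
    rw [hn]
    exact intCast_mem V n))

/-- A presentation of the valuation ring `W`. -/
structure Pres {F : Type} [Field F] [Algebra (ZMod p) F] (W : ValuationSubring F) (n : ℕ)
    (y : Fin (n + 1) → F) (G : Fin (n + 1) → MvPolynomial (Fin (n + 1)) (ZMod p))
    (l : Fin (n + 1)) : Prop where
  vy : ∀ b, W.valuation (y b) ≤ 1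
  gen : ∀ w, W.valuation w ≤ 1 → ∃ a s : MvPolynomial (Fin (n + 1)) (ZMod p),
    W.valuation (aeval y s) = 1 ∧ w = aeval y a / aeval y s
  G0 : G 0 = X l
  rel : ∀ i : Fin n, aeval y (G i.succ) = 0
  det : W.valuation (aeval y (Matrix.of fun i l => pderiv l (G i)).det) = 1

variable {R F : Type} [CommRing R] [IsDedekindDomain R] [Field F]
  [Algebra R F] [IsFractionRing R F] [Algebra (ZMod p) R] [Algebra.FiniteType (ZMod p) R]
  [Algebra (ZMod p) F] [IsScalarTower (ZMod p) R F]

theorem exists_poly {N : ℕ} {y : Fin N → F} {S : Finset R} (hS : Algebra.adjoin (ZMod p) (S : Set R) = ⊤)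
    (hy : ∀ g ∈ S, ∃ b, y b = algebraMap R F g) (a : R) :
    ∃ P : MvPolynomial (Fin N) (ZMod p), aeval y P = algebraMap R F a := by
  have ha : a ∈ Algebra.adjoin (ZMod p) (S : Set R) := by rw [hS]; trivial
  induction ha using Algebra.adjoin_induction with
  | mem x hx =>
    obtain ⟨b, hb⟩ := hy x hx
    exact ⟨X b, by rw [aeval_X, hb]⟩
  | algebraMap r => exact ⟨C r, by rw [aeval_C, ← IsScalarTower.algebraMap_apply]⟩
  | add u v _ _ hu hv =>
    obtain ⟨P, hP⟩ := hu
    obtain ⟨Q, hQ⟩ := hv
    exact ⟨P + Q, by rw [map_add, map_add, hP, hQ]⟩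
  | mul u v _ _ hu hv =>
    obtain ⟨P, hP⟩ := hu
    obtain ⟨Q, hQ⟩ := hv
    exact ⟨P * Q, by rw [map_mul, map_mul, hP, hQ]⟩

theorem exists_pres {W : ValuationSubring F} (hW : Le R W) (hq : cen W hW ≠ ⊥) {t : F}
    (ht : Unif W t) (E : Finset F) (hE : ∀ e ∈ E, W.valuation e ≤ 1) :
    ∃ (n : ℕ) (y : Fin (n + 1) → F) (G : Fin (n + 1) → MvPolynomial (Fin (n + 1)) (ZMod p))
      (l : Fin (n + 1)), Pres W n y G l ∧ (∀ e ∈ E, ∃ b, y b = e) ∧ y l = t := by
  classical
  obtain ⟨S, hS⟩ := (Algebra.FiniteType.out : (⊤ : Subalgebra (ZMod p) R).FG)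
  set E' : Finset F := insert t (E ∪ S.image (algebraMap R F)) with hE'
  have htE' : t ∈ E' := Finset.mem_insert_self _ _
  obtain ⟨n, hn⟩ : ∃ n, E'.card = n + 1 :=
    Nat.exists_eq_succ_of_ne_zero (Finset.card_ne_zero_of_mem htE')
  let ε : Fin (n + 1) ≃ E' := ((Fintype.equivFin E').trans (finCongr (by
    rw [Fintype.card_coe, hn]))).symm
  let y : Fin (n + 1) → F := fun b => (ε b : F)
  have hyE : ∀ e ∈ E', ∃ b, y b = e := fun e he => ⟨ε.symm ⟨e, he⟩, by simp [y]⟩
  obtain ⟨l₀, hl₀⟩ := hyE t htE'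
  have hvy : ∀ b, W.valuation (y b) ≤ 1 := by
    intro b
    have h1 : y b ∈ E' := (ε b).2
    rw [hE', Finset.mem_insert, Finset.mem_union, Finset.mem_image] at h1
    rcases h1 with h1 | h1 | ⟨g, -, h1⟩
    · rw [h1]; exact ht.lt.le
    · exact hE _ h1
    · rw [← h1]; exact hW g
  have hpoly := exists_poly (p := p) (y := y) hS fun g hg => hyE _ (by
    rw [hE', Finset.mem_insert, Finset.mem_union]
    exact Or.inr (Or.inr (Finset.mem_image_of_mem _ hg)))
  have hgen : ∀ w, W.valuation w ≤ 1 → ∃ a s : MvPolynomial (Fin (n + 1)) (ZMod p),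
      W.valuation (aeval y s) = 1 ∧ w = aeval y a / aeval y s := by
    intro w hw
    obtain ⟨a, s, hs, hwa⟩ := exists_frac hW hw
    obtain ⟨P, hP⟩ := hpoly a
    obtain ⟨Q, hQ⟩ := hpoly s
    exact ⟨P, Q, by rw [hQ, hs], by rw [hP, hQ, hwa]⟩
  let alg : Algebra (ZMod p) (ResidueField W) := (resHom W).toAlgebra
  set yb : Fin (n + 1) → ResidueField W := fun b => resv W (y b) with hyb
  have hres : ∀ P : MvPolynomial (Fin (n + 1)) (ZMod p), aeval yb P = resv W (aeval y P) :=
    fun P => ((resv_aevalA (zmod_surj p) y hvy P).2).symm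
  have hvP : ∀ P : MvPolynomial (Fin (n + 1)) (ZMod p), W.valuation (aeval y P) ≤ 1 :=
    fun P => (resv_aevalA (zmod_surj p) y hvy P).1
  let D : MvPolynomial (Fin (n + 1)) (ZMod p) → Fin (n + 1) → ResidueField W :=
    fun g l => aeval yb (pderiv l g)
  have hDmul : ∀ f g, D (f * g) = aeval yb f • D g + aeval yb g • D f := by
    intro f g
    funext l
    show aeval yb (pderiv l (f * g)) = aeval yb f * aeval yb (pderiv l g) +
      aeval yb g * aeval yb (pderiv l f)
    rw [pderiv_mul, map_add, map_mul, map_mul]; ring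
  have hDsub : ∀ f g, D (f - g) = D f - D g := by
    intro f g
    funext l
    show aeval yb (pderiv l (f - g)) = aeval yb (pderiv l f) - aeval yb (pderiv l g)
    rw [map_sub, map_sub]
  have hDX : ∀ b, D (X b) = Pi.single b 1 := by
    intro b
    funext l
    show aeval yb (pderiv l (X b)) = (Pi.single b (1 : ResidueField W) :
      Fin (n + 1) → ResidueField W) l
    rw [pderiv_X, Pi.single_apply, Pi.single_apply]
    by_cases h : l = b
    · subst h; simp
    · rw [if_neg h, if_neg (Ne.symm h), map_zero]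
  have htb : aeval yb (X l₀ : MvPolynomial (Fin (n + 1)) (ZMod p)) = 0 := by
    rw [hres, aeval_X, hl₀]
    exact (resv_eq_zero_iff ht.lt.le).mpr ht.lt
  set s : Set (Fin (n + 1) → ResidueField W) := {Pi.single l₀ 1} with hs
  set T : Set (Fin (n + 1) → ResidueField W) :=
    s ∪ {v | ∃ g, aeval y g = 0 ∧ D g = v} with hT
  obtain ⟨Q, hpQ, hQ0, hQ⟩ := exists_card_W (p := p) hW hq
  have hpκ : ((p : ℕ) : ResidueField W) = 0 := by
    have h1 : algebraMap (ZMod p) (ResidueField W) (p : ZMod p) = 0 := by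
      rw [ZMod.natCast_self, map_zero]
    rwa [map_natCast] at h1
  have hQκ : ((Q : ℕ) : ResidueField W) = 0 := by
    obtain ⟨c, rfl⟩ := hpQ
    rw [Nat.cast_mul, hpκ, zero_mul]
  have hspan : ∀ b, (Pi.single b 1 : Fin (n + 1) → ResidueField W) ∈
      Submodule.span (ResidueField W) T := by
    intro b
    have h1 := hQ (y b) (hvy b)
    have h2 : W.valuation ((y b ^ Q - y b) / t) ≤ 1 := by
      rw [map_div₀]
      have hvt : 0 < W.valuation t := by rw [Valuation.pos_iff]; exact ht.t0
      exact (div_le_one₀ hvt).mpr (ht.max _ h1)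
    obtain ⟨a, u, hu, hau⟩ := hgen _ h2
    have hu0 : aeval y u ≠ 0 := by
      intro h0
      rw [h0, map_zero] at hu
      exact zero_ne_one hu
    have hub : aeval yb u ≠ 0 := by
      rw [hres, resv_ne_zero_iff (hvP u)]
      exact hu
    have hker : aeval y (u * (X b ^ Q - X b) - X l₀ * a) = 0 := by
      rw [map_sub, map_mul, map_mul, map_sub, map_pow, aeval_X, aeval_X, hl₀]
      have h3 := ht.t0
      rw [div_eq_div_iff h3 hu0] at hau
      linear_combination hau
    have he0 : aeval yb (X b ^ Q - X b : MvPolynomial (Fin (n + 1)) (ZMod p)) = 0 := by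
      rw [hres, map_sub, map_pow, aeval_X]
      exact (resv_eq_zero_iff h1.le).mpr h1
    have hDe : D (X b ^ Q - X b) = -Pi.single b 1 := by
      rw [hDsub, hDX]
      have h3 : D (X b ^ Q) = 0 := by
        funext l
        show aeval yb (pderiv l (X b ^ Q)) = 0
        rw [pderiv_pow, map_mul, map_mul, map_natCast, hQκ, zero_mul, zero_mul]
      rw [h3, zero_sub]
    have h4 : D (u * (X b ^ Q - X b) - X l₀ * a) =
        -(aeval yb u • Pi.single b 1) - aeval yb a • Pi.single l₀ 1 := by
      rw [hDsub, hDmul, hDmul, he0, htb, hDe, hDX, zero_smul, zero_smul, add_zero, zero_add,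
        smul_neg]
    have h5 : (Pi.single b 1 : Fin (n + 1) → ResidueField W) =
        (aeval yb u)⁻¹ • (-(D (u * (X b ^ Q - X b) - X l₀ * a)) -
          aeval yb a • Pi.single l₀ 1) := by
      rw [h4]
      have : -(-(aeval yb u • (Pi.single b 1 : Fin (n + 1) → ResidueField W)) -
          aeval yb a • Pi.single l₀ 1) - aeval yb a • Pi.single l₀ 1 =
          aeval yb u • Pi.single b 1 := by abel
      rw [this, smul_smul, inv_mul_cancel₀ hub, one_smul]
    rw [h5]
    refine Submodule.smul_mem _ _ (Submodule.sub_mem _ (Submodule.neg_mem _ ?_)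
      (Submodule.smul_mem _ _ ?_))
    · exact Submodule.subset_span (Or.inr ⟨_, hker, rfl⟩)
    · exact Submodule.subset_span (Or.inl rfl)
  have hspanT : Submodule.span (ResidueField W) T = ⊤ := by
    rw [eq_top_iff]
    intro v _
    have h1 : v = ∑ b, v b • (Pi.single b 1 : Fin (n + 1) → ResidueField W) := by
      funext l
      rw [Finset.sum_apply, Finset.sum_eq_single l]
      · simp
      · intro b _ hb
        rw [Pi.smul_apply, Pi.single_eq_of_ne (Ne.symm hb), smul_zero]
      · intro h; exact absurd (Finset.mem_univ _) h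
    rw [h1]
    exact Submodule.sum_mem _ fun b _ => Submodule.smul_mem _ _ (hspan b)
  have hsLI : LinearIndepOn (ResidueField W) id s := by
    rw [hs]
    apply LinearIndepOn.singleton
    intro h0
    have := congrFun h0 l₀
    simp at this
  obtain ⟨B, hBT, hsB, hTB, hBLI⟩ := exists_linearIndepOn_id_extension hsLI
    (show s ⊆ T from Set.subset_union_left)
  have hBspan : Submodule.span (ResidueField W) B = ⊤ := by
    rw [eq_top_iff, ← hspanT, Submodule.span_le]
    exact hTB
  let bas : Module.Basis B (ResidueField W) (Fin (n + 1) → ResidueField W) :=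
    Module.Basis.mk (v := ((↑) : B → Fin (n + 1) → ResidueField W)) hBLI (by
      rw [Subtype.range_coe, hBspan])
  have hBfin : Finite B := by
    have := Module.Finite.finite_basis bas
    exact this
  let _ : Fintype B := Fintype.ofFinite B
  have hcard : Fintype.card B = n + 1 := by
    have := Module.finrank_eq_card_basis bas
    rw [Module.finrank_fin_fun] at this
    exact this.symm
  have hl₀B : (Pi.single l₀ 1 : Fin (n + 1) → ResidueField W) ∈ B := hsB rfl
  let e0 : Fin (n + 1) ≃ B := ((Fintype.equivFin B).trans (finCongr hcard)).symm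
  let e : Fin (n + 1) ≃ B := (Equiv.swap 0 (e0.symm ⟨_, hl₀B⟩)).trans e0
  have he0 : (e 0 : Fin (n + 1) → ResidueField W) = Pi.single l₀ 1 := by
    show ((e0 (Equiv.swap 0 (e0.symm ⟨_, hl₀B⟩) 0) : B) : Fin (n + 1) → ResidueField W) = _
    rw [Equiv.swap_apply_left, Equiv.apply_symm_apply]
  have hex : ∀ i : Fin n, ∃ g, aeval y g = 0 ∧ D g = (e i.succ : Fin (n + 1) → ResidueField W) := by
    intro i
    rcases hBT (e i.succ).2 with h1 | h1
    · exfalso
      have h2 : (e i.succ : Fin (n + 1) → ResidueField W) = Pi.single l₀ 1 := h1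
      rw [← he0] at h2
      have h3 := e.injective (Subtype.ext h2)
      exact Fin.succ_ne_zero i h3
    · exact h1
  choose g hg1 hg2 using hex
  let G : Fin (n + 1) → MvPolynomial (Fin (n + 1)) (ZMod p) := Fin.cons (X l₀) g
  have hGD : ∀ i, D (G i) = (e i : Fin (n + 1) → ResidueField W) := by
    intro i
    refine Fin.cases ?_ (fun i => ?_) i
    · show D (X l₀) = _
      rw [hDX, he0]
    · show D (g i) = _
      exact hg2 i
  refine ⟨n, y, G, l₀, ⟨hvy, hgen, rfl, fun i => hg1 i, ?_⟩, fun e he => hyE e (by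
    rw [hE', Finset.mem_insert, Finset.mem_union]; exact Or.inr (Or.inl he)), hl₀⟩
  -- the determinant
  have hM : IsUnit (Matrix.of fun i l => (e i : Fin (n + 1) → ResidueField W) l) := by
    rw [← Matrix.linearIndependent_rows_iff_isUnit]
    exact hBLI.comp e e.injective
  have hdet : aeval yb (Matrix.of fun i l => pderiv l (G i)).det =
      (Matrix.of fun i l => (e i : Fin (n + 1) → ResidueField W) l).det := by
    have h1 := RingHom.map_det (aeval yb : MvPolynomial (Fin (n + 1)) (ZMod p) →ₐ[ZMod p] _).toRingHom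
      (Matrix.of fun i l => pderiv l (G i))
    refine h1.trans ?_
    congr 1
    ext i l
    exact congrFun (hGD i) l
  have h2 : aeval yb (Matrix.of fun i l => pderiv l (G i)).det ≠ 0 := by
    rw [hdet]
    exact ((Matrix.isUnit_iff_isUnit_det _).mp hM).ne_zero
  rw [hres, resv_ne_zero_iff (hvP _)] at h2
  exact h2

end Pool.Agent.H96.W
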