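import Pool.Agent.H96.W.CTools

/-!
# Residue fields of the places of a curve over the prime field
-/

set_option autoImplicit false
set_option linter.unusedSectionVars false

namespace Pool.Agent.H96.W

variable {p : ℕ} [Fact p.Prime] {R F : Type} [CommRing R] [IsDedekindDomain R] [Field F]
  [Algebra R F] [IsFractionRing R F] [Algebra (ZMod p) R] [Algebra.FiniteType (ZMod p) R]

theorem finite_quot (p : ℕ) [Fact p.Prime] {R : Type} [CommRing R] [Algebra (ZMod p) R]
    [Algebra.FiniteType (ZMod p) R] (q : Ideal R) (hq : q.IsMaximal) : Finite (R ⧸ q) := by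
  let _ : Field (R ⧸ q) := Ideal.Quotient.field q
  have : Algebra.FiniteType (ZMod p) (R ⧸ q) := inferInstance
  have h : Module.Finite (ZMod p) (R ⧸ q) := finite_of_finite_type_of_isJacobsonRing (ZMod p) (R ⧸ q)
  exact Module.finite_of_finite (ZMod p)

theorem charP_quot (q : Ideal R) (hq : q.IsMaximal) : CharP (R ⧸ q) p := by
  let _ : Field (R ⧸ q) := Ideal.Quotient.field q
  exact charP_of_injective_algebraMap (algebraMap (ZMod p) (R ⧸ q)).injective p

theorem perfect_res (q : Ideal R) (hq : q.IsMaximal) (u : R) : ∃ a : R, a ^ p - u ∈ q := by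
  let _ : Field (R ⧸ q) := Ideal.Quotient.field q
  have hfin := finite_quot p q hq
  have hc := charP_quot (p := p) q hq
  have : ExpChar (R ⧸ q) p := .prime Fact.out
  have hinj : Function.Injective (frobenius (R ⧸ q) p) := (frobenius (R ⧸ q) p).injective
  have hsurj : Function.Surjective (frobenius (R ⧸ q) p) := Finite.injective_iff_surjective.mp hinj
  obtain ⟨b, hb⟩ := hsurj (Ideal.Quotient.mk q u)
  obtain ⟨a, rfl⟩ := Ideal.Quotient.mk_surjective b
  refine ⟨a, ?_⟩
  rw [← Ideal.Quotient.eq_zero_iff_mem, map_sub, map_pow, ← hb, frobenius_def, sub_self]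

theorem exists_card (q : Ideal R) (hq : q.IsMaximal) :
    ∃ Q : ℕ, p ∣ Q ∧ 0 < Q ∧ ∀ u : R, u ^ Q - u ∈ q := by
  let _ : Field (R ⧸ q) := Ideal.Quotient.field q
  have hfin := finite_quot p q hq
  have hc := charP_quot (p := p) q hq
  let _ : Fintype (R ⧸ q) := Fintype.ofFinite _
  refine ⟨Fintype.card (R ⧸ q), ?_, Fintype.card_pos, fun u => ?_⟩
  · rw [← CharP.cast_eq_zero_iff (R ⧸ q) p]
    exact FiniteField.cast_card_eq_zero (R ⧸ q)
  · rw [← Ideal.Quotient.eq_zero_iff_mem, map_sub, map_pow, FiniteField.pow_card, sub_self]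

theorem exists_card_W {W : ValuationSubring F} (hW : Le R W) (hq : cen W hW ≠ ⊥) :
    ∃ Q : ℕ, p ∣ Q ∧ 0 < Q ∧ ∀ w, W.valuation w ≤ 1 → W.valuation (w ^ Q - w) < 1 := by
  have hqm : (cen W hW).IsMaximal := (cen_isPrime hW).isMaximal hq
  obtain ⟨Q, h1, h2, h3⟩ := exists_card (p := p) _ hqm
  refine ⟨Q, h1, h2, fun w hw => ?_⟩
  obtain ⟨a, s, hs, rfl⟩ := exists_frac hW hw
  have hs0 : algebraMap R F s ≠ 0 := by
    intro h0
    rw [h0, map_zero] at hs
    exact zero_ne_one hs
  have h4 : (algebraMap R F a / algebraMap R F s) ^ Q - algebraMap R F a / algebraMap R F s =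
      algebraMap R F ((a ^ Q - a) * s - a * (s ^ Q - s)) / (algebraMap R F s) ^ (Q + 1) := by
    rw [map_sub, map_mul, map_mul, map_sub, map_sub, map_pow, map_pow, div_pow, pow_succ]
    field_simp
    ring
  rw [h4, map_div₀, map_pow, hs, one_pow, div_one]
  exact (cen W hW).sub_mem ((cen W hW).mul_mem_right _ (h3 a)) ((cen W hW).mul_mem_left _ (h3 s))

/-- There is a nontrivial place at which finitely many functions are integral. -/
theorem exists_nontrivial (p : ℕ) [Fact p.Prime] {R F : Type} [CommRing R] [IsDedekindDomain R]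
    [Field F] [Algebra R F] [IsFractionRing R F] [Algebra (ZMod p) R]
    [Algebra.FiniteType (ZMod p) R] (hnf : ¬ IsField R) (E : Finset F) :
    ∃ (W : ValuationSubring F) (hW : Le R W), cen W hW ≠ ⊥ ∧ ∀ e ∈ E, W.valuation e ≤ 1 := by
  classical
  have hden : ∀ e : F, ∃ s : R, s ≠ 0 ∧ ∃ a, algebraMap R F s * e = algebraMap R F a := by
    intro e
    obtain ⟨a, b, hb, rfl⟩ := IsFractionRing.div_surjective (A := R) e
    have hb0 : b ≠ 0 := nonZeroDivisors.ne_zero hb
    have hb0' := algebraMap_ne_zero (F := F) hb0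
    exact ⟨b, hb0, a, by field_simp⟩
  choose s hs0 a ha using hden
  have hprod : ∏ e ∈ E, s e ≠ 0 := Finset.prod_ne_zero_iff.mpr fun e _ => hs0 e
  have hjac : IsJacobsonRing R := isJacobsonRing_of_finiteType (A := ZMod p)
  have h1 : ∏ e ∈ E, s e ∉ (⊥ : Ideal R).jacobson := by
    rw [hjac.out (Ideal.isPrime_bot (α := R)).isRadical]
    exact hprod
  rw [Ideal.jacobson, Ideal.mem_sInf] at h1
  push Not at h1
  obtain ⟨q, ⟨-, hqm⟩, hsq⟩ := h1
  obtain ⟨W, hW, hcen⟩ := exists_W (F := F) q hqm.isPrime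
  refine ⟨W, hW, ?_, fun e he => ?_⟩
  · rw [hcen]
    exact Ring.ne_bot_of_isMaximal_of_not_isField hqm hnf
  · have h2 : s e ∉ cen W hW := by
      rw [hcen]
      intro h3
      apply hsq
      rw [← Finset.mul_prod_erase E s he]
      exact q.mul_mem_right _ h3
    have h3 := congrArg W.valuation (ha e)
    rw [map_mul, val_eq_one h2, one_mul] at h3
    rw [h3]
    exact hW _

end Pool.Agent.H96.W
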