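import Pool.Agent.H96.W.CGauge

/-!
# More on places: finite sets of uniformizers, bounds, denominators
-/

set_option autoImplicit false
set_option linter.unusedSectionVars false

namespace Pool.Agent.H96.W

variable {R F : Type} [CommRing R] [IsDedekindDomain R] [Field F] [Algebra R F] [IsFractionRing R F]
  {W : ValuationSubring F}

theorem val_le_of_span {hW : Le R W} {G : Finset R} {g₀ : R}
    (hmax : ∀ g ∈ G, W.valuation (algebraMap R F g) ≤ W.valuation (algebraMap R F g₀)) {a : R}
    (ha : a ∈ Ideal.span (G : Set R)) :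
    W.valuation (algebraMap R F a) ≤ W.valuation (algebraMap R F g₀) := by
  induction ha using Submodule.span_induction with
  | mem g hg => exact hmax g hg
  | zero => rw [map_zero, map_zero]; exact zero_le
  | add u v _ _ hu hv => rw [map_add]; exact (W.valuation.map_add _ _).trans (max_le hu hv)
  | smul c u _ hu =>
    rw [smul_eq_mul, map_mul, map_mul]
    calc W.valuation (algebraMap R F c) * W.valuation (algebraMap R F u) ≤
          1 * W.valuation (algebraMap R F g₀) := mul_le_mul' (hW c) hu
      _ = _ := one_mul _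

/-- A finite set which generates the maximal ideal exactly at the places where `b` vanishes. -/
theorem exists_unif_set (b : R) (hb : b ≠ 0) : ∃ G : Finset R, (∀ g ∈ G, g ≠ 0) ∧
    ∀ W : ValuationSubring F, Le R W →
      ∃ g ∈ G, (∀ g' ∈ G, W.valuation (algebraMap R F g') ≤ W.valuation (algebraMap R F g)) ∧
        ((W.valuation (algebraMap R F b) = 1 ∧ W.valuation (algebraMap R F g) = 1) ∨
         (W.valuation (algebraMap R F b) < 1 ∧ Unif W (algebraMap R F g))) := by
  classical
  set S := (UniqueFactorizationMonoid.normalizedFactors (Ideal.span {b})).toFinset with hS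
  set J : Ideal R := ∏ P ∈ S, P with hJ
  have hspan : Ideal.span {b} ≠ 0 := by
    rw [Ne, Ideal.zero_eq_bot, Ideal.span_singleton_eq_bot]
    exact hb
  have hSmem : ∀ P, P ∈ S → P.IsPrime ∧ b ∈ P := by
    intro P hP
    rw [hS, Multiset.mem_toFinset] at hP
    have h1 := UniqueFactorizationMonoid.prime_of_normalized_factor P hP
    refine ⟨Ideal.isPrime_of_prime h1, ?_⟩
    have h2 := UniqueFactorizationMonoid.dvd_of_mem_normalizedFactors hP
    rw [Ideal.dvd_span_singleton] at h2
    exact h2
  obtain ⟨G0, hG0⟩ := (IsNoetherian.noetherian J : J.FG)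
  set G := G0.erase 0 with hG
  have hGspan : Ideal.span (G : Set R) = J := by
    rw [hG, Finset.coe_erase, Ideal.span, Submodule.span_sdiff_singleton_zero]
    exact hG0
  refine ⟨G, fun g hg => Finset.ne_of_mem_erase hg, fun W hW => ?_⟩
  have hqp := cen_isPrime hW
  -- the largest generator
  have hJ0 : J ≠ ⊥ := by
    rw [hJ, Ne, ← Ideal.zero_eq_bot, Finset.prod_eq_zero_iff]
    rintro ⟨P, hP, hP0⟩
    have h1 := (hSmem P hP).2
    rw [hP0] at h1
    exact hb h1
  have hGne : G.Nonempty := by
    rw [Finset.nonempty_iff_ne_empty]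
    intro h0
    rw [h0, Finset.coe_empty, Ideal.span_empty] at hGspan
    exact hJ0 hGspan.symm
  obtain ⟨g, hg, hgmax⟩ := Finset.exists_max_image G (fun g => W.valuation (algebraMap R F g)) hGne
  refine ⟨g, hg, hgmax, ?_⟩
  have hle : ∀ a ∈ J, W.valuation (algebraMap R F a) ≤ W.valuation (algebraMap R F g) := by
    intro a ha
    rw [← hGspan] at ha
    exact val_le_of_span (hW := hW) hgmax ha
  by_cases hbq : b ∈ cen W hW
  · right
    refine ⟨hbq, ?_⟩
    have hq0 : cen W hW ≠ ⊥ := by
      intro h0
      rw [h0] at hbq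
      exact hb hbq
    have hqS : cen W hW ∈ S := by
      rw [hS, Multiset.mem_toFinset, UniqueFactorizationMonoid.mem_normalizedFactors_iff hspan]
      exact ⟨Ideal.prime_of_isPrime hq0 hqp, Ideal.dvd_span_singleton.mpr hbq⟩
    have hJq : J = cen W hW * ∏ P ∈ S.erase (cen W hW), P := by
      rw [hJ, Finset.mul_prod_erase S (fun P => P) hqS]
    have hne : ¬ ∏ P ∈ S.erase (cen W hW), P ≤ cen W hW := by
      intro hle
      obtain ⟨P, hP, hPle⟩ := (Ideal.IsPrime.prod_le hqp).mp hle
      have hP1 := hSmem P (Finset.mem_of_mem_erase hP)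
      have hPm : P.IsMaximal := hP1.1.isMaximal (by
        intro h0
        rw [h0] at hP1
        exact hb hP1.2)
      exact Finset.ne_of_mem_erase hP (hPm.eq_of_le hqp.ne_top hPle)
    obtain ⟨s, hs, hsq⟩ := SetLike.not_le_iff_exists.mp hne
    have hgJ : g ∈ J := by
      rw [← hGspan]; exact Ideal.subset_span hg
    refine ⟨?_, algebraMap_ne_zero (Finset.ne_of_mem_erase hg), fun w hw => ?_⟩
    · have h1 : J ≤ cen W hW := by rw [hJq]; exact Ideal.mul_le_left
      exact h1 hgJ
    · obtain ⟨a, s', hs1, rfl⟩ := exists_frac hW hw.le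
      rw [map_div₀, hs1, div_one] at hw ⊢
      have h1 : a * s ∈ J := by rw [hJq]; exact Ideal.mul_mem_mul hw hs
      have h2 := hle _ h1
      rwa [map_mul, map_mul, val_eq_one hsq, mul_one] at h2
  · left
    refine ⟨val_eq_one hbq, le_antisymm (hW g) ?_⟩
    have hne : ¬ J ≤ cen W hW := by
      intro hle
      obtain ⟨P, hP, hPle⟩ := (Ideal.IsPrime.prod_le hqp).mp hle
      exact hbq (hPle (hSmem P hP).2)
    obtain ⟨s, hs, hsq⟩ := SetLike.not_le_iff_exists.mp hne
    rw [← val_eq_one hsq]
    exact hle s hs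

/-- The orders of poles are bounded. -/
theorem exists_bound (f : F) : ∃ M : ℕ, ∀ W : ValuationSubring F, Le R W → ∀ t, Unif W t →
    ∀ m, W.valuation (f * t ^ m) = 1 → m ≤ M := by
  classical
  obtain ⟨a, b, hb, rfl⟩ := IsFractionRing.div_surjective (A := R) f
  have hb0 : b ≠ 0 := nonZeroDivisors.ne_zero hb
  have hspan : Ideal.span {b} ≠ 0 := by
    rw [Ne, Ideal.zero_eq_bot, Ideal.span_singleton_eq_bot]
    exact hb0
  refine ⟨Multiset.card (UniqueFactorizationMonoid.normalizedFactors (Ideal.span {b})),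
    fun W hW t ht m hm => ?_⟩
  have hvt : 0 < W.valuation t := by rw [Valuation.pos_iff]; exact ht.t0
  have hvb : W.valuation (algebraMap R F b) ≤ W.valuation t ^ m := by
    have hb' := algebraMap_ne_zero (F := F) hb0
    have h1 : algebraMap R F a * t ^ m = (algebraMap R F a / algebraMap R F b * t ^ m) *
        algebraMap R F b := by field_simp
    have h2 := congrArg W.valuation h1
    rw [map_mul W.valuation _ (algebraMap R F b), hm, one_mul, map_mul, map_pow] at h2
    rw [← h2]
    calc W.valuation (algebraMap R F a) * W.valuation t ^ m ≤ 1 * W.valuation t ^ m :=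
          mul_le_mul' (hW a) le_rfl
      _ = _ := one_mul _
  rcases Nat.eq_zero_or_pos m with rfl | hm0
  · exact Nat.zero_le _
  have hlt : W.valuation t ^ m < 1 := pow_lt_one₀ zero_le ht.lt (by omega)
  have hbq : b ∈ cen W hW := hvb.trans_lt hlt
  have hq0 : cen W hW ≠ ⊥ := by
    intro h0
    rw [h0] at hbq
    exact hb0 hbq
  obtain ⟨t', ht'⟩ := exists_place hW hq0
  have htt : W.valuation t = W.valuation (algebraMap R F t') :=
    le_antisymm (ht'.max _ ht.lt) (ht.max _ ht'.lt)
  rw [htt] at hvb
  have h1 : b ∈ (cen W hW) ^ m := mem_pow_of_val ht' hvb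
  have h2 : (cen W hW) ^ m ∣ Ideal.span {b} := Ideal.dvd_span_singleton.mpr h1
  have hprime : Prime (cen W hW) := Ideal.prime_of_isPrime hq0 (cen_isPrime hW)
  have h3 := (UniqueFactorizationMonoid.dvd_iff_normalizedFactors_le_normalizedFactors
    (pow_ne_zero m hprime.ne_zero) hspan).mp h2
  have h4 := Multiset.card_le_card h3
  rw [UniqueFactorizationMonoid.normalizedFactors_pow,
    UniqueFactorizationMonoid.normalizedFactors_irreducible hprime.irreducible, normalize_eq,
    Multiset.card_nsmul, Multiset.card_singleton, mul_one] at h4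
  exact h4

/-- Every prime ideal is a centre. -/
theorem exists_W (q : Ideal R) (hq : q.IsPrime) :
    ∃ (W : ValuationSubring F) (hW : Le R W), cen W hW = q := by
  have hunit : ∀ y : q.primeCompl, IsUnit (algebraMap R F (y : R)) := by
    rintro ⟨y, hy⟩
    rw [isUnit_iff_ne_zero]
    intro h0
    apply hy
    show y ∈ q
    have : y = 0 := (map_eq_zero_iff _ (IsFractionRing.injective R F)).mp h0
    rw [this]; exact q.zero_mem
  let φ : Localization.AtPrime q →+* F := IsLocalization.lift (M := q.primeCompl) hunit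
  have hφ : ∀ a : R, φ (algebraMap R _ a) = algebraMap R F a := fun a => IsLocalization.lift_eq hunit a
  obtain ⟨W, hWr, hloc⟩ := IsLocalRing.exists_factor_valuationRing φ
  have hW : Le R W := by
    intro a
    rw [ValuationSubring.valuation_le_one_iff]
    have h1 := hWr (algebraMap R _ a)
    rw [hφ] at h1
    exact h1
  refine ⟨W, hW, ?_⟩
  ext a
  rw [mem_cen]
  have h1 : a ∈ q ↔ ¬ IsUnit (algebraMap R (Localization.AtPrime q) a) := by
    rw [IsLocalization.AtPrime.isUnit_to_map_iff (Localization.AtPrime q) q a]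
    show a ∈ q ↔ ¬ (a ∉ q)
    rw [not_not]
  have h2 : IsUnit (algebraMap R (Localization.AtPrime q) a) ↔
      IsUnit (φ.codRestrict W.toSubring hWr (algebraMap R _ a)) :=
    ⟨fun h => h.map _, fun h => hloc.map_nonunit _ h⟩
  rw [h1, h2]
  have haW : algebraMap R F a ∈ W := (W.valuation_le_one_iff _).mp (hW a)
  have h3 : φ.codRestrict W.toSubring hWr (algebraMap R _ a) = (⟨algebraMap R F a, haW⟩ : W) :=
    Subtype.ext (hφ a)
  rw [h3]
  have h4 := W.valuation_lt_one_iff (⟨algebraMap R F a, haW⟩ : W)
  rw [IsLocalRing.mem_maximalIdeal, mem_nonunits_iff] at h4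
  exact h4.symm

/-- Functions without poles outside the zeros of `b`. -/
theorem exists_pow_den (b : R) (h : F)
    (hh : ∀ W : ValuationSubring F, Le R W → W.valuation (algebraMap R F b) = 1 →
      W.valuation h ≤ 1) : ∃ (N : ℕ) (e : R), algebraMap R F b ^ N * h = algebraMap R F e := by
  by_contra hcon
  push Not at hcon
  have h1 : b ∉ (den R h).radical := by
    intro h2
    obtain ⟨N, e, he⟩ := h2
    rw [map_pow] at he
    exact hcon N e he
  rw [Ideal.radical_eq_sInf, Ideal.mem_sInf] at h1
  push Not at h1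
  obtain ⟨q, ⟨hq1, hqp⟩, hbq⟩ := h1
  obtain ⟨W, hW, hcen⟩ := exists_W (F := F) q hqp
  have h2 : W.valuation (algebraMap R F b) = 1 := val_eq_one (hW := hW) (by rw [hcen]; exact hbq)
  obtain ⟨a, s, hs, hab⟩ := exists_frac hW (hh W hW h2)
  have hs0 : algebraMap R F s ≠ 0 := by
    intro h0
    rw [h0, map_zero] at hs
    exact zero_ne_one hs
  have h3 : s ∈ den R h := ⟨a, by rw [hab]; field_simp⟩
  have h4 := hq1 h3
  rw [← hcen, mem_cen, hs] at h4
  exact lt_irrefl _ h4

end Pool.Agent.H96.W
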