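import Mathlib

/-!
# Greedy bases
-/

set_option autoImplicit false
set_option linter.unusedSectionVars false

namespace Pool.Agent.H96.W

/-- **The greedy lemma.** -/
theorem exists_greedy {k E κ Γ : Type} [Field k] [AddCommGroup E] [Module k E] [LinearOrder Γ]
    [DecidableEq κ] (S : Finset κ) (sz : κ → Γ) (w : κ → E) :
    ∃ B ⊆ S, LinearIndepOn k w (B : Set κ) ∧
      ∀ s ∈ S, w s ∈ Submodule.span k (w '' {b | b ∈ B ∧ sz b ≤ sz s}) := by
  induction S using Finset.induction_on_max_value sz with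
  | empty => exact ⟨∅, subset_rfl, by simp, fun s hs => by simp at hs⟩
  | insert a S ha hmax ih =>
    obtain ⟨B, hBS, hB, hspan⟩ := ih
    by_cases h : w a ∈ Submodule.span k (w '' (B : Set κ))
    · refine ⟨B, hBS.trans (Finset.subset_insert _ _), hB, fun s hs => ?_⟩
      rcases Finset.mem_insert.mp hs with rfl | hs
      · have h1 : {b | b ∈ B ∧ sz b ≤ sz s} = (B : Set κ) := by
          ext b
          exact ⟨fun hb => hb.1, fun hb => ⟨hb, hmax b (hBS hb)⟩⟩
        rw [h1]
        exact h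
      · exact hspan s hs
    · refine ⟨insert a B, Finset.insert_subset_insert _ hBS, ?_, fun s hs => ?_⟩
      · rw [Finset.coe_insert, linearIndepOn_insert (fun h' => ha (hBS h'))]
        exact ⟨hB, h⟩
      · rcases Finset.mem_insert.mp hs with rfl | hs
        · exact Submodule.subset_span ⟨s, ⟨Finset.mem_insert_self _ _, le_rfl⟩, rfl⟩
        · refine Submodule.span_mono (Set.image_mono ?_) (hspan s hs)
          rintro b ⟨hb, hb'⟩
          exact ⟨Finset.mem_insert_of_mem hb, hb'⟩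

/-- Dual vectors. -/
theorem exists_dual {k κ : Type} [Field k] [DecidableEq κ] {m : ℕ} (J : Finset κ)
    (v : κ → Fin m → k) (h : LinearIndepOn k v (J : Set κ)) :
    ∃ μ : κ → Fin m → k, ∀ j ∈ J, ∀ j' ∈ J, μ j ⬝ᵥ v j' = if j = j' then 1 else 0 := by
  have hinj : Function.Injective (Fintype.linearCombination k (fun j : J => v j)) := by
    have h1 : LinearIndependent k (fun j : J => v j) := h
    exact h1.fintypeLinearCombination_injective
  obtain ⟨φ, hφ⟩ := LinearMap.exists_leftInverse_of_injective _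
    (LinearMap.ker_eq_bot.mpr hinj)
  refine ⟨fun j a => if hj : j ∈ J then φ (Pi.single a 1) ⟨j, hj⟩ else 0, fun j hj j' hj' => ?_⟩
  have h1 : φ (v j') = Pi.single ⟨j', hj'⟩ 1 := by
    have h2 := LinearMap.congr_fun hφ (Pi.single (⟨j', hj'⟩ : J) (1 : k))
    rw [LinearMap.comp_apply, Fintype.linearCombination_apply_single, one_smul] at h2
    exact h2
  have h2 : v j' = ∑ a, v j' a • (Pi.single a (1 : k) : Fin m → k) := by
    funext b
    rw [Finset.sum_apply, Finset.sum_eq_single b]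
    · simp
    · intro c _ hc
      rw [Pi.smul_apply, Pi.single_eq_of_ne (Ne.symm hc), smul_zero]
    · intro h; exact absurd (Finset.mem_univ _) h
  have h3 : φ (v j') ⟨j, hj⟩ = ∑ a, φ (Pi.single a 1) ⟨j, hj⟩ * v j' a := by
    conv_lhs => rw [h2]
    rw [map_sum, Finset.sum_apply]
    refine Finset.sum_congr rfl fun a _ => ?_
    rw [map_smul, Pi.smul_apply, smul_eq_mul, mul_comm]
  rw [dotProduct]
  simp only [dif_pos hj]
  rw [← h3, h1, Pi.single_apply]
  simp only [Subtype.mk.injEq]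

variable {k I : Type} [Field k] [Fintype I] [DecidableEq I] {m : ℕ}

/-- **The echelon data.** `D i` is the functional attached to `i`, `act` the set of active indices,
`C₁` the subspace of integral elements. -/
theorem exists_echelon [Finite k] {Γ Γ' : Type} [LinearOrder Γ] [LinearOrder Γ'] (D : I → Fin m → k)
    (act : Finset I) (psz : I → Γ') (C₁ : Submodule k (Fin m → k)) (sz : (Fin m → k) → Γ)
    (hC : ∀ c, (∀ i ∈ act, c ⬝ᵥ D i = 0) → c ∈ C₁) :
    ∃ (B : Finset (Fin m → k)) (J : Finset I) (μ : I → Fin m → k) (d₀ d₁ : ℕ)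
      (β : Fin d₀ ⊕ Fin d₁ → Fin m → k),
      (∀ b ∈ B, b ∉ C₁) ∧
      (∀ c, ∃ a : (Fin m → k) → k, (∀ b, a b ≠ 0 → b ∈ B ∧ sz b ≤ sz c) ∧
        c - ∑ b ∈ B, a b • b ∈ C₁) ∧
      J ⊆ act ∧ (∀ j ∈ J, ∀ j' ∈ J, μ j ⬝ᵥ D j' = if j = j' then 1 else 0) ∧
      (∀ j ∈ J, ∀ i ∈ act, μ j ⬝ᵥ D i ≠ 0 → psz i ≤ psz j) ∧
      (∀ a, ∀ i ∈ act, β (Sum.inl a) ⬝ᵥ D i = 0) ∧ (∀ a, β a ∈ C₁) ∧
      (∀ c ∈ C₁, ∃ a : Fin d₀ ⊕ Fin d₁ → k, c = ∑ l, a l • β l) ∧
      d₀ + d₁ + B.card ≤ m ∧ m ≤ J.card + d₀ := by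
  classical
  let _ := Fintype.ofFinite k
  -- the poles
  obtain ⟨B, -, hB1, hB2⟩ := exists_greedy (k := k) (Finset.univ : Finset (Fin m → k)) sz
    (fun c => C₁.mkQ c)
  -- the functionals
  obtain ⟨J, hJ0, hJ1, hJ2⟩ := exists_greedy (k := k) act (fun i => OrderDual.toDual (psz i)) D
  obtain ⟨μ, hμ⟩ := exists_dual J D hJ1
  -- the common kernel
  let lam : (Fin m → k) →ₗ[k] (J → k) :=
    { toFun := fun c j => c ⬝ᵥ D j
      map_add' := fun c c' => by funext j; exact add_dotProduct _ _ _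
      map_smul' := fun a c => by funext j; exact smul_dotProduct _ _ _ }
  set C₀ : Submodule k (Fin m → k) := LinearMap.ker lam with hC₀
  have hC₀J : ∀ c ∈ C₀, ∀ j ∈ J, c ⬝ᵥ D j = 0 := by
    intro c hc j hj
    have h1 : lam c = 0 := hc
    exact congrFun h1 ⟨j, hj⟩
  have hC₀act : ∀ c ∈ C₀, ∀ i ∈ act, c ⬝ᵥ D i = 0 := by
    intro c hc i hi
    have h1 := hJ2 i hi
    have h2 : ∀ v ∈ Submodule.span k (D '' {b | b ∈ J ∧
        OrderDual.toDual (psz b) ≤ OrderDual.toDual (psz i)}), c ⬝ᵥ v = 0 := by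
      intro v hv
      induction hv using Submodule.span_induction with
      | mem x hx =>
        obtain ⟨j, hj, rfl⟩ := hx
        exact hC₀J c hc j hj.1
      | zero => exact dotProduct_zero _
      | add x y _ _ hx hy => rw [dotProduct_add, hx, hy, add_zero]
      | smul a x _ hx => rw [dotProduct_smul, hx, smul_zero]
    exact h2 _ h1
  have hC₀C₁ : C₀ ≤ C₁ := fun c hc => hC c (hC₀act c hc)
  obtain ⟨D', hD'⟩ := exists_isCompl C₀
  set C₂ := D' ⊓ C₁ with hC₂
  have hsup : C₀ ⊔ C₂ = C₁ := by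
    rw [hC₂, ← sup_inf_assoc_of_le D' hC₀C₁, hD'.sup_eq_top, top_inf_eq]
  have hinf : C₀ ⊓ C₂ = ⊥ := by
    rw [hC₂, ← inf_assoc, hD'.inf_eq_bot, bot_inf_eq]
  let b₀ := Module.finBasis k C₀
  let b₂ := Module.finBasis k C₂
  refine ⟨B, J, μ, Module.finrank k C₀, Module.finrank k C₂,
    Sum.elim (fun a => (b₀ a : Fin m → k)) (fun a => (b₂ a : Fin m → k)), ?_, ?_, hJ0, hμ, ?_, ?_,
    ?_, ?_, ?_, ?_⟩
  · intro b hb hbC
    have h1 := hB1.ne_zero hb
    apply h1
    exact (Submodule.Quotient.mk_eq_zero C₁).mpr hbC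
  · intro c
    have h1 := hB2 c (Finset.mem_univ _)
    set Bc := B.filter fun b => sz b ≤ sz c with hBc
    have h2 : {b | b ∈ B ∧ sz b ≤ sz c} = (Bc : Set (Fin m → k)) := by
      ext b; simp [hBc]
    rw [h2, Submodule.mem_span_image_finset_iff_exists_fun'] at h1
    obtain ⟨a, ha⟩ := h1
    refine ⟨fun b => if b ∈ Bc then a b else 0, fun b hb => ?_, ?_⟩
    · by_cases h3 : b ∈ Bc
      · rw [hBc, Finset.mem_filter] at h3
        exact h3
      · exact absurd (if_neg h3) hb
    · rw [← Submodule.Quotient.mk_eq_zero C₁]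
      show C₁.mkQ (c - ∑ b ∈ B, (if b ∈ Bc then a b else 0) • b) = 0
      have h3 : ∑ b ∈ B, (if b ∈ Bc then a b else 0) • b = ∑ b ∈ Bc, a b • b := by
        rw [hBc, Finset.sum_filter]
        refine Finset.sum_congr rfl fun b hb => ?_
        by_cases h4 : sz b ≤ sz c
        · rw [if_pos (show b ∈ B.filter (fun b => sz b ≤ sz c) from
            Finset.mem_filter.mpr ⟨hb, h4⟩), if_pos h4]
        · rw [if_neg (show ¬ b ∈ B.filter (fun b => sz b ≤ sz c) from
            fun h5 => h4 (Finset.mem_filter.mp h5).2), if_neg h4, zero_smul]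
      rw [h3, map_sub, map_sum, ← ha, sub_eq_zero]
      refine Finset.sum_congr rfl fun b _ => ?_
      rw [map_smul]
  · intro j hj i hi hne
    by_contra hlt
    apply hne
    have h1 := hJ2 i hi
    have h2 : ∀ v ∈ Submodule.span k (D '' {b | b ∈ J ∧
        OrderDual.toDual (psz b) ≤ OrderDual.toDual (psz i)}), μ j ⬝ᵥ v = 0 := by
      intro v hv
      induction hv using Submodule.span_induction with
      | mem x hx =>
        obtain ⟨j', hj', rfl⟩ := hx
        rw [hμ j hj j' hj'.1, if_neg]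
        rintro rfl
        exact hlt hj'.2
      | zero => exact dotProduct_zero _
      | add x y _ _ hx hy => rw [dotProduct_add, hx, hy, add_zero]
      | smul a x _ hx => rw [dotProduct_smul, hx, smul_zero]
    exact h2 _ h1
  · intro a i hi
    exact hC₀act _ (b₀ a).2 i hi
  · rintro (a | a)
    · exact hC₀C₁ (b₀ a).2
    · exact (b₂ a).2.2
  · intro c hc
    rw [← hsup] at hc
    obtain ⟨c0, hc0, c2, hc2, rfl⟩ := Submodule.mem_sup.mp hc
    refine ⟨Sum.elim (fun l => b₀.repr ⟨c0, hc0⟩ l) (fun l => b₂.repr ⟨c2, hc2⟩ l), ?_⟩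
    rw [Fintype.sum_sum_type]
    congr 1
    · have h1 := congrArg Subtype.val (b₀.sum_repr ⟨c0, hc0⟩)
      rw [Submodule.coe_sum] at h1
      exact h1.symm
    · have h1 := congrArg Subtype.val (b₂.sum_repr ⟨c2, hc2⟩)
      rw [Submodule.coe_sum] at h1
      exact h1.symm
  · have h1 := Submodule.finrank_sup_add_finrank_inf_eq C₀ C₂
    rw [hsup, hinf, finrank_bot, add_zero] at h1
    have h2 := Submodule.finrank_quotient_add_finrank C₁
    rw [Module.finrank_fin_fun] at h2
    have h3 : B.card ≤ Module.finrank k ((Fin m → k) ⧸ C₁) := by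
      have h4 : LinearIndependent k (fun b : B => C₁.mkQ (b : Fin m → k)) := hB1
      have := h4.fintype_card_le_finrank
      rwa [Fintype.card_coe] at this
    omega
  · have h1 := LinearMap.finrank_range_add_finrank_ker lam
    rw [Module.finrank_fin_fun] at h1
    have h2 : Module.finrank k (LinearMap.range lam) ≤ J.card := by
      have := Submodule.finrank_le (LinearMap.range lam)
      rwa [Module.finrank_pi, Fintype.card_coe] at this
    rw [← hC₀] at h1
    omega

end Pool.Agent.H96.W
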