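import Mathlib

/-!
# The toric engine

Star subdivisions of unimodular fans, together with the finite sets of monomials whose principality
detects the chart of a valuation. Everything is formulated in terms of total preorders on the
lattice of monomials.
-/

set_option autoImplicit false
set_option linter.unusedSectionVars false

namespace Pool.Agent.H96.W

variable {ι : Type} [Fintype ι] [DecidableEq ι]

/-- A unimodular cone: the rays `r`, the dual basis `b` of monomials and the value `s` of the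
support function. -/
@[ext]
structure Cone (ι : Type) where
  b : ι → ι → ℤ
  r : ι → ι → ℤ
  s : ι → ℤ

/-- Duality and positivity. -/
structure IsCone (C : Cone ι) : Prop where
  dual : ∀ j k, C.r j ⬝ᵥ C.b k = if j = k then 1 else 0
  pos : ∀ j α, 0 ≤ C.r j α

theorem IsCone.expand {C : Cone ι} (h : IsCone C) (u : ι → ℤ) :
    u = ∑ j, (C.r j ⬝ᵥ u) • C.b j := by
  have h1 : (Matrix.of C.r) * (Matrix.of C.b).transpose = 1 := by
    ext j k
    rw [Matrix.mul_apply, Matrix.one_apply, ← h.dual j k]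
    rfl
  have h2 : (Matrix.of C.b).transpose * (Matrix.of C.r) = 1 := mul_eq_one_comm.mp h1
  have h3 : ((Matrix.of C.b).transpose * (Matrix.of C.r)).mulVec u = u := by
    rw [h2, Matrix.one_mulVec]
  funext α
  conv_lhs => rw [← h3]
  rw [← Matrix.mulVec_mulVec, Matrix.mulVec, dotProduct, Finset.sum_apply]
  refine Finset.sum_congr rfl fun j _ => ?_
  rw [Pi.smul_apply, smul_eq_mul, mul_comm]
  rfl

theorem IsCone.inj {C : Cone ι} (h : IsCone C) {j k : ι} (hjk : C.r j = C.r k) : j = k := by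
  by_contra hne
  have h1 := h.dual j k
  rw [hjk, h.dual k k, if_pos rfl, if_neg hne] at h1
  exact one_ne_zero h1

/-- The positive cone of a total preorder for which the monomials of the coordinates are
integral. -/
structure Tot (P : Set (ι → ℤ)) : Prop where
  add : ∀ u ∈ P, ∀ v ∈ P, u + v ∈ P
  total : ∀ u, u ∈ P ∨ -u ∈ P
  e : ∀ α, Pi.single α 1 ∈ P

/-- The monomials in a subring dominated by the valuation. -/
structure Loc (P Q : Set (ι → ℤ)) : Prop where
  le : Q ⊆ P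
  add : ∀ u ∈ Q, ∀ v ∈ Q, u + v ∈ Q
  zero : 0 ∈ Q
  e : ∀ α, Pi.single α 1 ∈ Q
  loc : ∀ u ∈ Q, -u ∈ P → -u ∈ Q

theorem Tot.zero {P : Set (ι → ℤ)} (h : Tot P) : 0 ∈ P := by
  rcases h.total 0 with h1 | h1
  · exact h1
  · rwa [neg_zero] at h1

/-- The finite set `S` of monomials is principal. -/
def Dec (Q : Set (ι → ℤ)) (S : Finset (ι → ℤ)) : Prop := ∃ u₀ ∈ S, ∀ u ∈ S, u - u₀ ∈ Q

theorem sum_mem_of_add {Q : Set (ι → ℤ)} (hadd : ∀ u ∈ Q, ∀ v ∈ Q, u + v ∈ Q) (hz : 0 ∈ Q)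
    {b : ι → ι → ℤ} (hb : ∀ j, b j ∈ Q) {c : ι → ℤ} (hc : ∀ j, 0 ≤ c j) :
    ∑ j, c j • b j ∈ Q := by
  classical
  have h1 : ∀ (n : ℕ) (v : ι → ℤ), v ∈ Q → (n : ℤ) • v ∈ Q := by
    intro n v hv
    induction n with
    | zero => simpa using hz
    | succ n ih =>
      rw [Nat.cast_succ, add_smul, one_smul]
      exact hadd _ ih _ hv
  have h2 : ∀ s : Finset ι, ∑ j ∈ s, c j • b j ∈ Q := by
    intro s
    induction s using Finset.induction_on with
    | empty => simpa using hz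
    | insert a s ha ih =>
      rw [Finset.sum_insert ha]
      refine hadd _ ?_ _ ih
      obtain ⟨n, hn⟩ := Int.eq_ofNat_of_zero_le (hc a)
      rw [hn]
      exact h1 n _ (hb a)
  exact h2 _

theorem IsCone.mem {C : Cone ι} (h : IsCone C) {Q : Set (ι → ℤ)}
    (hadd : ∀ u ∈ Q, ∀ v ∈ Q, u + v ∈ Q) (hz : 0 ∈ Q) (hb : ∀ j, C.b j ∈ Q) {u : ι → ℤ}
    (hu : ∀ j, 0 ≤ C.r j ⬝ᵥ u) : u ∈ Q := by
  rw [h.expand u]
  exact sum_mem_of_add hadd hz hb hu

/-- A fan with its history. -/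
structure Eng (𝒞 : Set (Cone ι)) (L : List (Finset (ι → ℤ))) : Prop where
  fin : 𝒞.Finite
  cone : ∀ C ∈ 𝒞, IsCone C
  supp : ∀ C ∈ 𝒞, ∀ C' ∈ 𝒞, ∀ j, 0 ≤ C.r j ⬝ᵥ (C'.s - C.s) ∧
    (C.r j ⬝ᵥ (C'.s - C.s) = 0 → ∃ k, C'.r k = C.r j)
  cov : ∀ P, Tot P → ∃ C ∈ 𝒞, (∀ j, C.b j ∈ P) ∧
    (∀ Q, Loc P Q → (∀ S ∈ L, Dec Q S) → ∀ j, C.b j ∈ Q) ∧
    (∀ Q, Loc P Q → (∀ j, C.b j ∈ Q) → ∀ S ∈ L, Dec Q S)

/-- The initial fan. -/
theorem eng_init : Eng ({⟨fun j => Pi.single j 1, fun j => Pi.single j 1, 0⟩} : Set (Cone ι)) [] where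
  fin := Set.finite_singleton _
  cone := by
    rintro _ rfl
    refine ⟨fun j k => ?_, fun j α => ?_⟩
    · show Pi.single j 1 ⬝ᵥ Pi.single k 1 = _
      rw [single_one_dotProduct, Pi.single_apply]
    · show 0 ≤ (Pi.single j (1 : ℤ) : ι → ℤ) α
      rw [Pi.single_apply]
      split_ifs <;> norm_num
  supp := by
    rintro _ rfl _ rfl j
    simp
  cov := by
    intro P hP
    refine ⟨_, rfl, fun j => hP.e j, fun Q hQ _ j => hQ.e j, fun Q _ _ S hS => ?_⟩
    simp at hS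

/-- The child cone: the ray `j` is replaced by the sum of the rays `j` and `j'`. -/
def child (N : ℤ) (C : Cone ι) (j j' : ι) : Cone ι where
  r := Function.update C.r j (C.r j + C.r j')
  b := Function.update C.b j' (C.b j' - C.b j)
  s := N • C.s + C.b j

theorem isCone_child {N : ℤ} {C : Cone ι} (h : IsCone C) {j j' : ι} (hj : j ≠ j') :
    IsCone (child N C j j') where
  dual := by
    intro k l
    show Function.update C.r j (C.r j + C.r j') k ⬝ᵥ
      Function.update C.b j' (C.b j' - C.b j) l = _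
    by_cases hk : k = j
    · subst hk
      rw [Function.update_self]
      by_cases hl : l = j'
      · subst hl
        rw [Function.update_self, add_dotProduct, dotProduct_sub, dotProduct_sub, h.dual, h.dual,
          h.dual, h.dual, if_neg hj, if_pos rfl, if_pos rfl, if_neg (Ne.symm hj)]
        ring
      · rw [Function.update_of_ne hl, add_dotProduct, h.dual, h.dual, if_neg (Ne.symm hl), add_zero]
    · rw [Function.update_of_ne hk]
      by_cases hl : l = j'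
      · subst hl
        rw [Function.update_self, dotProduct_sub, h.dual, h.dual, if_neg hk, sub_zero]
      · rw [Function.update_of_ne hl, h.dual]
  pos := by
    intro k α
    show 0 ≤ Function.update C.r j (C.r j + C.r j') k α
    by_cases hk : k = j
    · subst hk
      rw [Function.update_self, Pi.add_apply]
      exact add_nonneg (h.pos _ _) (h.pos _ _)
    · rw [Function.update_of_ne hk]
      exact h.pos _ _

/-- `{C.r j, C.r j'} = {r, r'}`. -/
def Hit (r r' : ι → ℤ) (C : Cone ι) (j j' : ι) : Prop :=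
  j ≠ j' ∧ ((C.r j = r ∧ C.r j' = r') ∨ (C.r j = r' ∧ C.r j' = r))

theorem Hit.symm {r r' : ι → ℤ} {C : Cone ι} {j j' : ι} (h : Hit r r' C j j') : Hit r r' C j' j :=
  ⟨h.1.symm, h.2.elim (fun h => Or.inr ⟨h.2, h.1⟩) fun h => Or.inl ⟨h.2, h.1⟩⟩

theorem Hit.sum {r r' : ι → ℤ} {C : Cone ι} {j j' : ι} (h : Hit r r' C j j') :
    C.r j + C.r j' = r + r' := by
  rcases h.2 with h | h
  · rw [h.1, h.2]
  · rw [h.1, h.2, add_comm]

/-- The star subdivision at the pair `r, r'`. -/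
def star (N : ℤ) (r r' : ι → ℤ) (𝒞 : Set (Cone ι)) : Set (Cone ι) :=
  {C' | ∃ C ∈ 𝒞, ((∀ j j', ¬ Hit r r' C j j') ∧ C' = ⟨C.b, C.r, N • C.s⟩) ∨
    ∃ j j', Hit r r' C j j' ∧ C' = child N C j j'}

theorem finite_star (N : ℤ) (r r' : ι → ℤ) {𝒞 : Set (Cone ι)} (h : 𝒞.Finite) :
    (star N r r' 𝒞).Finite := by
  have h1 : star N r r' 𝒞 ⊆ ((fun C : Cone ι => (⟨C.b, C.r, N • C.s⟩ : Cone ι)) '' 𝒞) ∪
      ((fun x : Cone ι × ι × ι => child N x.1 x.2.1 x.2.2) '' (𝒞 ×ˢ Set.univ)) := by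
    rintro _ ⟨C, hC, ⟨-, rfl⟩ | ⟨j, j', -, rfl⟩⟩
    · exact Or.inl ⟨C, hC, rfl⟩
    · exact Or.inr ⟨(C, j, j'), ⟨hC, trivial⟩, rfl⟩
  exact ((h.image _).union ((h.prod Set.finite_univ).image _)).subset h1

/-- The sets of values of a finite fan. -/
noncomputable def vals {𝒞 : Set (Cone ι)} (h : 𝒞.Finite) : Finset (ι → ℤ) :=
  (h.image Cone.s).toFinset

theorem mem_vals {𝒞 : Set (Cone ι)} (h : 𝒞.Finite) {u : ι → ℤ} :
    u ∈ vals h ↔ ∃ C ∈ 𝒞, C.s = u := by
  rw [vals, Set.Finite.mem_toFinset]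
  rfl

/-- The bound needed for the step. -/
structure Bd (𝒞 : Set (Cone ι)) (N : ℤ) : Prop where
  two : 2 ≤ N
  lt : ∀ C ∈ 𝒞, ∀ C' ∈ 𝒞, ∀ j k, |C.r j ⬝ᵥ C'.b k| < N

theorem exists_bd {𝒞 : Set (Cone ι)} (h : 𝒞.Finite) : ∃ N, Bd 𝒞 N := by
  have h1 : ((fun x : Cone ι × Cone ι × ι × ι => |x.1.r x.2.2.1 ⬝ᵥ x.2.1.b x.2.2.2|) ''
      (𝒞 ×ˢ (𝒞 ×ˢ Set.univ))).Finite := (h.prod (h.prod Set.finite_univ)).image _
  obtain ⟨M, hM⟩ := h1.bddAbove
  refine ⟨max 2 (M + 1), le_max_left _ _, fun C hC C' hC' j k => ?_⟩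
  have h2 := hM ⟨(C, C', j, k), ⟨hC, hC', trivial⟩, rfl⟩
  exact (Int.lt_add_one_iff.mpr h2).trans_le (le_max_right _ _)

section Step

variable {𝒞 : Set (Cone ι)} {L : List (Finset (ι → ℤ))} {N : ℤ} {r r' : ι → ℤ}

theorem supp_star (h : Eng 𝒞 L) (hN : Bd 𝒞 N) {C' C'' : Cone ι} (hC' : C' ∈ star N r r' 𝒞)
    (hC'' : C'' ∈ star N r r' 𝒞) (l : ι) : 0 ≤ C'.r l ⬝ᵥ (C''.s - C'.s) ∧
      (C'.r l ⬝ᵥ (C''.s - C'.s) = 0 → ∃ k, C''.r k = C'.r l) := by
  have hN2 := hN.two
  -- old rays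
  have key1 : ∀ C ∈ 𝒞, ∀ l, ∀ C₂ ∈ 𝒞, (C'' = ⟨C₂.b, C₂.r, N • C₂.s⟩ ∨
      ∃ j j', Hit r r' C₂ j j' ∧ C'' = child N C₂ j j') →
      0 ≤ C.r l ⬝ᵥ (C''.s - N • C.s) ∧
        (C.r l ⬝ᵥ (C''.s - N • C.s) = 0 → ∃ k, C''.r k = C.r l) := by
    intro C hC l C₂ hC₂ hcase
    obtain ⟨hx0, hxe⟩ := h.supp C hC C₂ hC₂ l
    rcases hcase with rfl | ⟨j, j', hhit, rfl⟩
    · have h1 : C.r l ⬝ᵥ (N • C₂.s - N • C.s) = N * (C.r l ⬝ᵥ (C₂.s - C.s)) := by
        rw [← smul_sub, dotProduct_smul, smul_eq_mul]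
      refine ⟨?_, fun h0 => ?_⟩
      · show 0 ≤ C.r l ⬝ᵥ (N • C₂.s - N • C.s)
        rw [h1]; exact mul_nonneg (by omega) hx0
      · have h0' : C.r l ⬝ᵥ (N • C₂.s - N • C.s) = 0 := h0
        rw [h1] at h0'
        exact hxe ((mul_eq_zero.mp h0').resolve_left (by omega))
    · have h1 : C.r l ⬝ᵥ ((child N C₂ j j').s - N • C.s) =
          N * (C.r l ⬝ᵥ (C₂.s - C.s)) + C.r l ⬝ᵥ C₂.b j := by
        show C.r l ⬝ᵥ (N • C₂.s + C₂.b j - N • C.s) = _
        rw [dotProduct_sub, dotProduct_add, dotProduct_smul, dotProduct_smul, dotProduct_sub,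
          smul_eq_mul, smul_eq_mul]
        ring
      rw [h1]
      have hb := abs_lt.mp (hN.lt C hC C₂ hC₂ l j)
      rcases eq_or_lt_of_le hx0 with hx | hx
      · obtain ⟨k, hk⟩ := hxe hx.symm
        rw [← hx, mul_zero, zero_add, ← hk, (h.cone C₂ hC₂).dual]
        refine ⟨by split_ifs <;> norm_num, fun h0 => ?_⟩
        have hkj : k ≠ j := by
          intro hkj
          rw [if_pos hkj] at h0
          exact one_ne_zero h0
        refine ⟨k, ?_⟩
        show Function.update C₂.r j (C₂.r j + C₂.r j') k = C₂.r k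
        rw [Function.update_of_ne hkj]
      · have h2 : N ≤ N * (C.r l ⬝ᵥ (C₂.s - C.s)) := by nlinarith
        refine ⟨by omega, fun h0 => by omega⟩
  obtain ⟨C, hC, ⟨-, rfl⟩ | ⟨j, j', hhit, rfl⟩⟩ := hC'
  · obtain ⟨C₂, hC₂, h2⟩ := hC''
    exact key1 C hC l C₂ hC₂ (h2.elim (fun h => Or.inl h.2) fun h => Or.inr h)
  · obtain ⟨C₂, hC₂, h2⟩ := hC''
    have h2' := h2.elim (fun h => Or.inl h.2 : _ → C'' = ⟨C₂.b, C₂.r, N • C₂.s⟩ ∨
      ∃ j j', Hit r r' C₂ j j' ∧ C'' = child N C₂ j j') fun h => Or.inr h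
    by_cases hl : l = j
    · -- the new ray
      subst hl
      have hrl : (child N C l j').r l = C.r l + C.r j' := by
        show Function.update C.r l (C.r l + C.r j') l = _
        rw [Function.update_self]
      have hd : (C.r l + C.r j') ⬝ᵥ C.b l = 1 := by
        rw [add_dotProduct, (h.cone C hC).dual, (h.cone C hC).dual, if_pos rfl,
          if_neg (Ne.symm hhit.1), add_zero]
      rw [hrl]
      have hs : (child N C l j').s = N • C.s + C.b l := rfl
      rw [hs]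
      obtain ⟨hx0, hxe⟩ := h.supp C hC C₂ hC₂ l
      obtain ⟨hy0, hye⟩ := h.supp C hC C₂ hC₂ j'
      rcases h2 with ⟨hno, rfl⟩ | ⟨j₂, j₂', hhit₂, rfl⟩
      · have h3 : (C.r l + C.r j') ⬝ᵥ (N • C₂.s - (N • C.s + C.b l)) =
            N * (C.r l ⬝ᵥ (C₂.s - C.s) + C.r j' ⬝ᵥ (C₂.s - C.s)) - 1 := by
          have h4 : N • C₂.s - (N • C.s + C.b l) = N • (C₂.s - C.s) - C.b l := by
            rw [smul_sub]; abel
          rw [h4, dotProduct_sub, hd, dotProduct_smul, smul_eq_mul, add_dotProduct]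
        show 0 ≤ (C.r l + C.r j') ⬝ᵥ (N • C₂.s - (N • C.s + C.b l)) ∧
          ((C.r l + C.r j') ⬝ᵥ (N • C₂.s - (N • C.s + C.b l)) = 0 → _)
        rw [h3]
        have hpos : 0 < C.r l ⬝ᵥ (C₂.s - C.s) + C.r j' ⬝ᵥ (C₂.s - C.s) := by
          rcases eq_or_lt_of_le (add_nonneg hx0 hy0) with h5 | h5
          · exfalso
            have hx1 : C.r l ⬝ᵥ (C₂.s - C.s) = 0 := by omega
            have hy1 : C.r j' ⬝ᵥ (C₂.s - C.s) = 0 := by omega
            obtain ⟨k, hk⟩ := hxe hx1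
            obtain ⟨k', hk'⟩ := hye hy1
            apply hno k k'
            refine ⟨?_, ?_⟩
            · rintro rfl
              exact hhit.1 ((h.cone C hC).inj (hk.symm.trans hk'))
            · rcases hhit.2 with ⟨h6, h7⟩ | ⟨h6, h7⟩
              · exact Or.inl ⟨hk.trans h6, hk'.trans h7⟩
              · exact Or.inr ⟨hk.trans h6, hk'.trans h7⟩
          · exact h5
        have h6 : N ≤ N * (C.r l ⬝ᵥ (C₂.s - C.s) + C.r j' ⬝ᵥ (C₂.s - C.s)) := by nlinarith
        refine ⟨by omega, fun h0 => by omega⟩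
      · have h3 : (C.r l + C.r j') ⬝ᵥ ((child N C₂ j₂ j₂').s - (N • C.s + C.b l)) =
            N * (C.r l ⬝ᵥ (C₂.s - C.s) + C.r j' ⬝ᵥ (C₂.s - C.s)) := by
          have h4 : (child N C₂ j₂ j₂').s - (N • C.s + C.b l) =
              N • (C₂.s - C.s) + C₂.b j₂ - C.b l := by
            show N • C₂.s + C₂.b j₂ - (N • C.s + C.b l) = _
            rw [smul_sub]; abel
          have h5 : (C.r l + C.r j') ⬝ᵥ C₂.b j₂ = 1 := by
            rw [hhit.sum, ← hhit₂.sum, add_dotProduct, (h.cone C₂ hC₂).dual,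
              (h.cone C₂ hC₂).dual, if_pos rfl, if_neg (Ne.symm hhit₂.1), add_zero]
          rw [h4, dotProduct_sub, hd, dotProduct_add, h5, dotProduct_smul, smul_eq_mul,
            add_dotProduct]
          ring
        refine ⟨?_, fun _ => ⟨j₂, ?_⟩⟩
        · rw [h3]; exact mul_nonneg (by omega) (add_nonneg hx0 hy0)
        · show Function.update C₂.r j₂ (C₂.r j₂ + C₂.r j₂') j₂ = _
          rw [Function.update_self, hhit₂.sum, hhit.sum]
    · have hrl : (child N C j j').r l = C.r l := by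
        show Function.update C.r j (C.r j + C.r j') l = _
        rw [Function.update_of_ne hl]
      have hd : C.r l ⬝ᵥ C.b j = 0 := by
        rw [(h.cone C hC).dual, if_neg hl]
      rw [hrl]
      have h3 : C.r l ⬝ᵥ (C''.s - (child N C j j').s) = C.r l ⬝ᵥ (C''.s - N • C.s) := by
        show C.r l ⬝ᵥ (C''.s - (N • C.s + C.b j)) = _
        rw [← sub_sub, dotProduct_sub _ _ (C.b j), hd, sub_zero]
      rw [h3]
      exact key1 C hC l C₂ hC₂ h2'

/-- **The step.** -/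
theorem eng_star (h : Eng 𝒞 L) (hN : Bd 𝒞 N) :
    Eng (star N r r' 𝒞) (vals (finite_star N r r' h.fin) :: L) := by
  have hcone : ∀ C' ∈ star N r r' 𝒞, IsCone C' := by
    rintro _ ⟨C, hC, ⟨-, rfl⟩ | ⟨j, j', hhit, rfl⟩⟩
    · exact ⟨(h.cone C hC).dual, (h.cone C hC).pos⟩
    · exact isCone_child (h.cone C hC) hhit.1
  -- minimality of the value of a covering cone
  have hmin : ∀ C' ∈ star N r r' 𝒞, ∀ (Q : Set (ι → ℤ)), (∀ u ∈ Q, ∀ v ∈ Q, u + v ∈ Q) → 0 ∈ Q →
      (∀ j, C'.b j ∈ Q) → ∀ C'' ∈ star N r r' 𝒞, C''.s - C'.s ∈ Q := by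
    intro C' hC' Q hadd hz hb C'' hC''
    exact (hcone C' hC').mem hadd hz hb fun j => (supp_star h hN hC' hC'' j).1
  refine ⟨finite_star N r r' h.fin, hcone, fun C hC C' hC' j => supp_star h hN hC hC' j, ?_⟩
  intro P hP
  obtain ⟨C, hC, hCP, hdet, hprin⟩ := h.cov P hP
  by_cases hhit : ∃ j j', Hit r r' C j j'
  · -- an affected cone
    obtain ⟨j, j', hj, hd⟩ : ∃ j j', Hit r r' C j j' ∧ C.b j' - C.b j ∈ P := by
      obtain ⟨j, j', hj⟩ := hhit
      rcases hP.total (C.b j' - C.b j) with h1 | h1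
      · exact ⟨j, j', hj, h1⟩
      · exact ⟨j', j, hj.symm, by rwa [neg_sub] at h1⟩
    have hC1 : child N C j j' ∈ star N r r' 𝒞 := ⟨C, hC, Or.inr ⟨j, j', hj, rfl⟩⟩
    have hC2 : child N C j' j ∈ star N r r' 𝒞 := ⟨C, hC, Or.inr ⟨j', j, hj.symm, rfl⟩⟩
    have hbP : ∀ k, (child N C j j').b k ∈ P := by
      intro k
      show Function.update C.b j' (C.b j' - C.b j) k ∈ P
      by_cases hk : k = j'
      · rw [hk, Function.update_self]; exact hd
      · rw [Function.update_of_ne hk]; exact hCP k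
    refine ⟨_, hC1, hbP, ?_, ?_⟩
    · intro Q hQ hS k
      have hold := hdet Q hQ fun S hSL => hS S (List.mem_cons_of_mem _ hSL)
      show Function.update C.b j' (C.b j' - C.b j) k ∈ Q
      by_cases hk : k = j'
      · rw [hk, Function.update_self]
        obtain ⟨u₀, hu₀, hu⟩ := hS _ List.mem_cons_self
        obtain ⟨C₀, hC₀, rfl⟩ := (mem_vals _).mp hu₀
        have h1 := hu _ ((mem_vals _).mpr ⟨_, hC1, rfl⟩)
        have h2 := hu _ ((mem_vals _).mpr ⟨_, hC2, rfl⟩)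
        have h3 : C₀.s - (child N C j j').s ∈ P := hmin _ hC1 P hP.add hP.zero hbP _ hC₀
        have h4 : C₀.s - (child N C j j').s ∈ Q := by
          have h5 := hQ.loc _ h1 (by rwa [neg_sub])
          rwa [neg_sub] at h5
        have h6 := hQ.add _ h2 _ h4
        have h7 : (child N C j' j).s - C₀.s + (C₀.s - (child N C j j').s) = C.b j' - C.b j := by
          show (N • C.s + C.b j') - C₀.s + (C₀.s - (N • C.s + C.b j)) = _
          abel
        rwa [h7] at h6
      · rw [Function.update_of_ne hk]; exact hold k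
    · intro Q hQ hb S hS
      have hb' : ∀ k, C.b k ∈ Q := by
        have hbj : C.b j ∈ Q := by
          have h1 := hb j
          have h2 : (child N C j j').b j = C.b j := by
            show Function.update C.b j' (C.b j' - C.b j) j = _
            rw [Function.update_of_ne hj.1]
          rwa [h2] at h1
        intro k
        by_cases hk : k = j'
        · have h1 := hb j'
          have h2 : (child N C j j').b j' = C.b j' - C.b j := by
            show Function.update C.b j' (C.b j' - C.b j) j' = _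
            rw [Function.update_self]
          rw [h2] at h1
          have h3 := hQ.add _ h1 _ hbj
          rw [sub_add_cancel] at h3
          rw [hk]; exact h3
        · have h1 := hb k
          have h2 : (child N C j j').b k = C.b k := by
            show Function.update C.b j' (C.b j' - C.b j) k = _
            rw [Function.update_of_ne hk]
          rwa [h2] at h1
      rcases List.mem_cons.mp hS with rfl | hS
      · refine ⟨_, (mem_vals _).mpr ⟨_, hC1, rfl⟩, fun u hu => ?_⟩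
        obtain ⟨C₀, hC₀, rfl⟩ := (mem_vals _).mp hu
        exact hmin _ hC1 Q hQ.add hQ.zero hb _ hC₀
      · exact hprin Q hQ hb' S hS
  · push Not at hhit
    have hC1 : (⟨C.b, C.r, N • C.s⟩ : Cone ι) ∈ star N r r' 𝒞 := ⟨C, hC, Or.inl ⟨hhit, rfl⟩⟩
    refine ⟨_, hC1, hCP, ?_, ?_⟩
    · intro Q hQ hS
      exact hdet Q hQ fun S hSL => hS S (List.mem_cons_of_mem _ hSL)
    · intro Q hQ hb S hS
      rcases List.mem_cons.mp hS with rfl | hS
      · refine ⟨_, (mem_vals _).mpr ⟨_, hC1, rfl⟩, fun u hu => ?_⟩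
        obtain ⟨C₀, hC₀, rfl⟩ := (mem_vals _).mp hu
        exact hmin _ hC1 Q hQ.add hQ.zero hb _ hC₀
      · exact hprin Q hQ hb S hS

end Step

end Pool.Agent.H96.W
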