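import Pool.Agent.H96.W.Engine

/-!
# The toric engine: termination
-/

set_option autoImplicit false
set_option linter.unusedSectionVars false

namespace Pool.Agent.H96.W

variable {ι : Type} [Fintype ι] [DecidableEq ι]

/-- Refinement. -/
def Ref (𝒞 𝒞' : Set (Cone ι)) : Prop :=
  ∀ C' ∈ 𝒞', ∃ C ∈ 𝒞, ∀ u, (∀ j, 0 ≤ C.r j ⬝ᵥ u) → ∀ j, 0 ≤ C'.r j ⬝ᵥ u

theorem Ref.refl (𝒞 : Set (Cone ι)) : Ref 𝒞 𝒞 := fun C' hC' => ⟨C', hC', fun _ h => h⟩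

theorem Ref.trans {𝒞 𝒞' 𝒞'' : Set (Cone ι)} (h : Ref 𝒞 𝒞') (h' : Ref 𝒞' 𝒞'') : Ref 𝒞 𝒞'' := by
  intro C'' hC''
  obtain ⟨C', hC', h1⟩ := h' C'' hC''
  obtain ⟨C, hC, h2⟩ := h C' hC'
  exact ⟨C, hC, fun u hu => h1 u (h2 u hu)⟩

theorem ref_star (N : ℤ) (r r' : ι → ℤ) (𝒞 : Set (Cone ι)) : Ref 𝒞 (star N r r' 𝒞) := by
  rintro _ ⟨C, hC, ⟨-, rfl⟩ | ⟨j, j', hhit, rfl⟩⟩
  · exact ⟨C, hC, fun u hu => hu⟩
  · refine ⟨C, hC, fun u hu k => ?_⟩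
    show 0 ≤ Function.update C.r j (C.r j + C.r j') k ⬝ᵥ u
    by_cases hk : k = j
    · rw [hk, Function.update_self, add_dotProduct]
      exact add_nonneg (hu j) (hu j')
    · rw [Function.update_of_ne hk]; exact hu k

/-- The pairs of rays of a common cone with opposite signs at `w`. -/
def bad (𝒞 : Set (Cone ι)) (w : ι → ℤ) : Set ((ι → ℤ) × (ι → ℤ)) :=
  {x | ∃ C ∈ 𝒞, ∃ j j', C.r j = x.1 ∧ C.r j' = x.2 ∧ 0 < x.1 ⬝ᵥ w ∧ x.2 ⬝ᵥ w < 0}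

/-- The size of a pair. -/
def dif (w : ι → ℤ) (x : (ι → ℤ) × (ι → ℤ)) : ℤ := x.1 ⬝ᵥ w - x.2 ⬝ᵥ w

theorem finite_bad {𝒞 : Set (Cone ι)} (h : 𝒞.Finite) (w : ι → ℤ) : (bad 𝒞 w).Finite := by
  have h1 : bad 𝒞 w ⊆ (fun x : Cone ι × ι × ι => (x.1.r x.2.1, x.1.r x.2.2)) '' (𝒞 ×ˢ Set.univ) := by
    rintro ⟨a, a'⟩ ⟨C, hC, j, j', h1, h2, -, -⟩
    refine ⟨(C, j, j'), ⟨hC, trivial⟩, ?_⟩
    show (C.r j, C.r j') = (a, a')
    have h1' : C.r j = a := h1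
    have h2' : C.r j' = a' := h2
    rw [h1', h2']
  exact ((h.prod Set.finite_univ).image _).subset h1

/-- Constancy of the sign of `w` on `C`. -/
def Sgn (C : Cone ι) (w : ι → ℤ) : Prop := (∀ j, 0 ≤ C.r j ⬝ᵥ w) ∨ ∀ j, 0 ≤ C.r j ⬝ᵥ (-w)

theorem sgn_of_bad {𝒞 : Set (Cone ι)} {w : ι → ℤ} (h : bad 𝒞 w = ∅) : ∀ C ∈ 𝒞, Sgn C w := by
  intro C hC
  by_contra hcon
  rw [Sgn, not_or] at hcon
  obtain ⟨h1, h2⟩ := hcon
  push Not at h1 h2
  obtain ⟨j, hj⟩ := h1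
  obtain ⟨j', hj'⟩ := h2
  have : (C.r j', C.r j) ∈ bad 𝒞 w := ⟨C, hC, j', j, rfl, rfl, by
    rw [dotProduct_neg] at hj'
    show 0 < C.r j' ⬝ᵥ w
    omega, hj⟩
  rw [h] at this
  exact this

theorem Sgn.of_ref {𝒞 𝒞' : Set (Cone ι)} (h : Ref 𝒞 𝒞') {w : ι → ℤ} (hs : ∀ C ∈ 𝒞, Sgn C w) :
    ∀ C ∈ 𝒞', Sgn C w := by
  intro C' hC'
  obtain ⟨C, hC, h1⟩ := h C' hC'
  rcases hs C hC with h2 | h2
  · exact Or.inl (h1 _ h2)
  · exact Or.inr (h1 _ h2)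

theorem bad_star {𝒞 : Set (Cone ι)} {L : List (Finset (ι → ℤ))} (h : Eng 𝒞 L) {N : ℤ}
    {w : ι → ℤ} {D : ℤ} (hD : ∀ x ∈ bad 𝒞 w, dif w x ≤ D) {r r' : ι → ℤ}
    (hr : (r, r') ∈ bad 𝒞 w) : ∀ x ∈ bad (star N r r' 𝒞) w,
      (x ∈ bad 𝒞 w ∧ x ≠ (r, r')) ∨ dif w x < D := by
  obtain ⟨-, -, -, -, -, -, hr0, hr0'⟩ := hr
  have hr0 : 0 < r ⬝ᵥ w := hr0
  have hr0' : r' ⬝ᵥ w < 0 := hr0'
  rintro ⟨a, a'⟩ ⟨C', ⟨C, hC, hcase⟩, k, k', hk, hk', ha, ha'⟩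
  have hk : C'.r k = a := hk
  have hk' : C'.r k' = a' := hk'
  have ha : 0 < a ⬝ᵥ w := ha
  have ha' : a' ⬝ᵥ w < 0 := ha'
  rcases hcase with ⟨hno, rfl⟩ | ⟨j, j', hhit, rfl⟩
  · left
    refine ⟨⟨C, hC, k, k', hk, hk', ha, ha'⟩, ?_⟩
    intro heq
    rw [Prod.mk.injEq] at heq
    obtain ⟨rfl, rfl⟩ := heq
    apply hno k k'
    refine ⟨?_, Or.inl ⟨hk, hk'⟩⟩
    rintro rfl
    have h3 : a = a' := hk.symm.trans hk'
    rw [h3] at ha
    omega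
  · have hrk : ∀ k, (child N C j j').r k = if k = j then r + r' else C.r k := by
      intro k
      show Function.update C.r j (C.r j + C.r j') k = _
      by_cases hk : k = j
      · rw [hk, Function.update_self, if_pos rfl, hhit.sum]
      · rw [Function.update_of_ne hk, if_neg hk]
    -- `r` and `r'` are rays of `C`
    obtain ⟨i, i', hi, hi', hij⟩ : ∃ i i', C.r i = r ∧ C.r i' = r' ∧ (j = i ∨ j = i') := by
      rcases hhit.2 with ⟨h1, h2⟩ | ⟨h1, h2⟩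
      · exact ⟨j, j', h1, h2, Or.inl rfl⟩
      · exact ⟨j', j, h2, h1, Or.inr rfl⟩
    rw [hrk] at hk hk'
    by_cases h1 : k = j
    · rw [if_pos h1] at hk
      by_cases h2 : k' = j
      · rw [if_pos h2] at hk'
        rw [← hk] at ha
        rw [← hk'] at ha'
        omega
      · rw [if_neg h2] at hk'
        right
        have h3 : (r, a') ∈ bad 𝒞 w := ⟨C, hC, i, k', hi, hk', hr0, ha'⟩
        have h4 := hD _ h3
        rw [dif] at h4 ⊢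
        have h4 : r ⬝ᵥ w - a' ⬝ᵥ w ≤ D := h4
        show a ⬝ᵥ w - a' ⬝ᵥ w < D
        rw [← hk, add_dotProduct]
        omega
    · rw [if_neg h1] at hk
      by_cases h2 : k' = j
      · rw [if_pos h2] at hk'
        right
        have h3 : (a, r') ∈ bad 𝒞 w := ⟨C, hC, k, i', hk, hi', ha, hr0'⟩
        have h4 := hD _ h3
        rw [dif] at h4 ⊢
        have h4 : a ⬝ᵥ w - r' ⬝ᵥ w ≤ D := h4
        show a ⬝ᵥ w - a' ⬝ᵥ w < D
        rw [← hk', add_dotProduct]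
        omega
      · rw [if_neg h2] at hk'
        left
        refine ⟨⟨C, hC, k, k', hk, hk', ha, ha'⟩, ?_⟩
        intro heq
        rw [Prod.mk.injEq] at heq
        obtain ⟨rfl, rfl⟩ := heq
        rcases hij with rfl | rfl
        · exact h1 ((h.cone C hC).inj (hk.trans hi.symm))
        · exact h2 ((h.cone C hC).inj (hk'.trans hi'.symm))

/-- Treatment of one monomial. -/
theorem exists_sgn (w : ι → ℤ) : ∀ (D : ℕ) (c : ℕ) (𝒞 : Set (Cone ι))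
    (L : List (Finset (ι → ℤ))), Eng 𝒞 L → (∀ x ∈ bad 𝒞 w, dif w x ≤ D) →
    {x ∈ bad 𝒞 w | dif w x = D}.ncard ≤ c →
    ∃ 𝒞' L', Eng 𝒞' L' ∧ Ref 𝒞 𝒞' ∧ bad 𝒞' w = ∅ := by
  intro D
  induction D with
  | zero =>
    intro c 𝒞 L h hD _
    refine ⟨𝒞, L, h, Ref.refl _, ?_⟩
    rw [Set.eq_empty_iff_forall_notMem]
    rintro ⟨a, a'⟩ hx
    have h1 := hD _ hx
    obtain ⟨-, -, -, -, -, -, ha, ha'⟩ := hx
    have ha : 0 < a ⬝ᵥ w := ha
    have ha' : a' ⬝ᵥ w < 0 := ha'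
    rw [dif] at h1
    have h1 : a ⬝ᵥ w - a' ⬝ᵥ w ≤ ((0 : ℕ) : ℤ) := h1
    push_cast at h1
    omega
  | succ D ihD =>
    intro c
    induction c with
    | zero =>
      intro 𝒞 L h hD hc
      have hfin : {x ∈ bad 𝒞 w | dif w x = ((D + 1 : ℕ) : ℤ)}.Finite :=
        (finite_bad h.fin w).subset fun x hx => hx.1
      have h0 : {x ∈ bad 𝒞 w | dif w x = ((D + 1 : ℕ) : ℤ)} = ∅ :=
        (Set.ncard_eq_zero hfin).mp (by omega)
      refine ihD _ 𝒞 L h (fun x hx => ?_) le_rfl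
      have h1 := hD x hx
      rcases eq_or_lt_of_le h1 with h2 | h2
      · have : x ∈ {x ∈ bad 𝒞 w | dif w x = ((D + 1 : ℕ) : ℤ)} := ⟨hx, h2⟩
        rw [h0] at this
        exact this.elim
      · push_cast at h2
        omega
    | succ c ihc =>
      intro 𝒞 L h hD hc
      by_cases hex : ∃ x ∈ bad 𝒞 w, dif w x = ((D + 1 : ℕ) : ℤ)
      · obtain ⟨⟨r, r'⟩, hx, hdx⟩ := hex
        obtain ⟨N, hN⟩ := exists_bd h.fin
        have h' := eng_star (r := r) (r' := r') h hN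
        have hbs := bad_star (N := N) h hD hx
        have hD' : ∀ x ∈ bad (star N r r' 𝒞) w, dif w x ≤ ((D + 1 : ℕ) : ℤ) := by
          intro x hx
          rcases hbs x hx with h1 | h1
          · exact hD x h1.1
          · exact h1.le
        have hfin : {x ∈ bad 𝒞 w | dif w x = ((D + 1 : ℕ) : ℤ)}.Finite :=
          (finite_bad h.fin w).subset fun x hx => hx.1
        have hlt : {x ∈ bad (star N r r' 𝒞) w | dif w x = ((D + 1 : ℕ) : ℤ)}.ncard <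
            {x ∈ bad 𝒞 w | dif w x = ((D + 1 : ℕ) : ℤ)}.ncard := by
          apply Set.ncard_lt_ncard _ hfin
          refine ⟨?_, fun hsub => ?_⟩
          · rintro x ⟨hx1, hx2⟩
            rcases hbs x hx1 with h1 | h1
            · exact ⟨h1.1, hx2⟩
            · exact absurd hx2 h1.ne
          · have h1 := hsub ⟨hx, hdx⟩
            rcases hbs _ h1.1 with h2 | h2
            · exact h2.2 rfl
            · exact absurd h1.2 h2.ne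
        obtain ⟨𝒞', L', h1, h2, h3⟩ := ihc _ _ h' hD' (by omega)
        exact ⟨𝒞', L', h1, (ref_star N r r' 𝒞).trans h2, h3⟩
      · push Not at hex
        refine ihD _ 𝒞 L h (fun x hx => ?_) le_rfl
        have h1 := hD x hx
        have h2 := hex x hx
        have h3 : dif w x < ((D + 1 : ℕ) : ℤ) := lt_of_le_of_ne h1 h2
        push_cast at h3
        omega

theorem exists_sgn' (w : ι → ℤ) {𝒞 : Set (Cone ι)} {L : List (Finset (ι → ℤ))} (h : Eng 𝒞 L) :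
    ∃ 𝒞' L', Eng 𝒞' L' ∧ Ref 𝒞 𝒞' ∧ ∀ C ∈ 𝒞', Sgn C w := by
  obtain ⟨M, hM⟩ := ((finite_bad h.fin w).image (dif w)).bddAbove
  obtain ⟨𝒞', L', h1, h2, h3⟩ := exists_sgn w M.toNat _ 𝒞 L h (fun x hx => by
    have := hM ⟨x, hx, rfl⟩
    exact this.trans (Int.self_le_toNat M)) le_rfl
  exact ⟨𝒞', L', h1, h2, sgn_of_bad h3⟩

/-- **The toric engine.** -/
theorem exists_eng (W : Finset (ι → ℤ)) :
    ∃ (𝒞 : Set (Cone ι)) (L : List (Finset (ι → ℤ))), Eng 𝒞 L ∧ ∀ C ∈ 𝒞, ∀ w ∈ W, Sgn C w := by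
  classical
  induction W using Finset.induction_on with
  | empty => exact ⟨_, _, eng_init, fun C _ w hw => by simp at hw⟩
  | insert a W ha ih =>
    obtain ⟨𝒞, L, h, hs⟩ := ih
    obtain ⟨𝒞', L', h', hr, hs'⟩ := exists_sgn' a h
    refine ⟨𝒞', L', h', fun C hC w hw => ?_⟩
    rcases Finset.mem_insert.mp hw with rfl | hw
    · exact hs' C hC
    · exact Sgn.of_ref hr (fun C hC => hs C hC w hw) C hC

end Pool.Agent.H96.W
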