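import Pool.Agent.H96.W.Glob

/-!
# The finite sets attached to the global data
-/

set_option autoImplicit false
set_option linter.unusedSectionVars false

namespace Pool.Agent.H96.W

open MvPolynomial IsLocalRing Pool.Agent.H96.Reg Pool.Agent.H96.VL

variable {p : ℕ} [Fact p.Prime] {K : Type} [Field K] [Algebra (ZMod p) K] {I : Type}
    [Fintype I] [DecidableEq I] {F : I → Type} [∀ i, Field (F i)] [∀ i, Algebra (ZMod p) (F i)]
    [∀ i, Algebra (F i) K] [∀ i, IsScalarTower (ZMod p) (F i) K] {m : ℕ}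

namespace GData

variable (G : GData p K I F m)

/-- The bound for the pole orders. -/
def M : ℕ := Finset.univ.sup fun i => (G.cd i).M

theorem le_M (i : I) : (G.cd i).M ≤ G.M := Finset.le_sup (f := fun i => (G.cd i).M) (Finset.mem_univ i)

/-- The factor of the twist. -/
noncomputable def xf (i : I) (b : Bool) : F i := cond b ((G.cd i).x ^ (G.cd i).N) 1

/-- The gauge. -/
noncomputable def gf (i : I) (b : Bool) : F i := cond b (G.cd i).g1 (G.cd i).g0

noncomputable def gs (σ : I → Bool) (i : I) : K := algebraMap (F i) K (G.gf i (σ i))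

noncomputable def xs (σ : I → Bool) : K := ∏ i, algebraMap (F i) K (G.xf i (σ i))

noncomputable def zs (σ : I → Bool) : (Fin m → ZMod p) →ₗ[ZMod p] K := zlin G.D G.z (G.gs σ)

variable [DecidableEq K]

/-- The sets for the poles. -/
noncomputable def sC (c : Fin m → ZMod p) : Finset K :=
  (Finset.univ.image G.xs) ∪ Finset.univ.image fun σ => G.xs σ * G.zs σ c

/-- The sets of the coordinates. -/
noncomputable def ss : I ⊕ (Fin m → ZMod p) → Finset K :=
  Sum.elim (fun i => (G.cd i).T.image (algebraMap (F i) K)) G.sC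

/-- The twists. -/
noncomputable def sL : I ⊕ (Fin m → ZMod p) → Finset K :=
  Sum.elim (fun i => Finset.univ.image fun b => algebraMap (F i) K (G.xf i b))
    fun _ => Finset.univ.image G.xs

def sε : I ⊕ (Fin m → ZMod p) → ℤ := Sum.elim (fun _ => 1) fun _ => -1

theorem sε_or (α : I ⊕ (Fin m → ZMod p)) : (sε α : ℤ) = 1 ∨ (sε α : ℤ) = -1 := by
  rcases α with i | c
  · exact Or.inl rfl
  · exact Or.inr rfl

omit [DecidableEq K] in
theorem xf_ne (i : I) (b : Bool) : G.xf i b ≠ 0 := by
  cases b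
  · exact one_ne_zero
  · exact pow_ne_zero _ (G.cd i).x0

omit [DecidableEq K] in
theorem xs_ne (σ : I → Bool) : G.xs σ ≠ 0 :=
  Finset.prod_ne_zero_iff.mpr fun i _ => (map_ne_zero _).mpr (G.xf_ne i _)

/-- The chart of a valuation. -/
noncomputable def σV (V : ValuationSubring K) (i : I) : Bool :=
  open Classical in if (WV V (F i)).valuation (G.cd i).x ≤ 1 then false else true

omit [DecidableEq K] in
theorem xf_σV (V : ValuationSubring K) (i : I) :
    G.xf i (G.σV V i) = tw (G.cd i).x (G.cd i).N (WV V (F i)) := by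
  by_cases h : (WV V (F i)).valuation (G.cd i).x ≤ 1
  · rw [σV, if_pos h, tw_le h]; rfl
  · rw [σV, if_neg h, tw_gt h]; rfl

omit [DecidableEq K] in
theorem gf_σV (V : ValuationSubring K) (i : I) :
    G.gf i (G.σV V i) = gg (G.cd i).x (G.cd i).g0 (G.cd i).g1 (WV V (F i)) := by
  by_cases h : (WV V (F i)).valuation (G.cd i).x ≤ 1
  · rw [σV, if_pos h, gg_le h]; rfl
  · rw [σV, if_neg h, gg_gt h]; rfl

omit [DecidableEq K] in
/-- The quotients of the twists. -/
theorem ratio (V : ValuationSubring K) (i : I) (b : Bool) :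
    (WV V (F i)).valuation (G.xf i b / G.xf i (G.σV V i)) ≤ 1 ∧
      (WV V (F i)).valuation (G.xf i b / G.xf i (G.σV V i) *
        (G.gf i (G.σV V i) - G.gf i b)) ≤ 1 := by
  set W := WV V (F i) with hW
  by_cases h : W.valuation (G.cd i).x ≤ 1
  · have hσ : G.σV V i = false := if_pos h
    rw [hσ]
    cases b
    · rw [div_self (G.xf_ne i _), sub_self, mul_zero]
      exact ⟨by rw [map_one], by rw [map_zero]; exact zero_le⟩
    · have h1 : G.xf i true / G.xf i false = (G.cd i).x ^ (G.cd i).N := div_one _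
      have h2 : G.gf i false - G.gf i true = -((G.cd i).g1 - (G.cd i).g0) := by
        show (G.cd i).g0 - (G.cd i).g1 = _
        ring
      rw [h1, h2, mul_neg, Valuation.map_neg]
      exact ⟨by rw [map_pow]; exact pow_le_one' h _, (G.cd i).h_le W h⟩
  · have hσ : G.σV V i = true := if_neg h
    rw [hσ]
    have h' := (not_le.mp h).le
    cases b
    · have h1 : G.xf i false / G.xf i true = 1 / (G.cd i).x ^ (G.cd i).N := rfl
      have h2 : G.gf i true - G.gf i false = (G.cd i).g1 - (G.cd i).g0 := rfl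
      rw [h1, h2, one_div, inv_mul_eq_div]
      refine ⟨?_, (G.cd i).h_gt W h'⟩
      rw [map_inv₀, map_pow]
      exact inv_le_one_of_one_le₀ (one_le_pow₀ h')
    · rw [div_self (G.xf_ne i _), sub_self, mul_zero]
      exact ⟨by rw [map_one], by rw [map_zero]; exact zero_le⟩

/-- The subring contains the valuation rings of the curves, and the poles are inverted. -/
structure Base (V : ValuationSubring K) (R : Subring K) : Prop where
  loc : VLocal V R
  b1 : ∀ i (w : F i), (WV V (F i)).valuation w ≤ 1 → algebraMap (F i) K w ∈ R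
  b2 : ∀ c, ¬ V.valuation (G.zs (G.σV V) c) ≤ 1 → (G.zs (G.σV V) c)⁻¹ ∈ R
  b3 : ∀ c, V.valuation (G.zs (G.σV V) c) ≤ 1 → G.zs (G.σV V) c ∈ R

/-- The generator of the set for the poles. -/
noncomputable def gC (V : ValuationSubring K) (c : Fin m → ZMod p) : K :=
  open Classical in G.xs (G.σV V) * if V.valuation (G.zs (G.σV V) c) ≤ 1 then 1 else
    G.zs (G.σV V) c

omit [DecidableEq K] in
theorem zmod_mem_R (R : Subring K) (a : ZMod p) : algebraMap (ZMod p) K a ∈ R := by
  obtain ⟨n, hn⟩ := algebraMap_eq_intCast (zmod_surj p) a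
  rw [hn]
  exact intCast_mem R n

variable {G} {V : ValuationSubring K} {R : Subring K}

omit [DecidableEq K] in
theorem xs_div_mem (h1 : ∀ i (w : F i), (WV V (F i)).valuation w ≤ 1 → algebraMap (F i) K w ∈ R)
    (σ : I → Bool) : G.xs σ / G.xs (G.σV V) ∈ R := by
  have h2 : G.xs σ / G.xs (G.σV V) =
      ∏ i, algebraMap (F i) K (G.xf i (σ i) / G.xf i (G.σV V i)) := by
    rw [xs, xs, ← Finset.prod_div_distrib]
    exact Finset.prod_congr rfl fun i _ => by rw [map_div₀]
  rw [h2]
  exact Subring.prod_mem _ fun i _ => h1 i _ (G.ratio V i _).1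

omit [DecidableEq K] in
theorem xs_diff_mem (h1 : ∀ i (w : F i), (WV V (F i)).valuation w ≤ 1 → algebraMap (F i) K w ∈ R)
    (σ : I → Bool) (c : Fin m → ZMod p) :
    G.xs σ / G.xs (G.σV V) * (G.zs σ c - G.zs (G.σV V) c) ∈ R := by
  have h2 : G.zs σ c - G.zs (G.σV V) c =
      ∑ i, algebraMap (ZMod p) K (c ⬝ᵥ G.D i) * (G.gs (G.σV V) i - G.gs σ i) := by
    rw [zs, zs, zlin_diff G.D G.z (G.gs σ) (G.gs (G.σV V)) c]
    ring
  rw [h2, Finset.mul_sum]
  refine Subring.sum_mem _ fun i _ => ?_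
  have h3 : G.xs σ / G.xs (G.σV V) =
      algebraMap (F i) K (G.xf i (σ i) / G.xf i (G.σV V i)) *
        ∏ j ∈ Finset.univ.erase i, algebraMap (F j) K (G.xf j (σ j) / G.xf j (G.σV V j)) := by
    rw [Finset.mul_prod_erase Finset.univ
      (fun j => algebraMap (F j) K (G.xf j (σ j) / G.xf j (G.σV V j))) (Finset.mem_univ i),
      xs, xs, ← Finset.prod_div_distrib]
    exact Finset.prod_congr rfl fun i _ => by rw [map_div₀]
  have h4 : G.xs σ / G.xs (G.σV V) *
      (algebraMap (ZMod p) K (c ⬝ᵥ G.D i) * (G.gs (G.σV V) i - G.gs σ i)) =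
      algebraMap (ZMod p) K (c ⬝ᵥ G.D i) *
        (algebraMap (F i) K (G.xf i (σ i) / G.xf i (G.σV V i) *
          (G.gf i (G.σV V i) - G.gf i (σ i))) *
        ∏ j ∈ Finset.univ.erase i, algebraMap (F j) K (G.xf j (σ j) / G.xf j (G.σV V j))) := by
    rw [h3, map_mul, map_sub]
    show _ = algebraMap (ZMod p) K (c ⬝ᵥ G.D i) *
        (algebraMap (F i) K (G.xf i (σ i) / G.xf i (G.σV V i)) * (G.gs (G.σV V) i - G.gs σ i) *
        ∏ j ∈ Finset.univ.erase i, algebraMap (F j) K (G.xf j (σ j) / G.xf j (G.σV V j)))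
    ring
  rw [h4]
  exact R.mul_mem (zmod_mem_R R _) (R.mul_mem (h1 i _ (G.ratio V i _).2)
    (Subring.prod_mem _ fun j _ => h1 j _ (G.ratio V j _).1))

/-- The set for the poles is principal. -/
theorem gen_sC (h : G.Base V R) (c : Fin m → ZMod p) : Gen R (G.sC c) (G.gC V c) := by
  classical
  have hx0 := G.xs_ne (G.σV V)
  by_cases hc : V.valuation (G.zs (G.σV V) c) ≤ 1
  · have hg : G.gC V c = G.xs (G.σV V) := by rw [gC, if_pos hc, mul_one]
    rw [hg]
    refine ⟨hx0, fun g hg => ?_, G.xs (G.σV V), ?_, by rw [div_self hx0]; exact R.one_mem, hx0⟩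
    · rcases Finset.mem_union.mp hg with hg | hg
      · obtain ⟨σ, -, rfl⟩ := Finset.mem_image.mp hg
        exact xs_div_mem h.b1 σ
      · obtain ⟨σ, -, rfl⟩ := Finset.mem_image.mp hg
        have h1 : G.xs σ * G.zs σ c / G.xs (G.σV V) =
            G.xs σ / G.xs (G.σV V) * (G.zs σ c - G.zs (G.σV V) c) +
              G.xs σ / G.xs (G.σV V) * G.zs (G.σV V) c := by ring
        rw [h1]
        exact R.add_mem (xs_diff_mem h.b1 σ c) (R.mul_mem (xs_div_mem h.b1 σ) (h.b3 c hc))
    · exact Finset.mem_union_left _ (Finset.mem_image_of_mem _ (Finset.mem_univ _))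
  · have hz0 : G.zs (G.σV V) c ≠ 0 := by
      intro h0
      rw [h0, map_zero] at hc
      exact hc zero_le
    have hg : G.gC V c = G.xs (G.σV V) * G.zs (G.σV V) c := by rw [gC, if_neg hc]
    have hne := mul_ne_zero hx0 hz0
    rw [hg]
    refine ⟨hne, fun g hg => ?_, G.xs (G.σV V) * G.zs (G.σV V) c, ?_,
      by rw [div_self hne]; exact R.one_mem, hne⟩
    · rcases Finset.mem_union.mp hg with hg | hg
      · obtain ⟨σ, -, rfl⟩ := Finset.mem_image.mp hg
        rw [div_mul_eq_div_div, div_eq_mul_inv _ (G.zs (G.σV V) c)]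
        exact R.mul_mem (xs_div_mem h.b1 σ) (h.b2 c hc)
      · obtain ⟨σ, -, rfl⟩ := Finset.mem_image.mp hg
        have h1 : G.xs σ * G.zs σ c / (G.xs (G.σV V) * G.zs (G.σV V) c) =
            G.xs σ / G.xs (G.σV V) * (G.zs σ c - G.zs (G.σV V) c) * (G.zs (G.σV V) c)⁻¹ +
              G.xs σ / G.xs (G.σV V) := by
          field_simp
          ring
        rw [h1]
        exact R.add_mem (R.mul_mem (xs_diff_mem h.b1 σ c) (h.b2 c hc)) (xs_div_mem h.b1 σ)
    · exact Finset.mem_union_right _ (Finset.mem_image.mpr ⟨G.σV V, Finset.mem_univ _, rfl⟩)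

theorem gen_sLC (h1 : ∀ i (w : F i), (WV V (F i)).valuation w ≤ 1 → algebraMap (F i) K w ∈ R) :
    Gen R (Finset.univ.image G.xs) (G.xs (G.σV V)) := by
  have hx0 := G.xs_ne (G.σV V)
  refine ⟨hx0, fun g hg => ?_, G.xs (G.σV V), Finset.mem_image_of_mem _ (Finset.mem_univ _),
    by rw [div_self hx0]; exact R.one_mem, hx0⟩
  obtain ⟨σ, -, rfl⟩ := Finset.mem_image.mp hg
  exact xs_div_mem h1 σ

theorem gen_sLI (h1 : ∀ i (w : F i), (WV V (F i)).valuation w ≤ 1 → algebraMap (F i) K w ∈ R)
    (i : I) : Gen R (Finset.univ.image fun b => algebraMap (F i) K (G.xf i b))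
      (algebraMap (F i) K (G.xf i (G.σV V i))) := by
  have hx0 : algebraMap (F i) K (G.xf i (G.σV V i)) ≠ 0 := (map_ne_zero _).mpr (G.xf_ne i _)
  refine ⟨hx0, fun g hg => ?_, _, Finset.mem_image_of_mem _ (Finset.mem_univ (G.σV V i)),
    by rw [div_self hx0]; exact R.one_mem, hx0⟩
  obtain ⟨b, -, rfl⟩ := Finset.mem_image.mp hg
  rw [← map_div₀]
  exact h1 i _ (G.ratio V i b).1

/-- Base for the valuation ring. -/
theorem base_self (V : ValuationSubring K) : G.Base V V.toSubring where
  loc := ⟨fun x hx => (V.valuation_le_one_iff x).mpr hx, fun x hx h1 => by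
    have h2 : V.valuation x⁻¹ = 1 := by rw [map_inv₀, h1, inv_one]
    exact (V.valuation_le_one_iff _).mp h2.le⟩
  b1 := fun i w hw => (V.valuation_le_one_iff _).mp (wv_le_one.mp hw)
  b2 := fun c hc => by
    refine (V.valuation_le_one_iff _).mp ?_
    rw [map_inv₀]
    exact inv_le_one_of_one_le₀ (not_le.mp hc).le
  b3 := fun c hc => (V.valuation_le_one_iff _).mp hc

/-- Detection. -/
theorem base_of_prin (hR : VLocal V R)
    (h1 : ∀ i, ∀ s ∈ (G.cd i).base, Prin R (s.image (algebraMap (F i) K)))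
    (h2 : ∀ c, Prin R (G.sC c)) : G.Base V R := by
  classical
  have hb1 : ∀ i (w : F i), (WV V (F i)).valuation w ≤ 1 → algebraMap (F i) K w ∈ R :=
    fun i w hw => (G.cd i).detect (WV V (F i)) (R.comap (algebraMap (F i) K)) (vlocal_comap hR)
      (fun s hs => prin_comap (h1 i s hs)) w hw
  have hx0 := G.xs_ne (G.σV V)
  have key : ∀ c, Gen R (G.sC c) (G.gC V c) := by
    intro c
    obtain ⟨T, hT⟩ := h2 c
    have h3 := gen_sC (base_self (G := G) V) c
    refine hT.of_max hR ?_ fun g hg => h3.val_le (base_self (G := G) V).loc hg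
    rw [gC]
    split_ifs with hc
    · rw [mul_one]
      exact Finset.mem_union_left _ (Finset.mem_image_of_mem _ (Finset.mem_univ _))
    · exact Finset.mem_union_right _ (Finset.mem_image.mpr ⟨G.σV V, Finset.mem_univ _, rfl⟩)
  refine ⟨hR, hb1, fun c hc => ?_, fun c hc => ?_⟩
  · have hg : G.gC V c = G.xs (G.σV V) * G.zs (G.σV V) c := by rw [gC, if_neg hc]
    have h3 := (key c).mem (G.xs (G.σV V)) (Finset.mem_union_left _
      (Finset.mem_image_of_mem _ (Finset.mem_univ _)))
    rw [hg, div_mul_eq_div_div, div_self hx0, one_div] at h3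
    exact h3
  · have hg : G.gC V c = G.xs (G.σV V) := by rw [gC, if_pos hc, mul_one]
    have h3 := (key c).mem (G.xs (G.σV V) * G.zs (G.σV V) c) (Finset.mem_union_right _
      (Finset.mem_image.mpr ⟨G.σV V, Finset.mem_univ _, rfl⟩))
    rw [hg, mul_div_cancel_left₀ _ hx0] at h3
    exact h3

end GData

end Pool.Agent.H96.W
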