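import Pool.Agent.H96.W.Glob2

/-!
# The local data of the global data
-/

set_option autoImplicit false
set_option linter.unusedSectionVars false

namespace Pool.Agent.H96.W

open MvPolynomial IsLocalRing Pool.Agent.H96.Reg Pool.Agent.H96.VL

variable {p : ℕ} [Fact p.Prime] {K : Type} [Field K] [Algebra (ZMod p) K] {I : Type}
    [Fintype I] [DecidableEq I] {F : I → Type} [∀ i, Field (F i)] [∀ i, Algebra (ZMod p) (F i)]
    [∀ i, Algebra (F i) K] [∀ i, IsScalarTower (ZMod p) (F i) K] {m : ℕ}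

/-- The local data of the global data. -/
structure LG (G : GData p K I F m) (V : ValuationSubring K) where
  L : LData p V I m G.D G.M
  z_eq : L.z = G.zs (G.σV V)
  tF : ∀ i, F i
  t_eq : ∀ i, L.t i = algebraMap (F i) K (tF i)
  t_le : ∀ i, (WV V (F i)).valuation (tF i) ≤ 1
  T_le : ∀ i, ∀ g ∈ (G.cd i).T, (WV V (F i)).valuation g ≤
    (WV V (F i)).valuation (tF i * G.xf i (G.σV V i))
  T_eq : ∀ i, ∃ g ∈ (G.cd i).T, (WV V (F i)).valuation g =
    (WV V (F i)).valuation (tF i * G.xf i (G.σV V i))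
  yF : ∀ i, Fin (L.n i + 1) → F i
  y_eq : ∀ i b, L.y i b = algebraMap (F i) K (yF i b)
  y_le : ∀ i b, (WV V (F i)).valuation (yF i b) ≤ 1
  gen : ∀ i (w : F i), (WV V (F i)).valuation w ≤ 1 →
    ∃ a s : MvPolynomial (Fin (L.n i + 1)) (ZMod p), V.valuation (aeval (L.y i) s) = 1 ∧
      algebraMap (F i) K w = aeval (L.y i) a / aeval (L.y i) s

theorem aeval_algebraMap' {F₀ : Type} [Field F₀] [Algebra (ZMod p) F₀] [Algebra F₀ K]
    [IsScalarTower (ZMod p) F₀ K] {n : ℕ} (y : Fin n → F₀) (P : MvPolynomial (Fin n) (ZMod p)) :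
    aeval (fun b => algebraMap F₀ K (y b)) P = algebraMap F₀ K (aeval y P) := by
  exact (MvPolynomial.aeval_algebraMap_apply K y P)

theorem nonempty_lg (G : GData p K I F m) (V : ValuationSubring K) : Nonempty (LG G V) := by
  classical
  -- the data of the curves
  have hex : ∀ i, ∃ (τ : F i) (e : ℕ) (n : ℕ) (y : Fin (n + 1) → F i)
      (Q : Fin (n + 1) → MvPolynomial (Fin (n + 1)) (ZMod p)) (l u : Fin (n + 1)),
      (τ = 1 ∨ Unif (WV V (F i)) τ) ∧
      (∀ g ∈ (G.cd i).T, (WV V (F i)).valuation g ≤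
        (WV V (F i)).valuation (τ * G.xf i (G.σV V i))) ∧
      (∃ g ∈ (G.cd i).T, (WV V (F i)).valuation g =
        (WV V (F i)).valuation (τ * G.xf i (G.σV V i))) ∧
      e ≤ G.M ∧ Pres (WV V (F i)) n y Q l ∧ (Unif (WV V (F i)) τ → y l = τ) ∧
      y u = (G.f i - (G.gf i (G.σV V i) ^ p - G.gf i (G.σV V i))) * τ ^ e ∧
      (e ≠ 0 → ¬ p ∣ e ∧ (WV V (F i)).valuation (y u) = 1 ∧ Unif (WV V (F i)) τ) := by
    intro i
    obtain ⟨τ, h1, h2, h3, h4⟩ := (G.cd i).unif (WV V (F i))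
    rw [← G.gf_σV V i] at h4
    rw [← G.xf_σV V i] at h2 h3
    obtain ⟨e, he1, he2, he3⟩ : ∃ e : ℕ, e ≤ G.M ∧
        (WV V (F i)).valuation ((G.f i - (G.gf i (G.σV V i) ^ p - G.gf i (G.σV V i))) * τ ^ e) ≤ 1 ∧
        (e ≠ 0 → ¬ p ∣ e ∧ (WV V (F i)).valuation
          ((G.f i - (G.gf i (G.σV V i) ^ p - G.gf i (G.σV V i))) * τ ^ e) = 1 ∧
          Unif (WV V (F i)) τ) := by
      rcases h4 with h4 | ⟨h4, e, h5, h6, h7⟩
      · exact ⟨0, Nat.zero_le _, by rw [pow_zero, mul_one]; exact h4, fun h => absurd rfl h⟩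
      · exact ⟨e, h5.trans (G.le_M i), h7.le, fun _ => ⟨h6, h7, h4⟩⟩
    obtain ⟨n, y, Q, l, hP, hE, hl⟩ := (G.cd i).pres (WV V (F i)) τ h1
      {(G.f i - (G.gf i (G.σV V i) ^ p - G.gf i (G.σV V i))) * τ ^ e} (by
        intro w hw
        rw [Finset.mem_singleton] at hw
        rw [hw]
        exact he2)
    obtain ⟨u, hu⟩ := hE _ (Finset.mem_singleton_self _)
    refine ⟨τ, e, n, y, Q, l, u, h1, h2, h3, he1, hP, hl, hu, ?_⟩
    rw [hu]
    exact he3
  choose τ e n y Q l u h1 h2 h3 he hP hl hu he3 using hex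
  have hτ1 : ∀ i, (WV V (F i)).valuation (τ i) ≤ 1 := by
    intro i
    rcases h1 i with h | h
    · rw [h, map_one]
    · exact h.lt.le
  have hτ0 : ∀ i, τ i ≠ 0 := by
    intro i
    rcases h1 i with h | h
    · rw [h]; exact one_ne_zero
    · exact h.t0
  refine ⟨⟨⟨n, fun i b => algebraMap (F i) K (y i b), Q, l, u, e, fun i => algebraMap (F i) K (τ i),
    G.zs (G.σV V), ?_, ?_, ?_, ?_, ?_, he, ?_, ?_⟩, rfl, τ, fun i => rfl, hτ1, h2, h3, y,
    fun i b => rfl, ?_, ?_⟩⟩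
  · exact fun i b => wv_le_one.mp ((hP i).vy b)
  · exact fun i => (hP i).G0
  · intro i k
    rw [aeval_algebraMap', (hP i).rel, map_zero]
  · intro i
    rw [aeval_algebraMap']
    exact wv_eq_one.mp (hP i).det
  · intro i
    rcases h1 i with h | h
    · left
      rw [h, map_one]
    · right
      exact ⟨wv_lt_one.mp h.lt, (map_ne_zero _).mpr h.t0, by rw [hl i h]⟩
  · intro i hi
    obtain ⟨h4, h5, h6⟩ := he3 i hi
    refine ⟨h4, wv_eq_one.mp h5, ?_⟩
    intro h7
    have h8 : τ i = 1 := by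
      apply (algebraMap (F i) K).injective
      rw [h7, map_one]
    rw [h8] at h6
    exact not_unif_one h6
  · intro c
    have h4 := zlin_AS G.D G.z (G.gs (G.σV V)) (fun i => algebraMap (F i) K (G.f i)) G.AS c
    refine h4.trans (Finset.sum_congr rfl fun i _ => ?_)
    have h5 : algebraMap (F i) K (y i (u i)) * (algebraMap (F i) K (τ i) ^ e i)⁻¹ =
        algebraMap (F i) K (G.f i) - (G.gs (G.σV V) i ^ p - G.gs (G.σV V) i) := by
      rw [hu i, map_mul, map_sub, map_sub, map_pow, map_pow]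
      have h6 : algebraMap (F i) K (τ i) ^ e i ≠ 0 := pow_ne_zero _ ((map_ne_zero _).mpr (hτ0 i))
      rw [mul_assoc, mul_inv_cancel₀ h6, mul_one]
      rfl
    rw [h5]
  · exact fun i b => (hP i).vy b
  · intro i w hw
    obtain ⟨a, s, h4, h5⟩ := (hP i).gen w hw
    refine ⟨a, s, ?_, ?_⟩
    · show V.valuation (aeval (fun b => algebraMap (F i) K (y i b)) s) = 1
      rw [aeval_algebraMap']
      exact wv_eq_one.mp h4
    · show _ = aeval (fun b => algebraMap (F i) K (y i b)) a /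
        aeval (fun b => algebraMap (F i) K (y i b)) s
      rw [aeval_algebraMap', aeval_algebraMap', ← map_div₀, h5]

end Pool.Agent.H96.W
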