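import Pool.Agent.H96.W.Glob3

/-!
# The main theorem on models of quotients of products of curves
-/

set_option autoImplicit false
set_option linter.unusedSectionVars false

namespace Pool.Agent.H96.W

open MvPolynomial IsLocalRing Pool.Agent.H96.Reg Pool.Agent.H96.VL
open scoped Pointwise

variable {p : ℕ} [Fact p.Prime] {K : Type} [Field K] [Algebra (ZMod p) K] {I : Type}
    [Fintype I] [DecidableEq I] {F : I → Type} [∀ i, Field (F i)] [∀ i, Algebra (ZMod p) (F i)]
    [∀ i, Algebra (F i) K] [∀ i, IsScalarTower (ZMod p) (F i) K] {m : ℕ}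

variable {G : GData p K I F m} {V : ValuationSubring K} {R : Subring K}

/-- The values of the twists. -/
noncomputable def GData.sl (G : GData p K I F m) (V : ValuationSubring K) :
    I ⊕ (Fin m → ZMod p) → K :=
  Sum.elim (fun i => algebraMap (F i) K (G.xf i (G.σV V i))) fun _ => G.xs (G.σV V)

section Gens

variable [DecidableEq K]

omit [DecidableEq K] in
/-- Quotients of elements of the curve. -/
theorem div_mem_base (h : G.Base V R) {i : I} {a b : F i} (hb : b ≠ 0)
    (hab : (WV V (F i)).valuation a ≤ (WV V (F i)).valuation b) :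
    algebraMap (F i) K a / algebraMap (F i) K b ∈ R := by
  rw [← map_div₀]
  apply h.b1
  have h1 : 0 < (WV V (F i)).valuation b := by rw [Valuation.pos_iff]; exact hb
  rw [map_div₀]
  exact (div_le_one₀ h1).mpr hab

theorem gen_ss (lg : LG G V) (h : G.Base V R) (α : I ⊕ (Fin m → ZMod p)) :
    Gen R (G.ss α) (G.sl V α * lg.L.τ α ^ (GData.sε α : ℤ)) := by
  rcases α with i | c
  · have h0 : lg.tF i * G.xf i (G.σV V i) ≠ 0 := by
      refine mul_ne_zero ?_ (G.xf_ne i _)
      intro h0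
      have h1 := lg.L.t_ne_zero i
      rw [lg.t_eq, h0, map_zero] at h1
      exact h1 rfl
    have h1 : G.sl V (Sum.inl i) * lg.L.τ (Sum.inl i) ^ (GData.sε (Sum.inl i : I ⊕ (Fin m → ZMod p)) : ℤ) =
        algebraMap (F i) K (lg.tF i * G.xf i (G.σV V i)) := by
      show algebraMap (F i) K (G.xf i (G.σV V i)) * lg.L.t i ^ (1 : ℤ) = _
      rw [zpow_one, lg.t_eq, map_mul, mul_comm]
    rw [h1]
    show Gen R ((G.cd i).T.image (algebraMap (F i) K)) _
    obtain ⟨g, hg, hge⟩ := lg.T_eq i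
    have hg0 : g ≠ 0 := by
      rintro rfl
      exact (G.cd i).zero_T hg
    refine ⟨(map_ne_zero _).mpr h0, fun g' hg' => ?_, algebraMap (F i) K g,
      Finset.mem_image_of_mem _ hg, div_mem_base h hg0 hge.ge, (map_ne_zero _).mpr hg0⟩
    obtain ⟨w, hw, rfl⟩ := Finset.mem_image.mp hg'
    exact div_mem_base h h0 (lg.T_le i w hw)
  · have h1 : G.sl V (Sum.inr c) * lg.L.τ (Sum.inr c) ^ (GData.sε (Sum.inr c : I ⊕ (Fin m → ZMod p)) : ℤ) =
        G.gC V c := by
      show G.xs (G.σV V) * lg.L.τ (Sum.inr c) ^ (-1 : ℤ) = _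
      rw [zpow_neg_one, GData.gC]
      by_cases hc : c ∈ lg.L.C1
      · rw [lg.L.τ_inr_of_mem hc, inv_one, if_pos (by rw [← lg.z_eq]; exact hc)]
      · rw [lg.L.τ_inr_of_notMem hc, inv_inv, if_neg (by rw [← lg.z_eq]; exact hc), lg.z_eq]
    rw [h1]
    exact GData.gen_sC h c

theorem gen_sL (h : G.Base V R) (α : I ⊕ (Fin m → ZMod p)) : Gen R (G.sL α) (G.sl V α) := by
  rcases α with i | c
  · exact GData.gen_sLI h.b1 i
  · exact GData.gen_sLC h.b1

/-- Principality of the basic sets. -/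
theorem prin_base (h : G.Base V R) (i : I) {s : Finset (F i)} (hs : s ∈ (G.cd i).base) :
    Prin R (s.image (algebraMap (F i) K)) := by
  obtain ⟨h0, hne⟩ := (G.cd i).zero_base s hs
  obtain ⟨g, hg, hmax⟩ := Finset.exists_max_image s (fun w => (WV V (F i)).valuation w) hne
  have hg0 : g ≠ 0 := by rintro rfl; exact h0 hg
  have hg0' : algebraMap (F i) K g ≠ 0 := (map_ne_zero _).mpr hg0
  refine ⟨algebraMap (F i) K g, hg0', fun g' hg' => ?_, algebraMap (F i) K g,
    Finset.mem_image_of_mem _ hg, by rw [div_self hg0']; exact R.one_mem, hg0'⟩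
  obtain ⟨w, hw, rfl⟩ := Finset.mem_image.mp hg'
  exact div_mem_base h hg0 (hmax w hw)

end Gens

theorem τ_mem (lg : LG G V) (h : G.Base V R) (α : I ⊕ (Fin m → ZMod p)) : lg.L.τ α ∈ R := by
  rcases α with i | c
  · rw [lg.L.τ_inl, lg.t_eq]
    exact h.b1 i _ (lg.t_le i)
  · by_cases hc : c ∈ lg.L.C1
    · rw [lg.L.τ_inr_of_mem hc]; exact R.one_mem
    · rw [lg.L.τ_inr_of_notMem hc, lg.z_eq]
      apply h.b2
      rw [← lg.z_eq]
      exact hc

/-- The ring of the chart. -/
theorem base_vloc (lg : LG G V) (S : EData lg.L) {C : Cone (I ⊕ (Fin m → ZMod p))} (hC : IsCone C)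
    (hb : ∀ j, V.valuation (mon lg.L.τ (C.b j)) ≤ 1) :
    G.Base V (vloc V (Algebra.adjoin ℤ
      (Set.range (Sum.elim (fun j => mon lg.L.τ (C.b j)) S.Y)))) := by
  set B := Algebra.adjoin ℤ (Set.range (Sum.elim (fun j => mon lg.L.τ (C.b j)) S.Y)) with hB
  have hR : VLocal V (vloc V B) := by
    apply vlocal_vloc
    apply adjoin_val_le
    rintro _ ⟨j | l, rfl⟩
    · exact hb j
    · exact S.vY l
  have hbR : ∀ j, mon lg.L.τ (C.b j) ∈ vloc V B := fun j =>
    subset_vloc (Algebra.subset_adjoin ⟨Sum.inl j, rfl⟩)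
  have hYR : ∀ l, S.Y l ∈ vloc V B := fun l =>
    subset_vloc (Algebra.subset_adjoin ⟨Sum.inr l, rfl⟩)
  have hpoly : ∀ i (P : MvPolynomial (Fin (lg.L.n i + 1)) (ZMod p)),
      aeval (lg.L.y i) P ∈ vloc V B := by
    intro i P
    induction P using MvPolynomial.induction_on with
    | C a => rw [aeval_C]; exact GData.zmod_mem_R _ a
    | add P Q hP hQ => rw [map_add]; exact Subring.add_mem _ hP hQ
    | mul_X P b hP => rw [map_mul, aeval_X]; exact Subring.mul_mem _ hP (hYR (Sum.inl ⟨i, b⟩))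
  refine ⟨hR, fun i w hw => ?_, fun c hc => ?_, fun c hc => ?_⟩
  · obtain ⟨a, s, h1, h2⟩ := lg.gen i w hw
    rw [h2]
    exact hR.div_mem (hpoly i a) (hpoly i s) h1
  · rw [← lg.z_eq] at hc ⊢
    have hc' : c ∉ lg.L.C1 := hc
    rw [← lg.L.τ_inr_of_notMem hc', ← mon_single (τ := lg.L.τ) (Sum.inr c)]
    refine hC.mem (Q := {u | mon lg.L.τ u ∈ vloc V B}) (fun u hu v hv => ?_) ?_ hbR (fun j => ?_)
    · show mon lg.L.τ (u + v) ∈ vloc V B
      rw [mon_add lg.L.τ_ne_zero]
      exact Subring.mul_mem _ hu hv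
    · show mon lg.L.τ 0 ∈ vloc V B
      rw [mon_zero]; exact Subring.one_mem _
    · rw [dotProduct_single_one]
      exact hC.pos _ _
  · rw [← lg.z_eq] at hc ⊢
    have hc' : c ∈ lg.L.C1 := hc
    rw [S.hlc c hc', map_sum]
    refine Subring.sum_mem _ fun l _ => ?_
    rw [map_smul, Algebra.smul_def]
    exact Subring.mul_mem _ (GData.zmod_mem_R _ _) (hYR (Sum.inr l))

/-- The field is generated by the chart. -/
theorem isAlgebraic_chart (lg : LG G V) (S : EData lg.L) {C : Cone (I ⊕ (Fin m → ZMod p))}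
    (hC : IsCone C) :
    Algebra.IsAlgebraic (Algebra.adjoin (ZMod p)
      (Set.range (Sum.elim (fun j => mon lg.L.τ (C.b j)) S.Y))) K := by
  set X := Set.range (Sum.elim (fun j => mon lg.L.τ (C.b j)) S.Y) with hX
  set E := (Subfield.closure X) with hE
  have hbR : ∀ j, mon lg.L.τ (C.b j) ∈ E := fun j => Subfield.subset_closure ⟨Sum.inl j, rfl⟩
  have hYR : ∀ l, S.Y l ∈ E := fun l => Subfield.subset_closure ⟨Sum.inr l, rfl⟩
  have hzm : ∀ a : ZMod p, algebraMap (ZMod p) K a ∈ E := fun a =>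
    GData.zmod_mem_R E.toSubring a
  have hpoly : ∀ i (P : MvPolynomial (Fin (lg.L.n i + 1)) (ZMod p)), aeval (lg.L.y i) P ∈ E := by
    intro i P
    induction P using MvPolynomial.induction_on with
    | C a => rw [aeval_C]; exact hzm a
    | add P Q hP hQ => rw [map_add]; exact E.add_mem hP hQ
    | mul_X P b hP => rw [map_mul, aeval_X]; exact E.mul_mem hP (hYR (Sum.inl ⟨i, b⟩))
  have hF1 : ∀ i (w : F i), (WV V (F i)).valuation w ≤ 1 → algebraMap (F i) K w ∈ E := by
    intro i w hw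
    obtain ⟨a, s, -, h2⟩ := lg.gen i w hw
    rw [h2]
    exact E.div_mem (hpoly i a) (hpoly i s)
  have hF : ∀ i (w : F i), algebraMap (F i) K w ∈ E := by
    intro i w
    rcases le_total ((WV V (F i)).valuation w) 1 with hw | hw
    · exact hF1 i w hw
    · have h1 : (WV V (F i)).valuation w⁻¹ ≤ 1 := by
        rw [map_inv₀]; exact inv_le_one_of_one_le₀ hw
      have h2 := E.inv_mem (hF1 i _ h1)
      rwa [map_inv₀, inv_inv] at h2
  have hz' : ∀ c, lg.L.z c ∈ E := by
    intro c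
    by_cases hc : c ∈ lg.L.C1
    · rw [S.hlc c hc, map_sum]
      refine sum_mem fun l _ => ?_
      rw [map_smul, Algebra.smul_def]
      exact E.mul_mem (hzm _) (hYR (Sum.inr l))
    · have h1 : lg.L.τ (Sum.inr c) ∈ E := by
        rw [← mon_single (τ := lg.L.τ) (Sum.inr c)]
        refine hC.mem (Q := {u | mon lg.L.τ u ∈ E}) (fun u hu v hv => ?_) ?_ hbR (fun j => ?_)
        · show mon lg.L.τ (u + v) ∈ E
          rw [mon_add lg.L.τ_ne_zero]
          exact E.mul_mem hu hv
        · show mon lg.L.τ 0 ∈ E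
          rw [mon_zero]; exact E.one_mem
        · rw [dotProduct_single_one]
          exact hC.pos _ _
      rw [lg.L.τ_inr_of_notMem hc] at h1
      have h2 := E.inv_mem h1
      rwa [inv_inv] at h2
  have hz : ∀ a, G.z a ∈ E := by
    intro a
    have h1 := zlin_apply G.D G.z (G.gs (G.σV V)) (Pi.single a 1)
    have h2 : ∑ b, algebraMap (ZMod p) K ((Pi.single a 1 : Fin m → ZMod p) b) * G.z b = G.z a := by
      rw [Finset.sum_eq_single a]
      · rw [Pi.single_eq_same, map_one, one_mul]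
      · intro b _ hb
        rw [Pi.single_eq_of_ne hb, map_zero, zero_mul]
      · intro h; exact absurd (Finset.mem_univ _) h
    rw [h2] at h1
    have h3 : G.z a = lg.L.z (Pi.single a 1) +
        ∑ i, algebraMap (ZMod p) K ((Pi.single a 1 : Fin m → ZMod p) ⬝ᵥ G.D i) *
          G.gs (G.σV V) i := by
      rw [lg.z_eq, GData.zs, h1]; ring
    rw [h3]
    exact E.add_mem (hz' _) (sum_mem fun i _ => E.mul_mem (hzm _) (hF i _))
  have htop := G.gen E.toSubring (fun x hx _ => E.inv_mem hx) hF hz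
  have hE' : E = ⊤ := by
    rw [eq_top_iff]
    intro x _
    have : x ∈ E.toSubring := by rw [htop]; trivial
    exact this
  have hcl : Subfield.closure (Algebra.adjoin ℤ X : Set K) = ⊤ := by
    rw [eq_top_iff, ← hE', hE]
    exact Subfield.closure_mono Algebra.subset_adjoin
  have hfr := isFractionRing_of_closure _ hcl
  have halg : Algebra.IsAlgebraic (Algebra.adjoin ℤ X) K :=
    IsLocalization.isAlgebraic K (nonZeroDivisors (Algebra.adjoin ℤ X))
  have hle : ∀ x ∈ Algebra.adjoin ℤ X, x ∈ Algebra.adjoin (ZMod p) X := by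
    intro x hx
    exact adjoin_le_of (R := (Algebra.adjoin (ZMod p) X).toSubring)
      (fun x hx => Algebra.subset_adjoin hx) x hx
  let j : Algebra.adjoin ℤ X →+* Algebra.adjoin (ZMod p) X :=
    { toFun := fun x => ⟨x, hle _ x.2⟩
      map_one' := rfl
      map_mul' := fun _ _ => rfl
      map_zero' := rfl
      map_add' := fun _ _ => rfl }
  let i1 : Algebra (Algebra.adjoin ℤ X) (Algebra.adjoin (ZMod p) X) := j.toAlgebra
  have i2 : IsScalarTower (Algebra.adjoin ℤ X) (Algebra.adjoin (ZMod p) X) K :=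
    IsScalarTower.of_algebraMap_eq fun x => rfl
  exact Algebra.IsAlgebraic.extendScalars (R := Algebra.adjoin ℤ X) (fun x y hxy =>
    Subtype.ext (congrArg (fun z : Algebra.adjoin (ZMod p) X => (z : K)) hxy))

/-- **Models of quotients of products of curves by vector groups.** -/
theorem GData.hasCharts (G : GData p K I F m)
    (htr : (Fintype.card I : Cardinal.{0}) ≤ Algebra.trdeg (ZMod p) K) :
    Pool.Agent.H19.OG.HasCharts K := by
  classical
  obtain ⟨𝒞, Ls, hE, hSgn⟩ := exists_eng (ι := I ⊕ (Fin m → ZMod p))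
    (Finset.image₂ (fun u v => u - v) (PP (I ⊕ (Fin m → ZMod p)) (max G.M p))
      (PP (I ⊕ (Fin m → ZMod p)) (max G.M p)))
  have hLs : ∀ S ∈ Ls, S.Nonempty := by
    intro S hS
    obtain ⟨C, hC, h1, h2, h3⟩ := hE.cov Set.univ ⟨fun _ _ _ _ => trivial, fun _ => Or.inl trivial,
      fun _ => trivial⟩
    obtain ⟨u, hu, -⟩ := h3 Set.univ ⟨fun _ h => h, fun _ _ _ _ => trivial, trivial,
      fun _ => trivial, fun _ _ _ => trivial⟩ (fun _ => trivial) S hS
    exact ⟨u, hu⟩
  set 𝔖 : Finset (Finset K) := (Finset.univ.biUnion fun i => (G.cd i).base.image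
      (fun s => s.image (algebraMap (F i) K))) ∪ (Finset.univ.image G.sC) ∪
      (Ls.toFinset.image (eset G.ss G.sL GData.sε)) with h𝔖
  have hm1 : ∀ i, ∀ s ∈ (G.cd i).base, s.image (algebraMap (F i) K) ∈ 𝔖 := by
    intro i s hs
    exact Finset.mem_union_left _ (Finset.mem_union_left _ (Finset.mem_biUnion.mpr
      ⟨i, Finset.mem_univ _, Finset.mem_image_of_mem _ hs⟩))
  have hm2 : ∀ c, G.sC c ∈ 𝔖 := fun c => Finset.mem_union_left _ (Finset.mem_union_right _
    (Finset.mem_image_of_mem _ (Finset.mem_univ _)))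
  have hm3 : ∀ S ∈ Ls, eset G.ss G.sL GData.sε S ∈ 𝔖 := fun S hS => Finset.mem_union_right _
    (Finset.mem_image_of_mem _ (List.mem_toFinset.mpr hS))
  have hcase : ∀ s ∈ 𝔖, (∃ i, ∃ s' ∈ (G.cd i).base, s = s'.image (algebraMap (F i) K)) ∨
      (∃ c, s = G.sC c) ∨ ∃ S ∈ Ls, s = eset G.ss G.sL GData.sε S := by
    intro s hs
    rcases Finset.mem_union.mp hs with hs | hs
    · rcases Finset.mem_union.mp hs with hs | hs
      · obtain ⟨i, -, hs⟩ := Finset.mem_biUnion.mp hs
        obtain ⟨s', hs', rfl⟩ := Finset.mem_image.mp hs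
        exact Or.inl ⟨i, s', hs', rfl⟩
      · obtain ⟨c, -, rfl⟩ := Finset.mem_image.mp hs
        exact Or.inr (Or.inl ⟨c, rfl⟩)
    · obtain ⟨S, hS, rfl⟩ := Finset.mem_image.mp hs
      exact Or.inr (Or.inr ⟨S, List.mem_toFinset.mp hS, rfl⟩)
  -- detection
  have hdet : ∀ (V : ValuationSubring K) (R : Subring K), VLocal V R → (∀ s ∈ 𝔖, Prin R s) →
      G.Base V R := fun V R hR hs =>
    GData.base_of_prin hR (fun i s hs' => hs _ (hm1 i s hs')) fun c => hs _ (hm2 c)
  refine hasCharts_of_sets 𝔖 ?_ ?_ ?_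
  · intro s hs
    rcases hcase s hs with ⟨i, s', hs', rfl⟩ | ⟨c, rfl⟩ | ⟨S, hS, rfl⟩
    · obtain ⟨h0, g, hg⟩ := (G.cd i).zero_base s' hs'
      exact ⟨_, Finset.mem_image_of_mem _ hg, (map_ne_zero _).mpr (by rintro rfl; exact h0 hg)⟩
    · exact ⟨G.xs fun _ => false, Finset.mem_union_left _ (Finset.mem_image_of_mem _
        (Finset.mem_univ _)), G.xs_ne _⟩
    · refine eset_ne ?_ ?_ (hLs S hS)
      · rintro (i | c)
        · obtain ⟨τ, -, -, ⟨g, hg, -⟩, -⟩ := (G.cd i).unif ⊤
          exact ⟨_, Finset.mem_image_of_mem _ hg, (map_ne_zero _).mpr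
            (by rintro rfl; exact (G.cd i).zero_T hg)⟩
        · exact ⟨G.xs fun _ => false, Finset.mem_union_left _ (Finset.mem_image_of_mem _
            (Finset.mem_univ _)), G.xs_ne _⟩
      · rintro (i | c)
        · exact ⟨_, Finset.mem_image_of_mem _ (Finset.mem_univ true), (map_ne_zero _).mpr
            (G.xf_ne i _)⟩
        · exact ⟨_, Finset.mem_image_of_mem _ (Finset.mem_univ fun _ => false), G.xs_ne _⟩
  · intro R hinv hs
    have hall : ∀ x : K, (⊤ : ValuationSubring K).valuation x ≤ 1 := fun x =>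
      (ValuationSubring.valuation_le_one_iff _ _).mpr trivial
    have hR : VLocal (⊤ : ValuationSubring K) R := ⟨fun x _ => hall x, fun x hx h1 => hinv x hx (by
      rintro rfl
      rw [map_zero] at h1
      exact zero_ne_one h1)⟩
    have hb := hdet ⊤ R hR hs
    refine G.gen R hinv (fun i w => hb.b1 i w (wv_le_one.mpr (hall _))) fun a => ?_
    have h1 := zlin_apply G.D G.z (G.gs (G.σV ⊤)) (Pi.single a 1)
    have h2 : ∑ b, algebraMap (ZMod p) K ((Pi.single a 1 : Fin m → ZMod p) b) * G.z b = G.z a := by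
      rw [Finset.sum_eq_single a]
      · rw [Pi.single_eq_same, map_one, one_mul]
      · intro b _ hb
        rw [Pi.single_eq_of_ne hb, map_zero, zero_mul]
      · intro h; exact absurd (Finset.mem_univ _) h
    rw [h2] at h1
    have h3 : G.z a = G.zs (G.σV ⊤) (Pi.single a 1) +
        ∑ i, algebraMap (ZMod p) K ((Pi.single a 1 : Fin m → ZMod p) ⬝ᵥ G.D i) *
          G.gs (G.σV ⊤) i := by
      rw [GData.zs, h1]; ring
    rw [h3]
    refine R.add_mem (hb.b3 _ (hall _)) (Subring.sum_mem _ fun i _ =>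
      R.mul_mem (GData.zmod_mem_R R _) (hb.b1 i _ (wv_le_one.mpr (hall _))))
  · intro V
    obtain ⟨lg⟩ := nonempty_lg G V
    obtain ⟨S⟩ := nonempty_edata lg.L
    obtain ⟨C, hC𝒞, hCb, hCdet, hCprin⟩ := hE.cov _ (tot_of_val lg.L.τ_ne_zero lg.L.vτ)
    have hC := hE.cone C hC𝒞
    have hb : ∀ j, V.valuation (mon lg.L.τ (C.b j)) ≤ 1 := hCb
    have hCtx : Ctx lg.L C := ⟨hC, hb, fun u hu u' hu' => hSgn C hC𝒞 _
      (Finset.mem_image₂_of_mem hu hu')⟩
    have hbase := base_vloc lg S hC hb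
    let _ : Algebra (ZMod p) (ResidueField V) := (resHom V).toAlgebra
    refine ⟨_, hbase.loc, ?_, ?_, isRegular_local hCtx (isAlgebraic_chart lg S hC) htr⟩
    · intro s hs
      rcases hcase s hs with ⟨i, s', hs', rfl⟩ | ⟨c, rfl⟩ | ⟨S', hS', rfl⟩
      · exact prin_base hbase i hs'
      · exact ⟨_, GData.gen_sC hbase c⟩
      · rw [prin_eset_iff GData.sε_or lg.L.τ_ne_zero (gen_ss lg hbase) (gen_sL hbase)]
        exact hCprin _ (loc_of_vlocal lg.L.τ_ne_zero hbase.loc (τ_mem lg hbase))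
          (fun j => subset_vloc (Algebra.subset_adjoin ⟨Sum.inl j, rfl⟩)) S' hS'
    · intro R' hR' hs
      have hbase' := hdet V R' hR' hs
      apply vloc_le hR'
      apply adjoin_le_of
      rintro _ ⟨j | (⟨i, b⟩ | a), rfl⟩
      · exact hCdet _ (loc_of_vlocal lg.L.τ_ne_zero hR' (τ_mem lg hbase')) (fun S' hS' => by
          rw [← prin_eset_iff GData.sε_or lg.L.τ_ne_zero (gen_ss lg hbase') (gen_sL hbase')]
          exact hs _ (hm3 S' hS')) j
      · show lg.L.y i b ∈ R'
        rw [lg.y_eq]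
        exact hbase'.b1 i _ (lg.y_le i b)
      · show lg.L.z (S.β a) ∈ R'
        have h1 := S.hβ a
        rw [lg.L.mem_C1, lg.z_eq] at h1
        rw [lg.z_eq]
        exact hbase'.b3 _ h1

end Pool.Agent.H96.W
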