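import Pool.Agent.H96.W.Rel
import Pool.Agent.H96.W.Ech

/-!
# The local data at a valuation
-/

set_option autoImplicit false
set_option linter.unusedSectionVars false

namespace Pool.Agent.H96.W

open MvPolynomial IsLocalRing Pool.Agent.H96.Reg Pool.Agent.H96.VL

/-- The local data at `V`. -/
structure LData (p : ℕ) [Fact p.Prime] {K : Type} [Field K] [Algebra (ZMod p) K]
    (V : ValuationSubring K) (I : Type) [Fintype I] [DecidableEq I] (m : ℕ)
    (D : I → Fin m → ZMod p) (M : ℕ) where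
  n : I → ℕ
  y : ∀ i, Fin (n i + 1) → K
  G : ∀ i, Fin (n i + 1) → MvPolynomial (Fin (n i + 1)) (ZMod p)
  l : ∀ i, Fin (n i + 1)
  u : ∀ i, Fin (n i + 1)
  e : I → ℕ
  t : I → K
  z : (Fin m → ZMod p) →ₗ[ZMod p] K
  vy : ∀ i b, V.valuation (y i b) ≤ 1
  G0 : ∀ i, G i 0 = X (l i)
  rel : ∀ i (k : Fin (n i)), aeval (y i) (G i k.succ) = 0
  det : ∀ i, V.valuation (aeval (y i) (Matrix.of fun a b => pderiv b (G i a)).det) = 1
  t1 : ∀ i, t i = 1 ∨ (V.valuation (t i) < 1 ∧ t i ≠ 0 ∧ y i (l i) = t i)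
  eM : ∀ i, e i ≤ M
  act : ∀ i, e i ≠ 0 → ¬ p ∣ e i ∧ V.valuation (y i (u i)) = 1 ∧ t i ≠ 1
  AS : ∀ c, z c ^ p - z c = ∑ i, algebraMap (ZMod p) K (c ⬝ᵥ D i) * (y i (u i) * (t i ^ e i)⁻¹)

section Val

variable {K : Type} [Field K] {V : ValuationSubring K}

theorem val_pow_sub {x : K} {p : ℕ} (hp : 2 ≤ p) (hx : ¬ V.valuation x ≤ 1) :
    V.valuation (x ^ p - x) = V.valuation (x ^ p) ∧ V.valuation x < V.valuation (x ^ p) := by
  rw [not_le] at hx
  have h1 : V.valuation x < V.valuation (x ^ p) := by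
    rw [map_pow]
    calc V.valuation x = V.valuation x ^ 1 := (pow_one _).symm
      _ < V.valuation x ^ p := pow_lt_pow_right₀ hx (by omega)
  exact ⟨V.valuation.map_sub_eq_of_lt_left h1, h1⟩

theorem val_algebraMap_zmod {p : ℕ} [Fact p.Prime] [Algebra (ZMod p) K] (a : ZMod p) :
    V.valuation (algebraMap (ZMod p) K a) ≤ 1 := by
  rw [V.valuation_le_one_iff]
  obtain ⟨n, hn⟩ := algebraMap_eq_intCast (ZMod.ringHom_surjective (Int.castRingHom (ZMod p))) a
  rw [hn]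
  exact intCast_mem V n

theorem val_algebraMap_zmod_eq {p : ℕ} [Fact p.Prime] [Algebra (ZMod p) K] {a : ZMod p} (ha : a ≠ 0) :
    V.valuation (algebraMap (ZMod p) K a) = 1 := by
  apply le_antisymm (val_algebraMap_zmod a)
  have h1 := val_algebraMap_zmod (V := V) (p := p) (K := K) a⁻¹
  rw [map_inv₀, map_inv₀] at h1
  have h2 : 0 < V.valuation (algebraMap (ZMod p) K a) := by
    rw [Valuation.pos_iff]
    exact (map_ne_zero _).mpr ha
  exact (inv_le_one₀ h2).mp h1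

end Val

namespace LData

variable {p : ℕ} [Fact p.Prime] {K : Type} [Field K] [Algebra (ZMod p) K]
  {V : ValuationSubring K} {I : Type} [Fintype I] [DecidableEq I] {m : ℕ}
  {D : I → Fin m → ZMod p} {M : ℕ} (L : LData p V I m D M)

/-- The local form of the function on the curve. -/
def f (i : I) : K := L.y i (L.u i) * (L.t i ^ L.e i)⁻¹

theorem t_ne_zero (i : I) : L.t i ≠ 0 := by
  rcases L.t1 i with h | ⟨-, h, -⟩
  · rw [h]; exact one_ne_zero
  · exact h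

theorem vt (i : I) : V.valuation (L.t i) ≤ 1 := by
  rcases L.t1 i with h | ⟨h, -, -⟩
  · rw [h, map_one]
  · exact h.le

theorem vf_inact {i : I} (h : L.e i = 0) : V.valuation (L.f i) ≤ 1 := by
  rw [f, h, pow_zero, inv_one, mul_one]
  exact L.vy _ _

theorem vf_act {i : I} (h : L.e i ≠ 0) : V.valuation (L.f i) = V.valuation ((L.t i ^ L.e i)⁻¹) := by
  rw [f, map_mul, (L.act i h).2.1, one_mul]

theorem vf_act_gt {i : I} (h : L.e i ≠ 0) : 1 < V.valuation (L.f i) := by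
  rw [L.vf_act h, map_inv₀, map_pow]
  have h1 : 0 < V.valuation (L.t i) := by rw [Valuation.pos_iff]; exact L.t_ne_zero i
  have h2 : V.valuation (L.t i) < 1 := by
    rcases L.t1 i with h3 | ⟨h3, -, -⟩
    · exact absurd h3 (L.act i h).2.2
    · exact h3
  rw [one_lt_inv₀ (pow_pos h1 _)]
  exact pow_lt_one₀ zero_le h2 h

/-- The subspace of integral elements. -/
def C1 : Submodule (ZMod p) (Fin m → ZMod p) where
  carrier := {c | V.valuation (L.z c) ≤ 1}
  add_mem' := by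
    intro a b ha hb
    show V.valuation (L.z (a + b)) ≤ 1
    rw [map_add]
    exact (V.valuation.map_add _ _).trans (max_le ha hb)
  zero_mem' := by
    show V.valuation (L.z 0) ≤ 1
    rw [map_zero, map_zero]; exact zero_le
  smul_mem' := by
    intro a c hc
    show V.valuation (L.z (a • c)) ≤ 1
    rw [map_smul, Algebra.smul_def, map_mul]
    exact mul_le_one' (val_algebraMap_zmod a) hc

theorem mem_C1 {c : Fin m → ZMod p} : c ∈ L.C1 ↔ V.valuation (L.z c) ≤ 1 := Iff.rfl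

/-- The coordinates. -/
noncomputable def τ : I ⊕ (Fin m → ZMod p) → K :=
  open Classical in Sum.elim L.t fun c => if c ∈ L.C1 then 1 else (L.z c)⁻¹

theorem τ_inl (i : I) : L.τ (Sum.inl i) = L.t i := rfl

theorem τ_inr_of_mem {c : Fin m → ZMod p} (hc : c ∈ L.C1) : L.τ (Sum.inr c) = 1 := if_pos hc

theorem τ_inr_of_notMem {c : Fin m → ZMod p} (hc : c ∉ L.C1) : L.τ (Sum.inr c) = (L.z c)⁻¹ :=
  if_neg hc

theorem z_ne_zero {c : Fin m → ZMod p} (hc : c ∉ L.C1) : L.z c ≠ 0 := by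
  intro h
  apply hc
  rw [mem_C1, h, map_zero]
  exact zero_le

theorem τ_ne_zero (α : I ⊕ (Fin m → ZMod p)) : L.τ α ≠ 0 := by
  rcases α with i | c
  · exact L.t_ne_zero i
  · by_cases hc : c ∈ L.C1
    · rw [L.τ_inr_of_mem hc]; exact one_ne_zero
    · rw [L.τ_inr_of_notMem hc]; exact inv_ne_zero (L.z_ne_zero hc)

theorem vτ (α : I ⊕ (Fin m → ZMod p)) : V.valuation (L.τ α) ≤ 1 := by
  rcases α with i | c
  · exact L.vt i
  · by_cases hc : c ∈ L.C1
    · rw [L.τ_inr_of_mem hc, map_one]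
    · rw [L.τ_inr_of_notMem hc, map_inv₀]
      exact inv_le_one_of_one_le₀ (not_le.mp hc).le

theorem mem_C1_of (c : Fin m → ZMod p) (h : ∀ i, L.e i ≠ 0 → c ⬝ᵥ D i = 0) : c ∈ L.C1 := by
  by_contra hc
  have h1 := val_pow_sub (p := p) (Fact.out : p.Prime).two_le hc
  have h2 : V.valuation (L.z c ^ p - L.z c) ≤ 1 := by
    rw [L.AS]
    refine Valuation.map_sum_le _ fun i _ => ?_
    by_cases he : L.e i = 0
    · rw [map_mul]
      exact mul_le_one' (val_algebraMap_zmod _) (L.vf_inact he)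
    · rw [h i he, map_zero, zero_mul, map_zero]
      exact zero_le
  rw [h1.1] at h2
  exact hc ((h1.2.le).trans h2)

/-- The value of `z` is bounded by the values of the functions. -/
theorem vz_pow_le {c : Fin m → ZMod p} (hc : c ∉ L.C1) {γ : V.ValueGroup}
    (h : ∀ i, c ⬝ᵥ D i ≠ 0 → V.valuation (L.f i) ≤ γ) : V.valuation (L.z c ^ p) ≤ γ := by
  have h1 := val_pow_sub (p := p) (Fact.out : p.Prime).two_le hc
  rw [← h1.1, L.AS]
  refine Valuation.map_sum_le _ fun i _ => ?_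
  by_cases hi : c ⬝ᵥ D i = 0
  · rw [hi, map_zero, zero_mul, map_zero]
    exact zero_le
  · rw [map_mul]
    calc V.valuation (algebraMap (ZMod p) K (c ⬝ᵥ D i)) * V.valuation (L.f i) ≤ 1 * γ :=
          mul_le_mul' (val_algebraMap_zmod _) (h i hi)
      _ = γ := one_mul _

end LData

/-- The echelon data. -/
structure EData {p : ℕ} [Fact p.Prime] {K : Type} [Field K] [Algebra (ZMod p) K]
    {V : ValuationSubring K} {I : Type} [Fintype I] [DecidableEq I] {m : ℕ}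
    {D : I → Fin m → ZMod p} {M : ℕ} (L : LData p V I m D M) where
  B : Finset (Fin m → ZMod p)
  J : Finset I
  μ : I → Fin m → ZMod p
  d₀ : ℕ
  d₁ : ℕ
  β : Fin d₀ ⊕ Fin d₁ → Fin m → ZMod p
  a : (Fin m → ZMod p) → (Fin m → ZMod p) → ZMod p
  lc : (Fin m → ZMod p) → (Fin d₀ ⊕ Fin d₁) → ZMod p
  hB : ∀ b ∈ B, b ∉ L.C1
  ha : ∀ c b, a c b ≠ 0 → b ∈ B ∧ V.valuation (L.z b) ≤ V.valuation (L.z c)
  hac : ∀ c, c - ∑ b ∈ B, a c b • b ∈ L.C1
  hJ : ∀ j ∈ J, L.e j ≠ 0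
  hμ : ∀ j ∈ J, ∀ j' ∈ J, μ j ⬝ᵥ D j' = if j = j' then 1 else 0
  hμ' : ∀ j ∈ J, ∀ i, L.e i ≠ 0 → μ j ⬝ᵥ D i ≠ 0 → V.valuation (L.f i) ≤ V.valuation (L.f j)
  hβ₀ : ∀ a i, L.e i ≠ 0 → β (Sum.inl a) ⬝ᵥ D i = 0
  hβ : ∀ a, β a ∈ L.C1
  hlc : ∀ c ∈ L.C1, c = ∑ l, lc c l • β l
  card₁ : d₀ + d₁ + B.card ≤ m
  card₂ : m ≤ J.card + d₀

theorem nonempty_edata {p : ℕ} [Fact p.Prime] {K : Type} [Field K] [Algebra (ZMod p) K]
    {V : ValuationSubring K} {I : Type} [Fintype I] [DecidableEq I] {m : ℕ}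
    {D : I → Fin m → ZMod p} {M : ℕ} (L : LData p V I m D M) : Nonempty (EData L) := by
  classical
  obtain ⟨B, J, μ, d₀, d₁, β, h1, h2, h3, h4, h5, h6, h7, h8, h9, h10⟩ := exists_echelon D
    (Finset.univ.filter fun i => L.e i ≠ 0) (fun i => V.valuation (L.f i)) L.C1
    (fun c => V.valuation (L.z c)) (fun c hc => L.mem_C1_of c fun i hi =>
      hc i (Finset.mem_filter.mpr ⟨Finset.mem_univ _, hi⟩))
  choose a ha using h2
  choose! lc hlc using h8
  exact ⟨⟨B, J, μ, d₀, d₁, β, a, lc, h1, fun c b hb => (ha c).1 b hb, fun c => (ha c).2,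
    fun j hj => (Finset.mem_filter.mp (h3 hj)).2, h4,
    fun j hj i hi hne => h5 j hj i (Finset.mem_filter.mpr ⟨Finset.mem_univ _, hi⟩) hne,
    fun a i hi => h6 a i (Finset.mem_filter.mpr ⟨Finset.mem_univ _, hi⟩), h7, hlc, h9, h10⟩⟩

end Pool.Agent.H96.W
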