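import Pool.Agent.H96.W.LocA

/-!
# The relations of a chart
-/

set_option autoImplicit false
set_option linter.unusedSectionVars false

namespace Pool.Agent.H96.W

open MvPolynomial IsLocalRing Pool.Agent.H96.Reg Pool.Agent.H96.VL

/-- The exponents which occur in the relations. -/
def PP (ι : Type) [Fintype ι] [DecidableEq ι] (M : ℕ) : Finset (ι → ℤ) :=
  insert 0 ((Finset.univ ×ˢ Finset.range (M + 1)).image (fun x : ι × ℕ =>
    -((x.2 : ℤ) • (Pi.single x.1 1 : ι → ℤ))) ∪ Finset.univ.image fun α => Pi.single α 1)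

section PPl

variable {ι : Type} [Fintype ι] [DecidableEq ι] {M : ℕ}

theorem zero_mem_PP : (0 : ι → ℤ) ∈ PP ι M := Finset.mem_insert_self _ _

theorem single_mem_PP (α : ι) : (Pi.single α 1 : ι → ℤ) ∈ PP ι M :=
  Finset.mem_insert_of_mem (Finset.mem_union_right _ (Finset.mem_image_of_mem _ (Finset.mem_univ α)))

theorem neg_mem_PP (α : ι) {n : ℕ} (h : n ≤ M) : -((n : ℤ) • (Pi.single α 1 : ι → ℤ)) ∈ PP ι M := by
  refine Finset.mem_insert_of_mem (Finset.mem_union_left _ (Finset.mem_image.mpr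
    ⟨(α, n), ?_, rfl⟩))
  rw [Finset.mem_product]
  exact ⟨Finset.mem_univ _, Finset.mem_range.mpr (by show n < M + 1; omega)⟩

theorem neg_one_mem_PP (α : ι) (h : 1 ≤ M) : -(Pi.single α 1 : ι → ℤ) ∈ PP ι M := by
  have := neg_mem_PP (ι := ι) α h
  rwa [Nat.cast_one, one_smul] at this

end PPl

section LT

variable {ι : Type} [Fintype ι] [DecidableEq ι] {A : Type} [CommRing A] {υ : Type} [Fintype υ]
  [DecidableEq υ] {T : Type} [Fintype T] {K : Type} [Field K]

/-- The logarithmic coefficients of a relation. -/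
noncomputable def LL (V : ValuationSubring K) [Algebra A (ResidueField V)] (τ : ι → K) (y : υ → K)
    (C : Cone ι) (c : T → MvPolynomial υ A) (x : T → ι → ℤ) (α : ι) : ResidueField V :=
  ∑ s, aeval (fun l => resv V (y l)) (c s) * ee V τ C (mrel C c x) s *
    ((x s α : ℤ) : ResidueField V)

/-- The differential of a relation in the other variables. -/
noncomputable def TT (V : ValuationSubring K) [Algebra A (ResidueField V)] (τ : ι → K) (y : υ → K)
    (C : Cone ι) (c : T → MvPolynomial υ A) (x : T → ι → ℤ) (l : υ) : ResidueField V :=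
  ∑ s, aeval (fun l => resv V (y l)) (pderiv l (c s)) * ee V τ C (mrel C c x) s

variable {V : ValuationSubring K} [Algebra A (ResidueField V)] {τ : ι → K} {y : υ → K}
  {C : Cone ι} {c : T → MvPolynomial υ A} {x : T → ι → ℤ}

theorem LL_eq_zero {α : ι} (h : ∀ s, c s = 0 ∨ ee V τ C (mrel C c x) s = 0 ∨
    ((x s α : ℤ) : ResidueField V) = 0) : LL V τ y C c x α = 0 := by
  refine Finset.sum_eq_zero fun s _ => ?_
  rcases h s with h | h | h <;> rw [h]
  · rw [map_zero, zero_mul, zero_mul]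
  · rw [mul_zero, zero_mul]
  · rw [mul_zero]

theorem LL_ne_zero [DecidableEq T] {α : ι} (s₀ : T) (h : ∀ s, s ≠ s₀ → c s = 0 ∨
    ee V τ C (mrel C c x) s = 0 ∨ ((x s α : ℤ) : ResidueField V) = 0)
    (h1 : aeval (fun l => resv V (y l)) (c s₀) ≠ 0) (h2 : ee V τ C (mrel C c x) s₀ ≠ 0)
    (h3 : ((x s₀ α : ℤ) : ResidueField V) ≠ 0) : LL V τ y C c x α ≠ 0 := by
  rw [LL, Finset.sum_eq_single s₀]
  · exact mul_ne_zero (mul_ne_zero h1 h2) h3
  · intro s _ hs
    rcases h s hs with h | h | h <;> rw [h]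
    · rw [map_zero, zero_mul, zero_mul]
    · rw [mul_zero, zero_mul]
    · rw [mul_zero]
  · intro h; exact absurd (Finset.mem_univ _) h

theorem TT_eq_zero {l : υ} (h : ∀ s, pderiv l (c s) = 0) : TT V τ y C c x l = 0 := by
  refine Finset.sum_eq_zero fun s _ => ?_
  rw [h, map_zero, zero_mul]

theorem TT_eq_single [DecidableEq T] {l : υ} (s₀ : T) (h : ∀ s, s ≠ s₀ → pderiv l (c s) = 0) :
    TT V τ y C c x l = aeval (fun l => resv V (y l)) (pderiv l (c s₀)) *
      ee V τ C (mrel C c x) s₀ := by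
  rw [TT, Finset.sum_eq_single s₀]
  · intro s _ hs
    rw [h s hs, map_zero, zero_mul]
  · intro h; exact absurd (Finset.mem_univ _) h

end LT

variable {p : ℕ} [Fact p.Prime] {K : Type} [Field K] [Algebra (ZMod p) K]
  {V : ValuationSubring K} {I : Type} [Fintype I] [DecidableEq I] {m : ℕ}
  {D : I → Fin m → ZMod p} {M : ℕ} {L : LData p V I m D M}

/-- The other variables. -/
abbrev EData.υ (S : EData L) : Type := (Σ i : I, Fin (L.n i + 1)) ⊕ (Fin S.d₀ ⊕ Fin S.d₁)

/-- Their values. -/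
def EData.Y (S : EData L) : S.υ → K := Sum.elim (fun s => L.y s.1 s.2) fun a => L.z (S.β a)

/-- The terms. -/
abbrev Tm (p : ℕ) (I : Type) (m : ℕ) : Type := (I ⊕ (Fin m → ZMod p)) ⊕ Bool

theorem EData.vY (S : EData L) (l : S.υ) : V.valuation (S.Y l) ≤ 1 := by
  rcases l with ⟨i, b⟩ | a
  · exact L.vy i b
  · exact S.hβ a

/-- The linear form of an integral element. -/
noncomputable def EData.lin (S : EData L) (c : Fin m → ZMod p) : MvPolynomial S.υ (ZMod p) :=
  ∑ a, MvPolynomial.C (S.lc c a) * X (Sum.inr a)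

theorem EData.aeval_lin (S : EData L) {c : Fin m → ZMod p} (hc : c ∈ L.C1) :
    aeval S.Y (S.lin c) = L.z c := by
  conv_rhs => rw [S.hlc c hc]
  rw [EData.lin, map_sum, map_sum]
  refine Finset.sum_congr rfl fun a _ => ?_
  rw [map_mul, aeval_C, aeval_X, map_smul, Algebra.smul_def]
  rfl

section Defs

variable (S : EData L)

/-- The relations of the coordinates `τ_i`. -/
noncomputable def EData.cI (i : I) : Tm p I m → MvPolynomial S.υ (ZMod p) :=
  open Classical in Sum.elim (fun _ => 0) fun b => cond b 1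
    (if L.t i = 1 then -1 else -X (Sum.inl ⟨i, L.l i⟩))

def EData.xI (_S : EData L) (i : I) : Tm p I m → (I ⊕ (Fin m → ZMod p)) → ℤ :=
  Sum.elim (fun _ => 0) fun b => cond b (Pi.single (Sum.inl i) 1) 0

/-- The relations of the curves. -/
noncomputable def EData.cG (i : I) (k : Fin (L.n i)) : Tm p I m → MvPolynomial S.υ (ZMod p) :=
  Sum.elim (fun _ => 0) fun b => cond b 0 (rename (fun b => Sum.inl ⟨i, b⟩) (L.G i k.succ))

/-- The relations of the coordinates `ω_c`. -/
noncomputable def EData.cC (c : Fin m → ZMod p) : Tm p I m → MvPolynomial S.υ (ZMod p) :=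
  open Classical in if c ∈ L.C1 then Sum.elim (fun _ => 0) fun b => cond b 1 (-1) else
    Sum.elim (Sum.elim (fun _ => 0) fun b => if b ∈ S.B then -MvPolynomial.C (S.a c b) else 0) fun b =>
      cond b 1 (-S.lin (c - ∑ b ∈ S.B, S.a c b • b))

noncomputable def EData.xC (_S : EData L) (c : Fin m → ZMod p) : Tm p I m → (I ⊕ (Fin m → ZMod p)) → ℤ :=
  open Classical in if c ∈ L.C1 then Sum.elim (fun _ => 0) fun b => cond b (Pi.single (Sum.inr c) 1) 0
  else Sum.elim (Sum.elim (fun _ => 0) fun b => -Pi.single (Sum.inr b) 1) fun b =>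
      cond b (-Pi.single (Sum.inr c) 1) 0

/-- The Artin–Schreier relations. -/
noncomputable def EData.cJ (μ : Fin m → ZMod p) : Tm p I m → MvPolynomial S.υ (ZMod p) :=
  open Classical in Sum.elim (Sum.elim (fun i => -(MvPolynomial.C (μ ⬝ᵥ D i) * X (Sum.inl ⟨i, L.u i⟩)))
    fun b => if μ ∉ L.C1 ∧ b = μ then -1 else 0) fun b =>
      cond b (if μ ∉ L.C1 then 1 else 0) (if μ ∉ L.C1 then 0 else S.lin μ ^ p - S.lin μ)

def EData.xJ (_S : EData L) (μ : Fin m → ZMod p) : Tm p I m → (I ⊕ (Fin m → ZMod p)) → ℤ :=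
  Sum.elim (Sum.elim (fun i => -((L.e i : ℤ) • Pi.single (Sum.inl i) 1))
    fun b => -Pi.single (Sum.inr b) 1) fun b => cond b (-((p : ℤ) • Pi.single (Sum.inr μ) 1)) 0

/-- The integral Artin–Schreier relations. -/
noncomputable def EData.c0 (a : Fin S.d₀) : Tm p I m → MvPolynomial S.υ (ZMod p) :=
  Sum.elim (Sum.elim (fun i => -(MvPolynomial.C (S.β (Sum.inl a) ⬝ᵥ D i) * X (Sum.inl ⟨i, L.u i⟩)))
    fun _ => 0) fun b => cond b 0 (X (Sum.inr (Sum.inl a)) ^ p - X (Sum.inr (Sum.inl a)))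

def EData.x0 (_S : EData L) : Tm p I m → (I ⊕ (Fin m → ZMod p)) → ℤ :=
  Sum.elim (Sum.elim (fun i => -((L.e i : ℤ) • Pi.single (Sum.inl i) 1)) fun _ => 0) fun _ => 0

end Defs

section Rel

variable {S : EData L}

theorem sum_Tm {β : Type} [AddCommMonoid β] (g : Tm p I m → β) : ∑ s, g s =
    (∑ i, g (Sum.inl (Sum.inl i)) + ∑ c, g (Sum.inl (Sum.inr c))) +
      (g (Sum.inr true) + g (Sum.inr false)) := by
  rw [Fintype.sum_sum_type, Fintype.sum_sum_type, Fintype.sum_bool]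

theorem mon_neg_smul (n : ℕ) (α : I ⊕ (Fin m → ZMod p)) :
    mon L.τ (-((n : ℤ) • (Pi.single α 1 : (I ⊕ (Fin m → ZMod p)) → ℤ))) = (L.τ α ^ n)⁻¹ := by
  rw [mon_neg, mon_smul, mon_single, zpow_natCast]

theorem mon_neg_single (α : I ⊕ (Fin m → ZMod p)) :
    mon L.τ (-(Pi.single α 1 : (I ⊕ (Fin m → ZMod p)) → ℤ)) = (L.τ α)⁻¹ := by
  rw [mon_neg, mon_single]

theorem rel_I (i : I) : ∑ s, aeval S.Y (S.cI i s) * mon L.τ (S.xI i s) = 0 := by
  classical
  rw [sum_Tm]
  simp only [EData.cI, EData.xI, Sum.elim_inl, Sum.elim_inr, map_zero, zero_mul,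
    Finset.sum_const_zero, zero_add, cond_true, cond_false, map_one, one_mul, mon_zero, mul_one]
  rw [mon_single, L.τ_inl]
  split_ifs with h
  · rw [h, map_neg, map_one]; ring
  · rw [map_neg, aeval_X]
    rcases L.t1 i with h1 | ⟨-, -, h1⟩
    · exact absurd h1 h
    · show L.t i + -(L.y i (L.l i)) = 0
      rw [h1]; ring

theorem rel_G (i : I) (k : Fin (L.n i)) :
    ∑ s, aeval S.Y (S.cG i k s) * mon L.τ ((0 : Tm p I m → (I ⊕ (Fin m → ZMod p)) → ℤ) s) = 0 := by
  rw [sum_Tm]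
  simp only [EData.cG, Sum.elim_inl, Sum.elim_inr, map_zero, zero_mul,
    Finset.sum_const_zero, zero_add, cond_true, cond_false]
  rw [aeval_rename]
  have : aeval (S.Y ∘ fun b => Sum.inl ⟨i, b⟩) (L.G i k.succ) = 0 := L.rel i k
  rw [this, zero_mul]

theorem rel_C (c : Fin m → ZMod p) : ∑ s, aeval S.Y (S.cC c s) * mon L.τ (S.xC c s) = 0 := by
  classical
  rw [sum_Tm]
  by_cases hc : c ∈ L.C1
  · simp only [EData.cC, EData.xC, if_pos hc, Sum.elim_inl, Sum.elim_inr, map_zero, zero_mul,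
      Finset.sum_const_zero, zero_add, cond_true, cond_false, map_one, one_mul, mon_zero, mul_one]
    rw [mon_single, L.τ_inr_of_mem hc, map_neg, map_one]; ring
  · simp only [EData.cC, EData.xC, if_neg hc, Sum.elim_inl, Sum.elim_inr, map_zero, zero_mul,
      Finset.sum_const_zero, zero_add, cond_true, cond_false, map_one, one_mul, mon_zero, mul_one]
    have h1 : ∑ b, aeval S.Y (if b ∈ S.B then -MvPolynomial.C (S.a c b) else 0) *
        mon L.τ (-Pi.single (Sum.inr b) 1) = -L.z (∑ b ∈ S.B, S.a c b • b) := by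
      rw [map_sum, ← Finset.sum_neg_distrib, ← Finset.sum_subset (Finset.subset_univ S.B)]
      · refine Finset.sum_congr rfl fun b hb => ?_
        rw [if_pos hb, mon_neg_single, L.τ_inr_of_notMem (S.hB b hb), inv_inv, map_neg, aeval_C,
          map_smul, Algebra.smul_def]
        ring
      · intro b _ hb
        rw [if_neg hb, map_zero, zero_mul]
    rw [h1, mon_neg_single, L.τ_inr_of_notMem hc, inv_inv, map_neg, S.aeval_lin (S.hac c), map_sub]
    ring

theorem aeval_cJ_inl (μ : Fin m → ZMod p) :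
    ∑ i, aeval S.Y (-(MvPolynomial.C (μ ⬝ᵥ D i) * X (Sum.inl ⟨i, L.u i⟩)) :
      MvPolynomial S.υ (ZMod p)) * mon L.τ (-((L.e i : ℤ) • Pi.single (Sum.inl i) 1)) =
      -(L.z μ ^ p - L.z μ) := by
  rw [L.AS, ← Finset.sum_neg_distrib]
  refine Finset.sum_congr rfl fun i _ => ?_
  rw [mon_neg_smul, L.τ_inl, map_neg, map_mul, aeval_C, aeval_X]
  show -(algebraMap (ZMod p) K (μ ⬝ᵥ D i) * L.y i (L.u i)) * (L.t i ^ L.e i)⁻¹ = _
  ring

theorem rel_J (μ : Fin m → ZMod p) : ∑ s, aeval S.Y (S.cJ μ s) * mon L.τ (S.xJ μ s) = 0 := by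
  classical
  rw [sum_Tm]
  simp only [EData.cJ, EData.xJ, Sum.elim_inl, Sum.elim_inr, cond_true, cond_false, mon_zero,
    mul_one]
  rw [aeval_cJ_inl]
  by_cases hμ : μ ∈ L.C1
  · have h1 : ∑ c, aeval S.Y (if μ ∉ L.C1 ∧ c = μ then (-1 : MvPolynomial S.υ (ZMod p)) else 0) *
        mon L.τ (-Pi.single (Sum.inr c) 1) = 0 := by
      refine Finset.sum_eq_zero fun c _ => ?_
      rw [if_neg (fun h => h.1 hμ), map_zero, zero_mul]
    rw [h1, if_neg (not_not.mpr hμ), if_neg (not_not.mpr hμ), map_sub, map_pow, S.aeval_lin hμ,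
      map_zero]
    ring
  · have h1 : ∑ c, aeval S.Y (if μ ∉ L.C1 ∧ c = μ then (-1 : MvPolynomial S.υ (ZMod p)) else 0) *
        mon L.τ (-Pi.single (Sum.inr c) 1) = -L.z μ := by
      rw [Finset.sum_eq_single μ]
      · rw [if_pos ⟨hμ, rfl⟩, mon_neg_single, L.τ_inr_of_notMem hμ, inv_inv, map_neg, map_one]
        ring
      · intro c _ hc
        rw [if_neg (fun h => hc h.2), map_zero, zero_mul]
      · intro h; exact absurd (Finset.mem_univ _) h
    rw [h1, if_pos hμ, if_pos hμ, mon_neg_smul, L.τ_inr_of_notMem hμ, map_one, map_zero]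
    rw [inv_pow, inv_inv]
    ring

theorem rel_0 (a : Fin S.d₀) : ∑ s, aeval S.Y (S.c0 a s) * mon L.τ (S.x0 s) = 0 := by
  rw [sum_Tm]
  simp only [EData.c0, EData.x0, Sum.elim_inl, Sum.elim_inr, cond_true, cond_false, mon_zero,
    mul_one, map_zero, Finset.sum_const_zero, add_zero, zero_add]
  rw [aeval_cJ_inl, map_sub, map_pow, aeval_X]
  show -(L.z (S.β (Sum.inl a)) ^ p - L.z (S.β (Sum.inl a))) +
    (L.z (S.β (Sum.inl a)) ^ p - L.z (S.β (Sum.inl a))) = 0
  ring

end Rel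

end Pool.Agent.H96.W
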