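import Pool.Agent.H96.W.LocB

/-!
# The differentials of the relations
-/

set_option autoImplicit false
set_option linter.unusedSectionVars false

namespace Pool.Agent.H96.W

open MvPolynomial IsLocalRing Pool.Agent.H96.Reg Pool.Agent.H96.VL

variable {p : ℕ} [Fact p.Prime] {K : Type} [Field K] [Algebra (ZMod p) K]
  {V : ValuationSubring K} {I : Type} [Fintype I] [DecidableEq I] {m : ℕ}
  {D : I → Fin m → ZMod p} {M : ℕ} {L : LData p V I m D M}

/-- The chart. -/
structure Ctx (L : LData p V I m D M) (C : Cone (I ⊕ (Fin m → ZMod p))) : Prop where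
  hC : IsCone C
  hb : ∀ j, V.valuation (mon L.τ (C.b j)) ≤ 1
  hS : ∀ u ∈ PP (I ⊕ (Fin m → ZMod p)) (max M p), ∀ u' ∈ PP (I ⊕ (Fin m → ZMod p)) (max M p),
    Sgn C (u - u')

theorem one_le_max : 1 ≤ max M p := (Fact.out : p.Prime).one_le.trans (le_max_right _ _)

section Mem

variable {S : EData L}

theorem xI_mem (i : I) (s : Tm p I m) : S.xI i s ∈ PP (I ⊕ (Fin m → ZMod p)) (max M p) := by
  rcases s with s | _ | _
  · exact zero_mem_PP
  · exact zero_mem_PP
  · exact single_mem_PP _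

theorem xC_mem (c : Fin m → ZMod p) (s : Tm p I m) :
    S.xC c s ∈ PP (I ⊕ (Fin m → ZMod p)) (max M p) := by
  classical
  rw [EData.xC]
  split_ifs with hc
  · rcases s with s | _ | _
    · exact zero_mem_PP
    · exact zero_mem_PP
    · exact single_mem_PP _
  · rcases s with (s | s) | _ | _
    · exact zero_mem_PP
    · exact neg_one_mem_PP _ one_le_max
    · exact zero_mem_PP
    · exact neg_one_mem_PP _ one_le_max

theorem xJ_mem (μ : Fin m → ZMod p) (s : Tm p I m) :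
    S.xJ μ s ∈ PP (I ⊕ (Fin m → ZMod p)) (max M p) := by
  rcases s with (i | s) | _ | _
  · exact neg_mem_PP _ ((L.eM i).trans (le_max_left _ _))
  · exact neg_one_mem_PP _ one_le_max
  · exact zero_mem_PP
  · exact neg_mem_PP _ (le_max_right _ _)

theorem x0_mem (s : Tm p I m) : S.x0 s ∈ PP (I ⊕ (Fin m → ZMod p)) (max M p) := by
  rcases s with (i | s) | _ | _
  · exact neg_mem_PP _ ((L.eM i).trans (le_max_left _ _))
  · exact zero_mem_PP
  · exact zero_mem_PP
  · exact zero_mem_PP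

end Mem

variable [Algebra (ZMod p) (ResidueField V)] {C : Cone (I ⊕ (Fin m → ZMod p))}
  {S : EData L}

theorem natCast_p (V : ValuationSubring K) [Algebra (ZMod p) (ResidueField V)] :
    (p : ResidueField V) = 0 := by
  have h1 : algebraMap (ZMod p) (ResidueField V) (p : ZMod p) = 0 := by
    rw [ZMod.natCast_self, map_zero]
  rwa [map_natCast] at h1

theorem natCast_ne (V : ValuationSubring K) [Algebra (ZMod p) (ResidueField V)] {n : ℕ}
    (hn : ¬ p ∣ n) : (n : ResidueField V) ≠ 0 := by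
  have hc : CharP (ResidueField V) p :=
    charP_of_injective_algebraMap (algebraMap (ZMod p) (ResidueField V)).injective p
  rwa [Ne, CharP.cast_eq_zero_iff (ResidueField V) p]

section RI

theorem LL_I_one (h : Ctx L C) {i : I} (ht : L.t i = 1) :
    LL V L.τ S.Y C (S.cI i) (S.xI i) (Sum.inl i) ≠ 0 := by
  classical
  refine LL_ne_zero (Sum.inr true) ?_ ?_ ?_ ?_
  · rintro (s | _ | _) hs
    · exact Or.inl rfl
    · right; right
      show (((0 : ℤ)) : ResidueField V) = 0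
      rw [Int.cast_zero]
    · exact absurd rfl hs
  · show aeval _ (1 : MvPolynomial S.υ (ZMod p)) ≠ 0
    rw [map_one]; exact one_ne_zero
  · refine ee_ne_zero L.τ_ne_zero h.hC h.hb (fun s _ s' _ => h.hS _ (xI_mem i s) _ (xI_mem i s'))
      (show S.cI i (Sum.inr true) ≠ 0 from one_ne_zero) ?_
    rintro (s | _ | _) hs
    · exact absurd rfl hs
    · show V.valuation (mon L.τ 0) ≤ V.valuation (mon L.τ (Pi.single (Sum.inl i) 1))
      rw [mon_zero, mon_single, L.τ_inl, ht]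
    · exact le_rfl
  · show (((Pi.single (Sum.inl i) 1 : (I ⊕ (Fin m → ZMod p)) → ℤ) (Sum.inl i) : ℤ) :
      ResidueField V) ≠ 0
    rw [Pi.single_eq_same, Int.cast_one]
    exact one_ne_zero

theorem LL_I_of_ne {i : I} {α : I ⊕ (Fin m → ZMod p)} (hα : α ≠ Sum.inl i) :
    LL V L.τ S.Y C (S.cI i) (S.xI i) α = 0 := by
  apply LL_eq_zero
  rintro (s | _ | _)
  · exact Or.inl rfl
  · right; right
    show (((0 : ℤ)) : ResidueField V) = 0
    rw [Int.cast_zero]
  · right; right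
    show (((Pi.single (Sum.inl i) 1 : (I ⊕ (Fin m → ZMod p)) → ℤ) α : ℤ) : ResidueField V) = 0
    rw [Pi.single_eq_of_ne hα, Int.cast_zero]

theorem cI_false_ne (i : I) : S.cI i (Sum.inr false) ≠ 0 := by
  classical
  show (if L.t i = 1 then -1 else -X (Sum.inl ⟨i, L.l i⟩) : MvPolynomial S.υ (ZMod p)) ≠ 0
  split_ifs
  · exact neg_ne_zero.mpr one_ne_zero
  · exact neg_ne_zero.mpr (X_ne_zero _)

theorem vt_lt {i : I} (ht : L.t i ≠ 1) : V.valuation (L.t i) < 1 := by
  rcases L.t1 i with h1 | ⟨h1, -, -⟩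
  · exact absurd h1 ht
  · exact h1

theorem LL_I_unif (h : Ctx L C) {i : I} (ht : L.t i ≠ 1) (α : I ⊕ (Fin m → ZMod p)) :
    LL V L.τ S.Y C (S.cI i) (S.xI i) α = 0 := by
  apply LL_eq_zero
  rintro (s | _ | _)
  · exact Or.inl rfl
  · right; right
    show (((0 : ℤ)) : ResidueField V) = 0
    rw [Int.cast_zero]
  · right; left
    refine ee_eq_zero L.τ_ne_zero h.hC h.hb (fun s _ s' _ => h.hS _ (xI_mem i s) _ (xI_mem i s'))
      (show S.cI i (Sum.inr true) ≠ 0 from one_ne_zero) (cI_false_ne i) ?_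
    show V.valuation (mon L.τ (Pi.single (Sum.inl i) 1)) < V.valuation (mon L.τ 0)
    rw [mon_zero, mon_single, L.τ_inl, map_one]
    exact vt_lt ht

theorem TT_I_one {i : I} (ht : L.t i = 1) (l : S.υ) :
    TT V L.τ S.Y C (S.cI i) (S.xI i) l = 0 := by
  classical
  apply TT_eq_zero
  rintro (s | _ | _)
  · exact map_zero _
  · show pderiv l (if L.t i = 1 then -1 else -X (Sum.inl ⟨i, L.l i⟩) : MvPolynomial S.υ (ZMod p)) = 0
    rw [if_pos ht, map_neg, ← MvPolynomial.C_1, pderiv_C, neg_zero]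
  · show pderiv l (1 : MvPolynomial S.υ (ZMod p)) = 0
    rw [← MvPolynomial.C_1, pderiv_C]

theorem TT_I_unif (h : Ctx L C) {i : I} (ht : L.t i ≠ 1) : ∃ w : ResidueField V, w ≠ 0 ∧
    ∀ l, TT V L.τ S.Y C (S.cI i) (S.xI i) l = if l = Sum.inl ⟨i, L.l i⟩ then w else 0 := by
  classical
  refine ⟨-ee V L.τ C (mrel C (S.cI i) (S.xI i)) (Sum.inr false), neg_ne_zero.mpr ?_, fun l => ?_⟩
  · refine ee_ne_zero L.τ_ne_zero h.hC h.hb (fun s _ s' _ => h.hS _ (xI_mem i s) _ (xI_mem i s'))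
      (cI_false_ne i) ?_
    rintro (s | _ | _) hs
    · exact absurd rfl hs
    · exact le_rfl
    · show V.valuation (mon L.τ (Pi.single (Sum.inl i) 1)) ≤ V.valuation (mon L.τ 0)
      rw [mon_zero, mon_single, L.τ_inl, map_one]
      exact (vt_lt ht).le
  · rw [TT_eq_single (Sum.inr false)]
    · have h1 : S.cI i (Sum.inr false) = -X (Sum.inl ⟨i, L.l i⟩) := if_neg ht
      rw [h1, map_neg, pderiv_X, Pi.single_apply]
      by_cases hl : l = Sum.inl ⟨i, L.l i⟩
      · rw [if_pos hl.symm, if_pos hl, map_neg, map_one, neg_one_mul]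
      · rw [if_neg (Ne.symm hl), if_neg hl, neg_zero, map_zero, zero_mul]
    · rintro (s | _ | _) hs
      · exact map_zero _
      · exact absurd rfl hs
      · show pderiv l (1 : MvPolynomial S.υ (ZMod p)) = 0
        rw [← MvPolynomial.C_1, pderiv_C]

end RI

section RG

theorem LL_G (i : I) (k : Fin (L.n i)) (α : I ⊕ (Fin m → ZMod p)) :
    LL V L.τ S.Y C (S.cG i k) 0 α = 0 := by
  apply LL_eq_zero
  intro s
  right; right
  show (((0 : ℤ)) : ResidueField V) = 0
  rw [Int.cast_zero]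

theorem TT_G (i : I) (k : Fin (L.n i)) (l : S.υ) :
    TT V L.τ S.Y C (S.cG i k) 0 l = aeval (fun l => resv V (S.Y l))
      (pderiv l (rename (fun b => Sum.inl ⟨i, b⟩) (L.G i k.succ) : MvPolynomial S.υ (ZMod p))) := by
  classical
  rw [TT_eq_single (Sum.inr false)]
  · have h1 : S.cG i k (Sum.inr false) = rename (fun b => Sum.inl ⟨i, b⟩) (L.G i k.succ) := rfl
    by_cases h2 : S.cG i k (Sum.inr false) = 0
    · rw [← h1, h2, map_zero, map_zero, zero_mul]
    · have he : ee V L.τ C (mrel C (S.cG i k) 0) (Sum.inr false) = 1 :=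
        ee_eq_one (fun s _ => rfl) h2
      rw [he, mul_one, h1]
  · rintro (s | _ | _) hs
    · exact map_zero _
    · exact absurd rfl hs
    · exact map_zero _

theorem TT_G_same (i : I) (k : Fin (L.n i)) (b : Fin (L.n i + 1)) :
    TT V L.τ S.Y C (S.cG i k) 0 (Sum.inl ⟨i, b⟩ : S.υ) =
      aeval (fun b => resv V (L.y i b)) (pderiv b (L.G i k.succ)) := by
  have hinj : Function.Injective (fun b : Fin (L.n i + 1) => (Sum.inl ⟨i, b⟩ : S.υ)) := by
    intro b b' hbb
    simpa using hbb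
  have h1 := pderiv_rename hinj b (L.G i k.succ)
  rw [TT_G]
  have h2 : pderiv (Sum.inl ⟨i, b⟩ : S.υ) (rename (fun b => Sum.inl ⟨i, b⟩) (L.G i k.succ)) =
      rename (fun b => Sum.inl ⟨i, b⟩) (pderiv b (L.G i k.succ)) := h1
  rw [h2, aeval_rename]
  rfl

theorem TT_G_of_notMem (i : I) (k : Fin (L.n i)) (l : S.υ) (hl : ∀ b, l ≠ Sum.inl ⟨i, b⟩) :
    TT V L.τ S.Y C (S.cG i k) 0 l = 0 := by
  rw [TT_G, pderiv_eq_zero_of_notMem_vars, map_zero]
  intro h
  obtain ⟨b, -, hb⟩ := mem_vars_rename _ _ h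
  exact hl b hb.symm

end RG

section RC

theorem LL_C_mem (h : Ctx L C) {c : Fin m → ZMod p} (hc : c ∈ L.C1) :
    LL V L.τ S.Y C (S.cC c) (S.xC c) (Sum.inr c) ≠ 0 := by
  classical
  have hcc : S.cC c = Sum.elim (fun _ => 0) fun b => cond b 1 (-1) := if_pos hc
  have hxc : S.xC c = Sum.elim (fun _ => 0) fun b => cond b (Pi.single (Sum.inr c) 1) 0 := if_pos hc
  refine LL_ne_zero (Sum.inr true) ?_ ?_ ?_ ?_
  · rintro (s | _ | _) hs
    · left; rw [hcc]; rfl
    · right; right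
      rw [hxc]
      show (((0 : ℤ)) : ResidueField V) = 0
      rw [Int.cast_zero]
    · exact absurd rfl hs
  · rw [hcc]
    show aeval _ (1 : MvPolynomial S.υ (ZMod p)) ≠ 0
    rw [map_one]; exact one_ne_zero
  · refine ee_ne_zero L.τ_ne_zero h.hC h.hb (fun s _ s' _ => h.hS _ (xC_mem c s) _ (xC_mem c s'))
      (by rw [hcc]; exact one_ne_zero) ?_
    intro s hs
    rw [hcc] at hs
    rw [hxc]
    rcases s with s | _ | _
    · exact absurd rfl hs
    · show V.valuation (mon L.τ 0) ≤ V.valuation (mon L.τ (Pi.single (Sum.inr c) 1))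
      rw [mon_zero, mon_single, L.τ_inr_of_mem hc]
    · exact le_rfl
  · rw [hxc]
    show (((Pi.single (Sum.inr c) 1 : (I ⊕ (Fin m → ZMod p)) → ℤ) (Sum.inr c) : ℤ) :
      ResidueField V) ≠ 0
    rw [Pi.single_eq_same, Int.cast_one]
    exact one_ne_zero

theorem LL_C_mem_of_ne {c : Fin m → ZMod p} (hc : c ∈ L.C1) {α : I ⊕ (Fin m → ZMod p)}
    (hα : α ≠ Sum.inr c) : LL V L.τ S.Y C (S.cC c) (S.xC c) α = 0 := by
  classical
  have hcc : S.cC c = Sum.elim (fun _ => 0) fun b => cond b 1 (-1) := if_pos hc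
  have hxc : S.xC c = Sum.elim (fun _ => 0) fun b => cond b (Pi.single (Sum.inr c) 1) 0 := if_pos hc
  apply LL_eq_zero
  rw [hxc]
  rintro (s | _ | _)
  · left; rw [hcc]; rfl
  · right; right
    show (((0 : ℤ)) : ResidueField V) = 0
    rw [Int.cast_zero]
  · right; right
    show (((Pi.single (Sum.inr c) 1 : (I ⊕ (Fin m → ZMod p)) → ℤ) α : ℤ) : ResidueField V) = 0
    rw [Pi.single_eq_of_ne hα, Int.cast_zero]

theorem TT_C_mem {c : Fin m → ZMod p} (hc : c ∈ L.C1) (l : S.υ) :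
    TT V L.τ S.Y C (S.cC c) (S.xC c) l = 0 := by
  classical
  have hcc : S.cC c = Sum.elim (fun _ => 0) fun b => cond b 1 (-1) := if_pos hc
  apply TT_eq_zero
  rw [hcc]
  rintro (s | _ | _)
  · exact map_zero _
  · show pderiv l (-1 : MvPolynomial S.υ (ZMod p)) = 0
    rw [map_neg, ← MvPolynomial.C_1, pderiv_C, neg_zero]
  · show pderiv l (1 : MvPolynomial S.υ (ZMod p)) = 0
    rw [← MvPolynomial.C_1, pderiv_C]

theorem LL_C_pole (h : Ctx L C) {c : Fin m → ZMod p} (hc : c ∉ L.C1) (hcB : c ∉ S.B) :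
    LL V L.τ S.Y C (S.cC c) (S.xC c) (Sum.inr c) ≠ 0 := by
  classical
  have hcc : S.cC c = Sum.elim (Sum.elim (fun _ => 0) fun b =>
      if b ∈ S.B then -MvPolynomial.C (S.a c b) else 0) fun b =>
      cond b 1 (-S.lin (c - ∑ b ∈ S.B, S.a c b • b)) := if_neg hc
  have hxc : S.xC c = Sum.elim (Sum.elim (fun _ => 0) fun b => -Pi.single (Sum.inr b) 1) fun b =>
      cond b (-Pi.single (Sum.inr c) 1) 0 := if_neg hc
  refine LL_ne_zero (Sum.inr true) ?_ ?_ ?_ ?_
  · rintro ((s | b) | _ | _) hs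
    · left; rw [hcc]; rfl
    · by_cases hb : b = c
      · left
        rw [hcc]
        show (if b ∈ S.B then -MvPolynomial.C (S.a c b) else 0 : MvPolynomial S.υ (ZMod p)) = 0
        rw [hb, if_neg hcB]
      · right; right
        rw [hxc]
        show (((-Pi.single (Sum.inr b) 1 : (I ⊕ (Fin m → ZMod p)) → ℤ) (Sum.inr c) : ℤ) :
          ResidueField V) = 0
        rw [Pi.neg_apply, Pi.single_eq_of_ne (by
          intro h'
          exact hb (Sum.inr_injective h').symm), neg_zero, Int.cast_zero]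
    · right; right
      rw [hxc]
      show (((0 : ℤ)) : ResidueField V) = 0
      rw [Int.cast_zero]
    · exact absurd rfl hs
  · rw [hcc]
    show aeval _ (1 : MvPolynomial S.υ (ZMod p)) ≠ 0
    rw [map_one]; exact one_ne_zero
  · refine ee_ne_zero L.τ_ne_zero h.hC h.hb (fun s _ s' _ => h.hS _ (xC_mem c s) _ (xC_mem c s'))
      (by rw [hcc]; exact one_ne_zero) ?_
    intro s hs
    rw [hcc] at hs
    rw [hxc]
    rcases s with (s | b) | _ | _
    · exact absurd rfl hs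
    · have hs' : (if b ∈ S.B then -MvPolynomial.C (S.a c b) else 0 :
        MvPolynomial S.υ (ZMod p)) ≠ 0 := hs
      have hbB : b ∈ S.B := by
        by_contra hb
        rw [if_neg hb] at hs'
        exact hs' rfl
      rw [if_pos hbB] at hs'
      have hab : S.a c b ≠ 0 := by
        intro h0
        rw [h0, map_zero, neg_zero] at hs'
        exact hs' rfl
      show V.valuation (mon L.τ (-Pi.single (Sum.inr b) 1)) ≤
        V.valuation (mon L.τ (-Pi.single (Sum.inr c) 1))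
      rw [mon_neg_single, mon_neg_single, L.τ_inr_of_notMem hc, L.τ_inr_of_notMem (S.hB b hbB),
        inv_inv, inv_inv]
      exact (S.ha c b hab).2
    · show V.valuation (mon L.τ 0) ≤ V.valuation (mon L.τ (-Pi.single (Sum.inr c) 1))
      rw [mon_zero, mon_neg_single, L.τ_inr_of_notMem hc, inv_inv, map_one]
      exact (not_le.mp hc).le
    · exact le_rfl
  · rw [hxc]
    show (((-Pi.single (Sum.inr c) 1 : (I ⊕ (Fin m → ZMod p)) → ℤ) (Sum.inr c) : ℤ) :
      ResidueField V) ≠ 0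
    rw [Pi.neg_apply, Pi.single_eq_same, Int.cast_neg, Int.cast_one]
    exact neg_ne_zero.mpr one_ne_zero

theorem LL_C_pole_of_ne {c c' : Fin m → ZMod p} (hc : c ∉ L.C1) (hc' : c' ∉ S.B) (hne : c' ≠ c) :
    LL V L.τ S.Y C (S.cC c) (S.xC c) (Sum.inr c') = 0 := by
  classical
  have hcc : S.cC c = Sum.elim (Sum.elim (fun _ => 0) fun b =>
      if b ∈ S.B then -MvPolynomial.C (S.a c b) else 0) fun b =>
      cond b 1 (-S.lin (c - ∑ b ∈ S.B, S.a c b • b)) := if_neg hc
  have hxc : S.xC c = Sum.elim (Sum.elim (fun _ => 0) fun b => -Pi.single (Sum.inr b) 1) fun b =>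
      cond b (-Pi.single (Sum.inr c) 1) 0 := if_neg hc
  apply LL_eq_zero
  rintro ((s | b) | _ | _)
  · left; rw [hcc]; rfl
  · by_cases hb : b ∈ S.B
    · right; right
      rw [hxc]
      show (((-Pi.single (Sum.inr b) 1 : (I ⊕ (Fin m → ZMod p)) → ℤ) (Sum.inr c') : ℤ) :
        ResidueField V) = 0
      rw [Pi.neg_apply, Pi.single_eq_of_ne (by
        intro h'
        apply hc'
        rw [Sum.inr_injective h']
        exact hb), neg_zero, Int.cast_zero]
    · left
      rw [hcc]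
      exact if_neg hb
  · right; right
    rw [hxc]
    show (((0 : ℤ)) : ResidueField V) = 0
    rw [Int.cast_zero]
  · right; right
    rw [hxc]
    show (((-Pi.single (Sum.inr c) 1 : (I ⊕ (Fin m → ZMod p)) → ℤ) (Sum.inr c') : ℤ) :
      ResidueField V) = 0
    rw [Pi.neg_apply, Pi.single_eq_of_ne (by
      intro h'
      exact hne (Sum.inr_injective h')), neg_zero, Int.cast_zero]

end RC

section RJ

theorem cJ_inr_eq (μ b : Fin m → ZMod p) (h : S.cJ μ (Sum.inl (Sum.inr b)) ≠ 0) :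
    μ ∉ L.C1 ∧ b = μ := by
  classical
  by_contra hcon
  apply h
  exact if_neg hcon

theorem cJ_true (μ : Fin m → ZMod p) (h : S.cJ μ (Sum.inr true) ≠ 0) : μ ∉ L.C1 := by
  classical
  by_contra hcon
  apply h
  exact if_neg (not_not.mpr hcon)

theorem cJ_true_ne {μ : Fin m → ZMod p} (h : μ ∉ L.C1) : S.cJ μ (Sum.inr true) ≠ 0 := by
  classical
  have : S.cJ μ (Sum.inr true) = 1 := if_pos h
  rw [this]; exact one_ne_zero

theorem cJ_inl (μ : Fin m → ZMod p) (i : I) : S.cJ μ (Sum.inl (Sum.inl i)) =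
    -(MvPolynomial.C (μ ⬝ᵥ D i) * X (Sum.inl ⟨i, L.u i⟩)) := rfl

theorem cJ_inl_ne {μ : Fin m → ZMod p} {i : I} (h : S.cJ μ (Sum.inl (Sum.inl i)) ≠ 0) :
    μ ⬝ᵥ D i ≠ 0 := by
  intro h0
  apply h
  rw [cJ_inl, h0, map_zero, zero_mul, neg_zero]

theorem LL_J_inr (h : Ctx L C) (μ c' : Fin m → ZMod p) :
    LL V L.τ S.Y C (S.cJ μ) (S.xJ μ) (Sum.inr c') = 0 := by
  classical
  apply LL_eq_zero
  rintro ((i | b) | _ | _)
  · right; right
    show (((-((L.e i : ℤ) • Pi.single (Sum.inl i) 1) : (I ⊕ (Fin m → ZMod p)) → ℤ) (Sum.inr c') :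
      ℤ) : ResidueField V) = 0
    rw [Pi.neg_apply, Pi.smul_apply, Pi.single_eq_of_ne Sum.inr_ne_inl, smul_zero, neg_zero,
      Int.cast_zero]
  · by_cases h1 : S.cJ μ (Sum.inl (Sum.inr b)) = 0
    · exact Or.inl h1
    · right; left
      obtain ⟨h2, h3⟩ := cJ_inr_eq μ b h1
      refine ee_eq_zero L.τ_ne_zero h.hC h.hb (fun s _ s' _ => h.hS _ (xJ_mem μ s) _ (xJ_mem μ s'))
        h1 (cJ_true_ne h2) ?_
      show V.valuation (mon L.τ (-Pi.single (Sum.inr b) 1)) <
        V.valuation (mon L.τ (-((p : ℤ) • Pi.single (Sum.inr μ) 1)))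
      rw [mon_neg_single, mon_neg_smul, h3, L.τ_inr_of_notMem h2, inv_inv, inv_pow, inv_inv]
      exact (val_pow_sub (p := p) (Fact.out : p.Prime).two_le h2).2
  · right; right
    show (((0 : ℤ)) : ResidueField V) = 0
    rw [Int.cast_zero]
  · right; right
    show (((-((p : ℤ) • Pi.single (Sum.inr μ) 1) : (I ⊕ (Fin m → ZMod p)) → ℤ) (Sum.inr c') :
      ℤ) : ResidueField V) = 0
    rw [Pi.neg_apply, Pi.smul_apply, smul_eq_mul, Int.cast_neg, Int.cast_mul, Int.cast_natCast,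
      natCast_p V, zero_mul, neg_zero]

theorem LL_J_self (h : Ctx L C) {j : I} (hj : j ∈ S.J) :
    LL V L.τ S.Y C (S.cJ (S.μ j)) (S.xJ (S.μ j)) (Sum.inl j) ≠ 0 := by
  classical
  have hej := S.hJ j hj
  obtain ⟨hpe, hvu, -⟩ := L.act j hej
  have hμj : S.μ j ⬝ᵥ D j = 1 := by rw [S.hμ j hj j hj, if_pos rfl]
  have hne : S.cJ (S.μ j) (Sum.inl (Sum.inl j)) ≠ 0 := by
    rw [cJ_inl, hμj, map_one, one_mul]
    exact neg_ne_zero.mpr (X_ne_zero _)
  have hvj : V.valuation (mon L.τ (-((L.e j : ℤ) • Pi.single (Sum.inl j) 1))) =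
      V.valuation (L.f j) := by
    rw [mon_neg_smul, L.τ_inl, L.vf_act hej]
  have hbd : ∀ i, S.μ j ⬝ᵥ D i ≠ 0 → V.valuation (L.f i) ≤ V.valuation (L.f j) := by
    intro i hi
    by_cases hei : L.e i = 0
    · exact (L.vf_inact hei).trans (L.vf_act_gt hej).le
    · exact S.hμ' j hj i hei hi
  refine LL_ne_zero (Sum.inl (Sum.inl j)) ?_ ?_ ?_ ?_
  · rintro ((i | b) | _ | _) hs
    · right; right
      show (((-((L.e i : ℤ) • Pi.single (Sum.inl i) 1) : (I ⊕ (Fin m → ZMod p)) → ℤ) (Sum.inl j) :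
        ℤ) : ResidueField V) = 0
      rw [Pi.neg_apply, Pi.smul_apply, Pi.single_eq_of_ne (by
        intro h'
        apply hs
        rw [h']), smul_zero, neg_zero, Int.cast_zero]
    · right; right
      show (((-Pi.single (Sum.inr b) 1 : (I ⊕ (Fin m → ZMod p)) → ℤ) (Sum.inl j) : ℤ) :
        ResidueField V) = 0
      rw [Pi.neg_apply, Pi.single_eq_of_ne Sum.inl_ne_inr, neg_zero, Int.cast_zero]
    · right; right
      show (((0 : ℤ)) : ResidueField V) = 0
      rw [Int.cast_zero]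
    · right; right
      show (((-((p : ℤ) • Pi.single (Sum.inr (S.μ j)) 1) : (I ⊕ (Fin m → ZMod p)) → ℤ) (Sum.inl j) :
        ℤ) : ResidueField V) = 0
      rw [Pi.neg_apply, Pi.smul_apply, Pi.single_eq_of_ne Sum.inl_ne_inr, smul_zero, neg_zero,
        Int.cast_zero]
  · rw [cJ_inl, hμj, map_one, one_mul, map_neg, aeval_X]
    refine neg_ne_zero.mpr ?_
    show resv V (L.y j (L.u j)) ≠ 0
    rw [resv_ne_zero_iff (L.vy _ _)]
    exact hvu
  · refine ee_ne_zero L.τ_ne_zero h.hC h.hb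
      (fun s _ s' _ => h.hS _ (xJ_mem _ s) _ (xJ_mem _ s')) hne ?_
    rintro ((i | b) | _ | _) hs
    · show V.valuation (mon L.τ (-((L.e i : ℤ) • Pi.single (Sum.inl i) 1))) ≤
        V.valuation (mon L.τ (-((L.e j : ℤ) • Pi.single (Sum.inl j) 1)))
      rw [hvj]
      by_cases hei : L.e i = 0
      · rw [hei, Nat.cast_zero, zero_smul, neg_zero, mon_zero, map_one]
        exact (L.vf_act_gt hej).le
      · rw [mon_neg_smul, L.τ_inl, ← L.vf_act hei]
        exact S.hμ' j hj i hei (cJ_inl_ne hs)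
    · obtain ⟨h2, h3⟩ := cJ_inr_eq _ b hs
      show V.valuation (mon L.τ (-Pi.single (Sum.inr b) 1)) ≤
        V.valuation (mon L.τ (-((L.e j : ℤ) • Pi.single (Sum.inl j) 1)))
      rw [hvj, mon_neg_single, h3, L.τ_inr_of_notMem h2, inv_inv]
      exact (val_pow_sub (p := p) (Fact.out : p.Prime).two_le h2).2.le.trans (L.vz_pow_le h2 hbd)
    · show V.valuation (mon L.τ 0) ≤ V.valuation (mon L.τ (-((L.e j : ℤ) • Pi.single (Sum.inl j) 1)))
      rw [hvj, mon_zero, map_one]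
      exact (L.vf_act_gt hej).le
    · have h2 := cJ_true _ hs
      show V.valuation (mon L.τ (-((p : ℤ) • Pi.single (Sum.inr (S.μ j)) 1))) ≤
        V.valuation (mon L.τ (-((L.e j : ℤ) • Pi.single (Sum.inl j) 1)))
      rw [hvj, mon_neg_smul, L.τ_inr_of_notMem h2, inv_pow, inv_inv]
      exact L.vz_pow_le h2 hbd
  · show (((-((L.e j : ℤ) • Pi.single (Sum.inl j) 1) : (I ⊕ (Fin m → ZMod p)) → ℤ) (Sum.inl j) :
      ℤ) : ResidueField V) ≠ 0
    rw [Pi.neg_apply, Pi.smul_apply, Pi.single_eq_same, smul_eq_mul, mul_one, Int.cast_neg,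
      Int.cast_natCast]
    exact neg_ne_zero.mpr (natCast_ne V hpe)

theorem LL_J_of_ne {j j' : I} (hj : j ∈ S.J) (hj' : j' ∈ S.J) (hne : j ≠ j') :
    LL V L.τ S.Y C (S.cJ (S.μ j)) (S.xJ (S.μ j)) (Sum.inl j') = 0 := by
  classical
  apply LL_eq_zero
  rintro ((i | b) | _ | _)
  · by_cases hi : i = j'
    · left
      rw [cJ_inl, hi, S.hμ j hj j' hj', if_neg hne, map_zero, zero_mul, neg_zero]
    · right; right
      show (((-((L.e i : ℤ) • Pi.single (Sum.inl i) 1) : (I ⊕ (Fin m → ZMod p)) → ℤ) (Sum.inl j') :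
        ℤ) : ResidueField V) = 0
      rw [Pi.neg_apply, Pi.smul_apply, Pi.single_eq_of_ne (by
        intro h'
        exact hi (Sum.inl_injective h').symm), smul_zero, neg_zero, Int.cast_zero]
  · right; right
    show (((-Pi.single (Sum.inr b) 1 : (I ⊕ (Fin m → ZMod p)) → ℤ) (Sum.inl j') : ℤ) :
      ResidueField V) = 0
    rw [Pi.neg_apply, Pi.single_eq_of_ne Sum.inl_ne_inr, neg_zero, Int.cast_zero]
  · right; right
    show (((0 : ℤ)) : ResidueField V) = 0
    rw [Int.cast_zero]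
  · right; right
    show (((-((p : ℤ) • Pi.single (Sum.inr (S.μ j)) 1) : (I ⊕ (Fin m → ZMod p)) → ℤ) (Sum.inl j') :
      ℤ) : ResidueField V) = 0
    rw [Pi.neg_apply, Pi.smul_apply, Pi.single_eq_of_ne Sum.inl_ne_inr, smul_zero, neg_zero,
      Int.cast_zero]

end RJ

section R0

theorem c0_inl (a : Fin S.d₀) (i : I) : S.c0 a (Sum.inl (Sum.inl i)) =
    -(MvPolynomial.C (S.β (Sum.inl a) ⬝ᵥ D i) * X (Sum.inl ⟨i, L.u i⟩)) := rfl

theorem c0_false (a : Fin S.d₀) : S.c0 a (Sum.inr false) =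
    X (Sum.inr (Sum.inl a)) ^ p - X (Sum.inr (Sum.inl a)) := rfl

theorem x0_eq_zero {a : Fin S.d₀} {s : Tm p I m} (hs : S.c0 a s ≠ 0) : S.x0 s = 0 := by
  rcases s with (i | b) | _ | _
  · by_cases he : L.e i = 0
    · show -((L.e i : ℤ) • Pi.single (Sum.inl i) 1) = (0 : (I ⊕ (Fin m → ZMod p)) → ℤ)
      rw [he, Nat.cast_zero, zero_smul, neg_zero]
    · exfalso
      apply hs
      rw [c0_inl, S.hβ₀ a i he, map_zero, zero_mul, neg_zero]
  · rfl
  · rfl
  · rfl

theorem LL_0 (a : Fin S.d₀) (α : I ⊕ (Fin m → ZMod p)) : LL V L.τ S.Y C (S.c0 a) S.x0 α = 0 := by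
  apply LL_eq_zero
  intro s
  by_cases hs : S.c0 a s = 0
  · exact Or.inl hs
  · right; right
    rw [x0_eq_zero hs, Pi.zero_apply, Int.cast_zero]

theorem TT_0 (a a' : Fin S.d₀) : TT V L.τ S.Y C (S.c0 a) S.x0 (Sum.inr (Sum.inl a')) =
    if a = a' then -1 else 0 := by
  classical
  have hcp : ((p : ℕ) : MvPolynomial S.υ (ZMod p)) = 0 := by
    rw [← map_natCast MvPolynomial.C, ZMod.natCast_self, map_zero]
  have hd : ∀ l : S.υ, pderiv l (S.c0 a (Sum.inr false)) =
      -(if l = Sum.inr (Sum.inl a) then (1 : MvPolynomial S.υ (ZMod p)) else 0) := by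
    intro l
    rw [c0_false, map_sub, pderiv_pow, hcp, zero_mul, zero_mul, zero_sub, pderiv_X,
      Pi.single_apply]
    by_cases hl : l = Sum.inr (Sum.inl a)
    · rw [if_pos hl.symm, if_pos hl]
    · rw [if_neg (Ne.symm hl), if_neg hl]
  rw [TT_eq_single (Sum.inr false)]
  · have h2 : S.c0 a (Sum.inr false) ≠ 0 := by
      intro h0
      have h3 := hd (Sum.inr (Sum.inl a))
      rw [h0, map_zero, if_pos rfl] at h3
      exact neg_ne_zero.mpr one_ne_zero h3.symm
    have he : ee V L.τ C (mrel C (S.c0 a) S.x0) (Sum.inr false) = 1 :=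
      ee_eq_one (fun s hs => x0_eq_zero hs) h2
    rw [he, mul_one, hd]
    by_cases ha : a = a'
    · rw [if_pos ha, if_pos (by rw [ha]), map_neg, map_one]
    · rw [if_neg ha, if_neg (by
        intro h'
        exact ha (Sum.inl_injective (Sum.inr_injective h')).symm), neg_zero, map_zero]
  · rintro ((i | b) | _ | _) hs
    · rw [c0_inl, map_neg, pderiv_C_mul, pderiv_X_of_ne Sum.inl_ne_inr, mul_zero, neg_zero]
    · exact map_zero _
    · exact absurd rfl hs
    · exact map_zero _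

end R0

end Pool.Agent.H96.W
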