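import Pool.Agent.H96.W.LocC

/-!
# Local regularity
-/

set_option autoImplicit false
set_option linter.unusedSectionVars false

namespace Pool.Agent.H96.W

open MvPolynomial IsLocalRing Pool.Agent.H96.Reg Pool.Agent.H96.VL

variable {p : ℕ} [Fact p.Prime] {K : Type} [Field K] [Algebra (ZMod p) K]
  {V : ValuationSubring K} {I : Type} [Fintype I] [DecidableEq I] {m : ℕ}
  {D : I → Fin m → ZMod p} {M : ℕ} {L : LData p V I m D M}
  [Algebra (ZMod p) (ResidueField V)] {C : Cone (I ⊕ (Fin m → ZMod p))}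
  {S : EData L}

/-- The index set of the relations. -/
abbrev EData.κ (S : EData L) : Type :=
  I ⊕ ((Σ i : I, Fin (L.n i)) ⊕ ({c : Fin m → ZMod p // c ∉ S.B} ⊕ (S.J ⊕ Fin S.d₀)))

/-- The relations. -/
noncomputable def EData.ρ (S : EData L) (C : Cone (I ⊕ (Fin m → ZMod p))) :
    S.κ → MRel (I ⊕ (Fin m → ZMod p)) S.υ (ZMod p) (Tm p I m) :=
  Sum.elim (fun i => mrel C (S.cI i) (S.xI i)) (Sum.elim (fun s => mrel C (S.cG s.1 s.2) 0)
    (Sum.elim (fun c => mrel C (S.cC c) (S.xC c))
      (Sum.elim (fun j => mrel C (S.cJ (S.μ j)) (S.xJ (S.μ j))) fun a => mrel C (S.c0 a) S.x0)))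

theorem ρ_ok (h : Ctx L C) (k : S.κ) : (S.ρ C k).Ok C := by
  rcases k with i | s | c | j | a
  · exact mrel_ok fun s _ s' _ => h.hS _ (xI_mem i s) _ (xI_mem i s')
  · exact mrel_ok fun s _ s' _ => h.hS _ zero_mem_PP _ zero_mem_PP
  · exact mrel_ok fun s _ s' _ => h.hS _ (xC_mem _ s) _ (xC_mem _ s')
  · exact mrel_ok fun s _ s' _ => h.hS _ (xJ_mem _ s) _ (xJ_mem _ s')
  · exact mrel_ok fun s _ s' _ => h.hS _ (x0_mem s) _ (x0_mem s')

theorem ρ_rel (k : S.κ) : ∑ s, aeval S.Y ((S.ρ C k).c s) * mon L.τ ((S.ρ C k).x s) = 0 := by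
  rcases k with i | s | c | j | a
  · exact rel_I i
  · exact rel_G s.1 s.2
  · exact rel_C _
  · exact rel_J _
  · exact rel_0 a

theorem card_le (S : EData L) : Fintype.card (I ⊕ (Fin m → ZMod p)) + Fintype.card S.υ ≤
    Fintype.card I + Fintype.card S.κ := by
  have h1 : Fintype.card {c : Fin m → ZMod p // c ∉ S.B} =
      Fintype.card (Fin m → ZMod p) - S.B.card := by
    rw [Fintype.card_subtype_compl, Fintype.card_coe]
  have h2 : S.B.card ≤ Fintype.card (Fin m → ZMod p) := Finset.card_le_univ _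
  have h3 := S.card₁
  have h4 := S.card₂
  simp only [EData.υ, EData.κ, Fintype.card_sum, Fintype.card_sigma, Fintype.card_fin,
    Finset.sum_add_distrib, Finset.sum_const, Finset.card_univ, smul_eq_mul, mul_one, h1,
    Fintype.card_coe]
  omega

theorem det_ne_zero (i : I) : (Matrix.of fun a b =>
    aeval (fun b => resv V (L.y i b)) (pderiv b (L.G i a))).det ≠ 0 := by
  have h1 := RingHom.map_det (aeval (fun b => resv V (L.y i b)) :
    MvPolynomial (Fin (L.n i + 1)) (ZMod p) →ₐ[ZMod p] ResidueField V).toRingHom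
      (Matrix.of fun a b => pderiv b (L.G i a))
  have h2 : (aeval (fun b => resv V (L.y i b)) :
      MvPolynomial (Fin (L.n i + 1)) (ZMod p) →ₐ[ZMod p] ResidueField V)
      (Matrix.of fun a b => pderiv b (L.G i a)).det ≠ 0 := by
    have h3 := resv_aevalA (ZMod.ringHom_surjective (Int.castRingHom (ZMod p))) (L.y i) (L.vy i)
      (Matrix.of fun a b => pderiv b (L.G i a)).det
    rw [← h3.2, resv_ne_zero_iff h3.1]
    exact L.det i
  intro h0
  apply h2
  refine h1.trans ?_
  rw [← h0]
  congr 1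

/-- **Independence.** -/
theorem ρ_indep (h : Ctx L C) (a : S.κ → ResidueField V)
    (hLα : ∀ α, ∑ k, a k * ∑ s, aeval (fun l => resv V (S.Y l)) ((S.ρ C k).c s) *
      (∏ j, resv V (mon L.τ (C.b j)) ^ (S.ρ C k).n C s j) *
      (((S.ρ C k).x s α : ℤ) : ResidueField V) = 0)
    (hTl : ∀ l, ∑ k, a k * ∑ s, aeval (fun l => resv V (S.Y l)) (pderiv l ((S.ρ C k).c s)) *
      ∏ j, resv V (mon L.τ (C.b j)) ^ (S.ρ C k).n C s j = 0) : ∀ k, a k = 0 := by
  classical
  have hL : ∀ α, ∑ i, a (Sum.inl i) * LL V L.τ S.Y C (S.cI i) (S.xI i) α +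
      (∑ s : Σ i : I, Fin (L.n i), a (Sum.inr (Sum.inl s)) * LL V L.τ S.Y C (S.cG s.1 s.2) 0 α +
      (∑ c : {c : Fin m → ZMod p // c ∉ S.B}, a (Sum.inr (Sum.inr (Sum.inl c))) *
          LL V L.τ S.Y C (S.cC c) (S.xC c) α +
      (∑ j : S.J, a (Sum.inr (Sum.inr (Sum.inr (Sum.inl j)))) *
          LL V L.τ S.Y C (S.cJ (S.μ j)) (S.xJ (S.μ j)) α +
        ∑ b, a (Sum.inr (Sum.inr (Sum.inr (Sum.inr b)))) *
          LL V L.τ S.Y C (S.c0 b) S.x0 α))) = 0 := by
    intro α
    have := hLα α
    rw [Fintype.sum_sum_type, Fintype.sum_sum_type, Fintype.sum_sum_type,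
      Fintype.sum_sum_type] at this
    exact this
  have hT : ∀ l, ∑ i, a (Sum.inl i) * TT V L.τ S.Y C (S.cI i) (S.xI i) l +
      (∑ s : Σ i : I, Fin (L.n i), a (Sum.inr (Sum.inl s)) * TT V L.τ S.Y C (S.cG s.1 s.2) 0 l +
      (∑ c : {c : Fin m → ZMod p // c ∉ S.B}, a (Sum.inr (Sum.inr (Sum.inl c))) *
          TT V L.τ S.Y C (S.cC c) (S.xC c) l +
      (∑ j : S.J, a (Sum.inr (Sum.inr (Sum.inr (Sum.inl j)))) *
          TT V L.τ S.Y C (S.cJ (S.μ j)) (S.xJ (S.μ j)) l +
        ∑ b, a (Sum.inr (Sum.inr (Sum.inr (Sum.inr b)))) *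
          TT V L.τ S.Y C (S.c0 b) S.x0 l))) = 0 := by
    intro l
    have := hTl l
    rw [Fintype.sum_sum_type, Fintype.sum_sum_type, Fintype.sum_sum_type,
      Fintype.sum_sum_type] at this
    exact this
  clear hLα hTl
  have hG0 : ∀ α, ∑ s : Σ i : I, Fin (L.n i), a (Sum.inr (Sum.inl s)) *
      LL V L.τ S.Y C (S.cG s.1 s.2) 0 α = 0 := fun α =>
    Finset.sum_eq_zero fun s _ => by rw [LL_G, mul_zero]
  have h00 : ∀ α, ∑ b, a (Sum.inr (Sum.inr (Sum.inr (Sum.inr b)))) *
      LL V L.τ S.Y C (S.c0 b) S.x0 α = 0 := fun α =>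
    Finset.sum_eq_zero fun s _ => by rw [LL_0, mul_zero]
  -- the coordinates `ω_c`
  have hac : ∀ c : {c : Fin m → ZMod p // c ∉ S.B}, a (Sum.inr (Sum.inr (Sum.inl c))) = 0 := by
    intro c
    have h1 := hL (Sum.inr c)
    rw [hG0, h00, Finset.sum_eq_zero (fun i _ => by rw [LL_I_of_ne Sum.inr_ne_inl, mul_zero]),
      zero_add, zero_add, add_zero,
      Finset.sum_eq_zero (s := (Finset.univ : Finset S.J)) (fun j _ => by
        rw [LL_J_inr h, mul_zero]), add_zero, Finset.sum_eq_single c] at h1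
    · refine (mul_eq_zero.mp h1).resolve_right ?_
      by_cases hc : (c : Fin m → ZMod p) ∈ L.C1
      · exact LL_C_mem h hc
      · exact LL_C_pole h hc c.2
    · intro c' _ hne
      have hne' : (c : Fin m → ZMod p) ≠ c' := fun h' => hne (Subtype.ext h'.symm)
      by_cases hc : (c' : Fin m → ZMod p) ∈ L.C1
      · rw [LL_C_mem_of_ne hc (fun h' => hne' (Sum.inr_injective h')), mul_zero]
      · rw [LL_C_pole_of_ne hc c.2 hne', mul_zero]
    · intro h'; exact absurd (Finset.mem_univ _) h'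
  -- the coordinates `τ_j` of the pivots
  have haj : ∀ j : S.J, a (Sum.inr (Sum.inr (Sum.inr (Sum.inl j)))) = 0 := by
    intro j
    have hj := S.hJ j j.2
    have h1 := hL (Sum.inl j)
    rw [hG0, h00, Finset.sum_eq_zero (s := (Finset.univ : Finset I)) (fun i _ => by
        by_cases hi : i = j
        · rw [LL_I_unif h (by rw [hi]; exact (L.act j hj).2.2), mul_zero]
        · rw [LL_I_of_ne (fun h' => hi (Sum.inl_injective h').symm), mul_zero]),
      zero_add, zero_add, add_zero,
      Finset.sum_eq_zero (s := (Finset.univ : Finset {c : Fin m → ZMod p // c ∉ S.B}))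
        (fun c _ => by rw [hac, zero_mul]), zero_add, Finset.sum_eq_single j] at h1
    · exact (mul_eq_zero.mp h1).resolve_right (LL_J_self h j.2)
    · intro j' _ hne
      rw [LL_J_of_ne j'.2 j.2 (fun h' => hne (Subtype.ext h')), mul_zero]
    · intro h'; exact absurd (Finset.mem_univ _) h'
  -- the trivial coordinates `τ_i`
  have hai : ∀ i, L.t i = 1 → a (Sum.inl i) = 0 := by
    intro i hi
    have h1 := hL (Sum.inl i)
    rw [hG0, h00, Finset.sum_eq_zero (s := (Finset.univ : Finset S.J)) (fun j _ => by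
        rw [haj, zero_mul]),
      Finset.sum_eq_zero (s := (Finset.univ : Finset {c : Fin m → ZMod p // c ∉ S.B}))
        (fun c _ => by rw [hac, zero_mul]), add_zero, add_zero, add_zero, add_zero,
      Finset.sum_eq_single i] at h1
    · exact (mul_eq_zero.mp h1).resolve_right (LL_I_one h hi)
    · intro i' _ hne
      rw [LL_I_of_ne (fun h' => hne (Sum.inl_injective h').symm), mul_zero]
    · intro h'; exact absurd (Finset.mem_univ _) h'
  -- the integral Artin-Schreier relations
  have hcz : ∀ l, ∑ c : {c : Fin m → ZMod p // c ∉ S.B}, a (Sum.inr (Sum.inr (Sum.inl c))) *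
      TT V L.τ S.Y C (S.cC c) (S.xC c) l = 0 := fun l =>
    Finset.sum_eq_zero fun c _ => by rw [hac, zero_mul]
  have hjz : ∀ l, ∑ j : S.J, a (Sum.inr (Sum.inr (Sum.inr (Sum.inl j)))) *
      TT V L.τ S.Y C (S.cJ (S.μ j)) (S.xJ (S.μ j)) l = 0 := fun l =>
    Finset.sum_eq_zero fun c _ => by rw [haj, zero_mul]
  have ha0 : ∀ b, a (Sum.inr (Sum.inr (Sum.inr (Sum.inr b)))) = 0 := by
    intro b
    have h1 := hT (Sum.inr (Sum.inl b))
    rw [hcz, hjz, zero_add, zero_add, Finset.sum_eq_zero (fun i _ => by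
        by_cases hi : L.t i = 1
        · rw [TT_I_one hi, mul_zero]
        · obtain ⟨w, -, hw⟩ := TT_I_unif (S := S) h hi
          rw [hw, if_neg Sum.inr_ne_inl, mul_zero]), zero_add,
      Finset.sum_eq_zero (s := (Finset.univ : Finset (Σ i : I, Fin (L.n i)))) (fun s _ => by
        rw [TT_G_of_notMem _ _ _ (fun b => Sum.inr_ne_inl), mul_zero]), zero_add,
      Finset.sum_eq_single b] at h1
    · rw [TT_0, if_pos rfl] at h1
      simpa using h1
    · intro b' _ hne
      rw [TT_0, if_neg hne, mul_zero]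
    · intro h'; exact absurd (Finset.mem_univ _) h'
  -- the curves
  have hcurve : ∀ i, (L.t i ≠ 1 → a (Sum.inl i) = 0) ∧ ∀ k : Fin (L.n i),
      a (Sum.inr (Sum.inl ⟨i, k⟩)) = 0 := by
    intro i
    -- the first relation
    obtain ⟨w, hw0, hw⟩ : ∃ w : ResidueField V, (L.t i ≠ 1 → w ≠ 0) ∧ ∀ b : Fin (L.n i + 1),
        a (Sum.inl i) * TT V L.τ S.Y C (S.cI i) (S.xI i) (Sum.inl ⟨i, b⟩ : S.υ) =
          a (Sum.inl i) * w * if b = L.l i then 1 else 0 := by
      by_cases hi : L.t i = 1
      · refine ⟨1, fun h' => absurd hi h', fun b => ?_⟩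
        rw [hai i hi, zero_mul, zero_mul, zero_mul]
      · obtain ⟨w, hw0, hw⟩ := TT_I_unif (S := S) h hi
        refine ⟨w, fun _ => hw0, fun b => ?_⟩
        rw [hw]
        by_cases hb : b = L.l i
        · rw [if_pos (by rw [hb]), if_pos hb, mul_one]
        · rw [if_neg (by
            intro h'
            apply hb
            simpa using h'), if_neg hb, mul_zero, mul_zero]
    have key : ∀ b : Fin (L.n i + 1), ∑ k : Fin (L.n i + 1),
        (Fin.cons (a (Sum.inl i) * w) (fun k => a (Sum.inr (Sum.inl ⟨i, k⟩))) :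
          Fin (L.n i + 1) → ResidueField V) k *
        aeval (fun b => resv V (L.y i b)) (pderiv b (L.G i k)) = 0 := by
      intro b
      rw [Fin.sum_univ_succ]
      simp only [Fin.cons_zero, Fin.cons_succ]
      rw [L.G0 i, pderiv_X, Pi.single_apply]
      have h1 := hT (Sum.inl ⟨i, b⟩)
      rw [hcz, hjz, Finset.sum_eq_zero (s := (Finset.univ : Finset (Fin S.d₀)))
        (fun b _ => by rw [ha0, zero_mul]), add_zero, add_zero, add_zero,
        Finset.sum_eq_single i, Fintype.sum_sigma, Finset.sum_eq_single i] at h1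
      · rw [hw b] at h1
        have h2 : (aeval (fun b => resv V (L.y i b))
            (if L.l i = b then (1 : MvPolynomial (Fin (L.n i + 1)) (ZMod p)) else 0)) =
            (if b = L.l i then (1 : ResidueField V) else 0) := by
          by_cases hb : b = L.l i
          · rw [if_pos hb.symm, if_pos hb, map_one]
          · rw [if_neg (Ne.symm hb), if_neg hb, map_zero]
        rw [h2]
        refine Eq.trans ?_ h1
        have h3 : ∀ k : Fin (L.n i), TT V L.τ S.Y C (S.cG i k) 0 (Sum.inl ⟨i, b⟩ : S.υ) =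
            aeval (fun b => resv V (L.y i b)) (pderiv b (L.G i k.succ)) := fun k => TT_G_same i k b
        simp only [h3]
      · intro i' _ hne
        refine Finset.sum_eq_zero fun k _ => ?_
        rw [TT_G_of_notMem _ _ _ (by
          intro b' h'
          apply hne
          have := Sum.inl_injective h'
          exact (congrArg Sigma.fst this).symm), mul_zero]
      · intro h'; exact absurd (Finset.mem_univ _) h'
      · intro i' _ hne
        by_cases hi : L.t i' = 1
        · rw [TT_I_one hi, mul_zero]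
        · obtain ⟨w', -, hw'⟩ := TT_I_unif (S := S) h hi
          rw [hw', if_neg (by
            intro h'
            apply hne
            have := Sum.inl_injective h'
            exact (congrArg Sigma.fst this).symm), mul_zero]
      · intro h'; exact absurd (Finset.mem_univ _) h'
    have hvec : Matrix.vecMul (Fin.cons (a (Sum.inl i) * w) (fun k => a (Sum.inr (Sum.inl ⟨i, k⟩))) :
        Fin (L.n i + 1) → ResidueField V) (Matrix.of fun a b =>
        aeval (fun b => resv V (L.y i b)) (pderiv b (L.G i a))) = 0 := by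
      funext b
      exact key b
    have hz := Matrix.eq_zero_of_vecMul_eq_zero (det_ne_zero i) hvec
    refine ⟨fun hi => ?_, fun k => ?_⟩
    · have h1 := congrFun hz 0
      rw [Fin.cons_zero, Pi.zero_apply] at h1
      exact (mul_eq_zero.mp h1).resolve_right (hw0 hi)
    · have h1 := congrFun hz k.succ
      rw [Fin.cons_succ, Pi.zero_apply] at h1
      exact h1
  rintro (i | ⟨i, k⟩ | c | j | b)
  · by_cases hi : L.t i = 1
    · exact hai i hi
    · exact (hcurve i).1 hi
  · exact (hcurve i).2 k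
  · exact hac c
  · exact haj j
  · exact ha0 b

/-- **Local regularity.** -/
theorem isRegular_local (h : Ctx L C)
    (halg : Algebra.IsAlgebraic (Algebra.adjoin (ZMod p)
      (Set.range (Sum.elim (fun j => mon L.τ (C.b j)) S.Y))) K)
    (htr : (Fintype.card I : Cardinal.{0}) ≤ Algebra.trdeg (ZMod p) K) :
    IsRegularLocalRing (vloc V (Algebra.adjoin ℤ
      (Set.range (Sum.elim (fun j => mon L.τ (C.b j)) S.Y)))) := by
  refine isRegular_of_mrel (ZMod.ringHom_surjective (Int.castRingHom (ZMod p))) V L.τ_ne_zero h.hC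
    h.hb S.vY halg (S.ρ C) (ρ_ok h) ρ_rel ?_ (ρ_indep h)
  have h1 := card_le S
  calc ((Fintype.card (I ⊕ (Fin m → ZMod p)) : Cardinal.{0}) + Fintype.card S.υ) =
        ((Fintype.card (I ⊕ (Fin m → ZMod p)) + Fintype.card S.υ : ℕ) : Cardinal.{0}) := by
          push_cast; rfl
    _ ≤ ((Fintype.card I + Fintype.card S.κ : ℕ) : Cardinal.{0}) := by exact_mod_cast h1
    _ = (Fintype.card I : Cardinal.{0}) + Fintype.card S.κ := by push_cast; rfl
    _ ≤ _ := by gcongr

end Pool.Agent.H96.W
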