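import Pool.Agent.H96.W.Engine2
import Pool.Agent.H96.W.RegA

/-!
# Monomials and relations with monomial coefficients
-/

set_option autoImplicit false
set_option linter.unusedSectionVars false

namespace Pool.Agent.H96.W

open MvPolynomial IsLocalRing Pool.Agent.H96.Reg Pool.Agent.H96.VL

variable {ι : Type} [Fintype ι] [DecidableEq ι]

section Mon

variable {K : Type} [Field K] {τ : ι → K}

/-- Laurent monomials. -/
def mon (τ : ι → K) (u : ι → ℤ) : K := ∏ α, τ α ^ u α

theorem mon_zero : mon τ 0 = 1 := by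
  rw [mon]
  exact Finset.prod_eq_one fun α _ => by rw [Pi.zero_apply, zpow_zero]

theorem mon_ne_zero (hτ : ∀ α, τ α ≠ 0) (u : ι → ℤ) : mon τ u ≠ 0 :=
  Finset.prod_ne_zero_iff.mpr fun α _ => zpow_ne_zero _ (hτ α)

theorem mon_add (hτ : ∀ α, τ α ≠ 0) (u v : ι → ℤ) : mon τ (u + v) = mon τ u * mon τ v := by
  rw [mon, mon, mon, ← Finset.prod_mul_distrib]
  exact Finset.prod_congr rfl fun α _ => by rw [Pi.add_apply, zpow_add₀ (hτ α)]

theorem mon_neg (u : ι → ℤ) : mon τ (-u) = (mon τ u)⁻¹ := by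
  rw [mon, mon, ← Finset.prod_inv_distrib]
  exact Finset.prod_congr rfl fun α _ => by rw [Pi.neg_apply, zpow_neg]

theorem mon_sub (hτ : ∀ α, τ α ≠ 0) (u v : ι → ℤ) : mon τ (u - v) = mon τ u / mon τ v := by
  rw [sub_eq_add_neg, mon_add hτ, mon_neg, div_eq_mul_inv]

theorem mon_single (α : ι) : mon τ (Pi.single α 1) = τ α := by
  rw [mon, Finset.prod_eq_single α]
  · rw [Pi.single_eq_same, zpow_one]
  · intro β _ hβ
    rw [Pi.single_eq_of_ne hβ, zpow_zero]
  · intro h; exact absurd (Finset.mem_univ _) h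

theorem mon_smul (n : ℤ) (u : ι → ℤ) : mon τ (n • u) = mon τ u ^ n := by
  rw [mon, mon, ← Finset.prod_zpow]
  refine Finset.prod_congr rfl fun α _ => ?_
  rw [Pi.smul_apply, smul_eq_mul, mul_comm, zpow_mul]

theorem mon_sum (hτ : ∀ α, τ α ≠ 0) {κ : Type} (s : Finset κ) (u : κ → ι → ℤ) :
    mon τ (∑ j ∈ s, u j) = ∏ j ∈ s, mon τ (u j) := by
  classical
  induction s using Finset.induction_on with
  | empty => rw [Finset.sum_empty, Finset.prod_empty, mon_zero]
  | insert a s ha ih => rw [Finset.sum_insert ha, Finset.prod_insert ha, mon_add hτ, ih]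

theorem mon_expand (hτ : ∀ α, τ α ≠ 0) {C : Cone ι} (h : IsCone C) (u : ι → ℤ) :
    mon τ u = ∏ j, mon τ (C.b j) ^ (C.r j ⬝ᵥ u) := by
  conv_lhs => rw [h.expand u]
  rw [mon_sum hτ]
  exact Finset.prod_congr rfl fun j _ => mon_smul _ _

theorem mon_expand_nat (hτ : ∀ α, τ α ≠ 0) {C : Cone ι} (h : IsCone C) {u : ι → ℤ}
    (hu : ∀ j, 0 ≤ C.r j ⬝ᵥ u) : mon τ u = ∏ j, mon τ (C.b j) ^ (C.r j ⬝ᵥ u).toNat := by
  rw [mon_expand hτ h]
  refine Finset.prod_congr rfl fun j _ => ?_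
  rw [← zpow_natCast, Int.toNat_of_nonneg (hu j)]

variable {V : ValuationSubring K} {R : Subring K}

/-- The preorder of a valuation. -/
theorem tot_of_val (hτ : ∀ α, τ α ≠ 0) (hv : ∀ α, V.valuation (τ α) ≤ 1) :
    Tot {u | V.valuation (mon τ u) ≤ 1} where
  add := by
    intro u hu v hv'
    show V.valuation (mon τ (u + v)) ≤ 1
    rw [mon_add hτ, map_mul]
    exact mul_le_one' hu hv'
  total := by
    intro u
    rcases le_total (V.valuation (mon τ u)) 1 with h | h
    · exact Or.inl h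
    · right
      show V.valuation (mon τ (-u)) ≤ 1
      rw [mon_neg, map_inv₀]
      exact inv_le_one_of_one_le₀ h
  e := by
    intro α
    show V.valuation (mon τ (Pi.single α 1)) ≤ 1
    rw [mon_single]
    exact hv α

theorem loc_of_vlocal (hτ : ∀ α, τ α ≠ 0) (hR : VLocal V R) (hτR : ∀ α, τ α ∈ R) :
    Loc {u | V.valuation (mon τ u) ≤ 1} {u | mon τ u ∈ R} where
  le := fun u hu => hR.le _ hu
  add := by
    intro u hu v hv
    show mon τ (u + v) ∈ R
    rw [mon_add hτ]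
    exact R.mul_mem hu hv
  zero := by
    show mon τ 0 ∈ R
    rw [mon_zero]; exact R.one_mem
  e := by
    intro α
    show mon τ (Pi.single α 1) ∈ R
    rw [mon_single]
    exact hτR α
  loc := by
    intro u hu hu'
    have h1 : V.valuation (mon τ u) ≤ 1 := hR.le _ hu
    have h2 : V.valuation (mon τ (-u)) ≤ 1 := hu'
    show mon τ (-u) ∈ R
    rw [mon_neg] at h2 ⊢
    have h3 : V.valuation (mon τ u) = 1 := by
      apply le_antisymm h1
      rw [map_inv₀] at h2
      have h0 : 0 < V.valuation (mon τ u) := by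
        rw [Valuation.pos_iff]; exact mon_ne_zero hτ u
      exact (inv_le_one₀ h0).mp h2
    exact hR.inv _ hu h3

end Mon

section Poly

variable {A : Type} [CommRing A] {υ : Type} [Fintype υ] [DecidableEq υ]

/-- The exponent vector in the variables of the chart. -/
noncomputable def fexp (n : ι → ℕ) : (ι ⊕ υ) →₀ ℕ :=
  Finsupp.equivFunOnFinite.symm (Sum.elim n fun _ => 0)

theorem prod_X_pow (n : ι → ℕ) : ∏ j, (X (Sum.inl j) : MvPolynomial (ι ⊕ υ) A) ^ n j =
    monomial (fexp n) 1 := by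
  rw [monomial_eq, map_one, one_mul, Finsupp.prod_fintype _ _ (fun _ => pow_zero _),
    Fintype.prod_sum_type]
  have h1 : ∏ v : υ, (X (Sum.inr v) : MvPolynomial (ι ⊕ υ) A) ^ (fexp n : (ι ⊕ υ) →₀ ℕ) (Sum.inr v)
      = 1 := Finset.prod_eq_one fun v _ => pow_zero _
  rw [h1, mul_one]
  rfl

theorem X_mul_pderiv_prod (n : ι → ℕ) (j : ι) :
    (X (Sum.inl j) : MvPolynomial (ι ⊕ υ) A) * pderiv (Sum.inl j) (∏ j, X (Sum.inl j) ^ n j) =
      (n j : MvPolynomial (ι ⊕ υ) A) * ∏ j, X (Sum.inl j) ^ n j := by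
  rw [prod_X_pow, X_mul_pderiv_monomial, nsmul_eq_mul]
  rfl

theorem pderiv_inr_prod (n : ι → ℕ) (l : υ) :
    pderiv (Sum.inr l) (∏ j, (X (Sum.inl j) : MvPolynomial (ι ⊕ υ) A) ^ n j) = 0 := by
  rw [prod_X_pow, pderiv_monomial]
  have h1 : (fexp n : (ι ⊕ υ) →₀ ℕ) (Sum.inr l) = 0 := rfl
  rw [h1, Nat.cast_zero, mul_zero, monomial_zero]

theorem pderiv_inl_rename (c : MvPolynomial υ A) (j : ι) :
    pderiv (Sum.inl j) (rename Sum.inr c : MvPolynomial (ι ⊕ υ) A) = 0 := by
  apply pderiv_eq_zero_of_notMem_vars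
  intro h
  obtain ⟨l, -, hl⟩ := mem_vars_rename _ _ h
  exact absurd hl (by simp)

/-- A relation: the coefficients, the exponents and the smallest exponent. -/
structure MRel (ι υ A T : Type) [CommRing A] where
  c : T → MvPolynomial υ A
  x : T → ι → ℤ
  E : ι → ℤ

variable {T : Type} [Fintype T]

/-- The exponents of the terms of a relation in a chart. -/
def MRel.n (C : Cone ι) (ρ : MRel ι υ A T) (s : T) (j : ι) : ℕ := (C.r j ⬝ᵥ (ρ.x s - ρ.E)).toNat

/-- The polynomial of a relation in a chart. -/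
noncomputable def MRel.poly (C : Cone ι) (ρ : MRel ι υ A T) : MvPolynomial (ι ⊕ υ) A :=
  ∑ s, rename Sum.inr (ρ.c s) * ∏ j, X (Sum.inl j) ^ ρ.n C s j

/-- Admissibility. -/
def MRel.Ok (C : Cone ι) (ρ : MRel ι υ A T) : Prop :=
  ∀ s, ρ.c s = 0 ∨ ∀ j, 0 ≤ C.r j ⬝ᵥ (ρ.x s - ρ.E)

section Ev

variable {k : Type} [Field k] [Algebra A k] {b : ι → k} {y : υ → k}

theorem aeval_prod (n : ι → ℕ) : aeval (Sum.elim b y)
    (∏ j, (X (Sum.inl j) : MvPolynomial (ι ⊕ υ) A) ^ n j) = ∏ j, b j ^ n j := by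
  rw [map_prod]
  refine Finset.prod_congr rfl fun j _ => ?_
  rw [map_pow, aeval_X, Sum.elim_inl]

theorem aeval_rename_inr (c : MvPolynomial υ A) :
    aeval (Sum.elim b y) (rename Sum.inr c : MvPolynomial (ι ⊕ υ) A) = aeval y c := by
  rw [aeval_rename]
  rfl

theorem MRel.aeval_poly (C : Cone ι) (ρ : MRel ι υ A T) :
    aeval (Sum.elim b y) (ρ.poly C) = ∑ s, aeval y (ρ.c s) * ∏ j, b j ^ ρ.n C s j := by
  rw [MRel.poly, map_sum]
  refine Finset.sum_congr rfl fun s _ => ?_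
  rw [map_mul, aeval_prod, aeval_rename_inr]

theorem MRel.aeval_pderiv_inr (C : Cone ι) (ρ : MRel ι υ A T) (l : υ) :
    aeval (Sum.elim b y) (pderiv (Sum.inr l) (ρ.poly C)) =
      ∑ s, aeval y (pderiv l (ρ.c s)) * ∏ j, b j ^ ρ.n C s j := by
  rw [MRel.poly, map_sum, map_sum]
  refine Finset.sum_congr rfl fun s _ => ?_
  rw [pderiv_mul, pderiv_inr_prod, mul_zero, add_zero, pderiv_rename Sum.inr_injective, map_mul,
    aeval_prod, aeval_rename_inr]

theorem MRel.mul_aeval_pderiv_inl (C : Cone ι) (ρ : MRel ι υ A T) (l : ι) :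
    b l * aeval (Sum.elim b y) (pderiv (Sum.inl l) (ρ.poly C)) =
      ∑ s, aeval y (ρ.c s) * (ρ.n C s l * ∏ j, b j ^ ρ.n C s j) := by
  rw [MRel.poly, map_sum, map_sum, Finset.mul_sum]
  refine Finset.sum_congr rfl fun s _ => ?_
  rw [pderiv_mul, pderiv_inl_rename, zero_mul, zero_add, map_mul, aeval_rename_inr]
  have h1 := congrArg (aeval (Sum.elim b y)) (X_mul_pderiv_prod (A := A) (υ := υ) (ρ.n C s) l)
  rw [map_mul, map_mul, aeval_X, Sum.elim_inl, aeval_prod, map_natCast] at h1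
  rw [← h1]; ring

end Ev

theorem sum_swap {κ : Type} [Fintype κ] {k : Type} [Field k] (a : κ → k) (e : κ → T → k)
    (β : ι → k) (v : ι → κ → T → k) :
    ∑ j, β j * ∑ c, a c * ∑ s, e c s * v j c s =
      ∑ c, a c * ∑ s, e c s * ∑ j, β j * v j c s := by
  simp only [Finset.mul_sum]
  rw [Finset.sum_comm]
  refine Finset.sum_congr rfl fun c _ => ?_
  rw [Finset.sum_comm]
  refine Finset.sum_congr rfl fun s _ => Finset.sum_congr rfl fun j _ => ?_
  ring

/-- **Independence from the logarithmic differentials.** -/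
theorem indep_of_log {κ : Type} [Fintype κ] {k : Type} [Field k] [Algebra A k] {C : Cone ι}
    (hC : IsCone C) (ρ : κ → MRel ι υ A T) (hok : ∀ c, (ρ c).Ok C) (b : ι → k) (y : υ → k)
    (hrel : ∀ c, aeval (Sum.elim b y) ((ρ c).poly C) = 0)
    (hind : ∀ a : κ → k,
      (∀ α, ∑ c, a c * ∑ s, aeval y ((ρ c).c s) * (∏ j, b j ^ (ρ c).n C s j) *
        (((ρ c).x s α : ℤ) : k) = 0) →
      (∀ l, ∑ c, a c * ∑ s, aeval y (pderiv l ((ρ c).c s)) * ∏ j, b j ^ (ρ c).n C s j = 0) →
      ∀ c, a c = 0) :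
    IndepAt (fun c => (ρ c).poly C) (RingHom.ker
      (aeval (Sum.elim b y) : MvPolynomial (ι ⊕ υ) A →ₐ[A] k)) := by
  classical
  refine indepAt_of_linearA _ _ hrel fun a ha => hind a ?_ ?_
  · intro α
    set e : κ → T → k := fun c s => aeval y ((ρ c).c s) * ∏ j, b j ^ (ρ c).n C s j with he
    -- the logarithmic derivatives
    have h1 : ∀ j, ∑ c, a c * ∑ s, e c s * ((C.r j ⬝ᵥ ((ρ c).x s - (ρ c).E) : ℤ) : k) = 0 := by
      intro j
      have h2 : b j * ∑ c, a c * aeval (Sum.elim b y) (pderiv (Sum.inl j) ((ρ c).poly C)) = 0 := by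
        rw [ha, mul_zero]
      rw [← h2, Finset.mul_sum]
      refine Finset.sum_congr rfl fun c _ => ?_
      have h3 : b j * (a c * aeval (Sum.elim b y) (pderiv (Sum.inl j) ((ρ c).poly C))) =
          a c * (b j * aeval (Sum.elim b y) (pderiv (Sum.inl j) ((ρ c).poly C))) := by ring
      rw [h3, MRel.mul_aeval_pderiv_inl]
      refine congrArg (fun x => a c * x) (Finset.sum_congr rfl fun s _ => ?_)
      rcases hok c s with h4 | h4
      · rw [he]; simp only [h4, map_zero, zero_mul]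
      · have h5 : (((ρ c).n C s j : ℕ) : k) = ((C.r j ⬝ᵥ ((ρ c).x s - (ρ c).E) : ℤ) : k) := by
          rw [MRel.n]
          have h6 := Int.toNat_of_nonneg (h4 j)
          conv_rhs => rw [← h6]
          exact (Int.cast_natCast _).symm
        rw [← h5, he]; ring
    have h2 : ∑ c, a c * ∑ s, e c s * ((((ρ c).x s - (ρ c).E) α : ℤ) : k) = 0 := by
      have h3 : ∀ c s, ((((ρ c).x s - (ρ c).E) α : ℤ) : k) =
          ∑ j, ((C.b j α : ℤ) : k) * ((C.r j ⬝ᵥ ((ρ c).x s - (ρ c).E) : ℤ) : k) := by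
        intro c s
        have h4 := congrFun (hC.expand ((ρ c).x s - (ρ c).E)) α
        rw [Finset.sum_apply] at h4
        rw [h4]
        push_cast
        refine Finset.sum_congr rfl fun j _ => ?_
        rw [Pi.smul_apply, smul_eq_mul, Int.cast_mul, mul_comm]
      simp only [h3]
      rw [← sum_swap a e (fun j => ((C.b j α : ℤ) : k))
        (fun j c s => ((C.r j ⬝ᵥ ((ρ c).x s - (ρ c).E) : ℤ) : k))]
      exact Finset.sum_eq_zero fun j _ => by rw [h1, mul_zero]
    have h3 : ∀ c, ∑ s, e c s = 0 := by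
      intro c
      have := hrel c
      rw [MRel.aeval_poly] at this
      exact this
    have h4 : ∀ c, ∑ s, e c s * ((((ρ c).x s - (ρ c).E) α : ℤ) : k) =
        ∑ s, e c s * (((ρ c).x s α : ℤ) : k) := by
      intro c
      have h5 : ∀ s, e c s * ((((ρ c).x s - (ρ c).E) α : ℤ) : k) =
          e c s * (((ρ c).x s α : ℤ) : k) - e c s * (((ρ c).E α : ℤ) : k) := by
        intro s
        rw [Pi.sub_apply]
        push_cast
        ring
      simp only [h5]
      rw [Finset.sum_sub_distrib, ← Finset.sum_mul, h3, zero_mul, sub_zero]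
    simp only [h4] at h2
    exact h2
  · intro l
    have h1 := ha (Sum.inr l)
    simp only [MRel.aeval_pderiv_inr] at h1
    exact h1

/-- The relations vanish in `K`. -/
theorem MRel.aeval_poly_eq_zero {K : Type} [Field K] [Algebra A K] {τ : ι → K}
    (hτ : ∀ α, τ α ≠ 0) {C : Cone ι} (hC : IsCone C) {y : υ → K} {ρ : MRel ι υ A T} (hok : ρ.Ok C)
    (h : ∑ s, aeval y (ρ.c s) * mon τ (ρ.x s) = 0) :
    aeval (Sum.elim (fun j => mon τ (C.b j)) y) (ρ.poly C) = 0 := by
  rw [MRel.aeval_poly]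
  have h1 : ∀ s, aeval y (ρ.c s) * ∏ j, mon τ (C.b j) ^ ρ.n C s j =
      (aeval y (ρ.c s) * mon τ (ρ.x s)) * (mon τ ρ.E)⁻¹ := by
    intro s
    rcases hok s with h2 | h2
    · rw [h2, map_zero, zero_mul, zero_mul, zero_mul]
    · have h3 := mon_expand_nat hτ hC h2
      rw [mon_sub hτ, div_eq_mul_inv] at h3
      rw [mul_assoc, h3]
      rfl
  rw [Finset.sum_congr rfl fun s _ => h1 s, ← Finset.sum_mul, h, zero_mul]

/-- **The local criterion** in terms of monomials. -/
theorem isRegular_of_mrel [IsDomain A] [IsRegularRing A]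
    (hA : Function.Surjective (Int.castRingHom A)) {κ : Type} [Fintype κ]
    {K : Type} [Field K] [Algebra A K] [FaithfulSMul A K] (V : ValuationSubring K)
    [Algebra A (ResidueField V)] {τ : ι → K} (hτ : ∀ α, τ α ≠ 0) {C : Cone ι} (hC : IsCone C)
    (hb : ∀ j, V.valuation (mon τ (C.b j)) ≤ 1) {y : υ → K} (hy : ∀ l, V.valuation (y l) ≤ 1)
    (halg : Algebra.IsAlgebraic (Algebra.adjoin A
      (Set.range (Sum.elim (fun j => mon τ (C.b j)) y))) K)
    (ρ : κ → MRel ι υ A T) (hok : ∀ c, (ρ c).Ok C)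
    (h : ∀ c, ∑ s, aeval y ((ρ c).c s) * mon τ ((ρ c).x s) = 0)
    (htr : (Fintype.card ι + Fintype.card υ : Cardinal.{0}) ≤
      Algebra.trdeg A K + Fintype.card κ)
    (hind : ∀ a : κ → ResidueField V,
      (∀ α, ∑ c, a c * ∑ s, aeval (fun l => resv V (y l)) ((ρ c).c s) *
        (∏ j, resv V (mon τ (C.b j)) ^ (ρ c).n C s j) *
        (((ρ c).x s α : ℤ) : ResidueField V) = 0) →
      (∀ l, ∑ c, a c * ∑ s, aeval (fun l => resv V (y l)) (pderiv l ((ρ c).c s)) *
        ∏ j, resv V (mon τ (C.b j)) ^ (ρ c).n C s j = 0) →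
      ∀ c, a c = 0) :
    IsRegularLocalRing (vloc V (Algebra.adjoin ℤ
      (Set.range (Sum.elim (fun j => mon τ (C.b j)) y)))) := by
  have hz : ∀ s, V.valuation (Sum.elim (fun j => mon τ (C.b j)) y s) ≤ 1 := by
    rintro (j | l)
    · exact hb j
    · exact hy l
  have hres : (fun s => resv V (Sum.elim (fun j => mon τ (C.b j)) y s)) =
      Sum.elim (fun j => resv V (mon τ (C.b j))) (fun l => resv V (y l)) := by
    funext s
    rcases s with j | l <;> rfl
  have hrel : ∀ c, aeval (Sum.elim (fun j => mon τ (C.b j)) y) ((ρ c).poly C) = 0 := fun c =>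
    MRel.aeval_poly_eq_zero hτ hC (hok c) (h c)
  refine isRegularLocalRing_vlocA hA (κ := κ) V _ hz halg (fun c => (ρ c).poly C) hrel ?_ ?_
  · rw [Nat.card_sum, Nat.card_eq_fintype_card, Nat.card_eq_fintype_card]
    push_cast
    exact htr
  · rw [hres]
    refine indep_of_log hC ρ hok _ _ ?_ hind
    intro c
    have h1 := (resv_aevalA hA _ hz ((ρ c).poly C)).2
    rw [hrel, hres] at h1
    rw [← h1]
    exact (resv_eq_zero_iff (by simp)).mpr (by simp)

end Poly

end Pool.Agent.H96.W
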