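import Pool.Agent.H96.W.Mono

/-!
# Relations in a chart: leading terms
-/

set_option autoImplicit false
set_option linter.unusedSectionVars false

namespace Pool.Agent.H96.W

open MvPolynomial IsLocalRing Pool.Agent.H96.Reg Pool.Agent.H96.VL

section Resv

variable {K : Type} [Field K] {V : ValuationSubring K}

theorem resv_one : resv V (1 : K) = 1 := by
  have := resv_intCast V 1
  simpa using this

theorem resv_zero : resv V (0 : K) = 0 := (resv_eq_zero_iff (by simp)).mpr (by simp)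

theorem resv_pow {x : K} (hx : V.valuation x ≤ 1) (n : ℕ) : resv V (x ^ n) = resv V x ^ n := by
  induction n with
  | zero => rw [pow_zero, pow_zero, resv_one]
  | succ n ih =>
    rw [pow_succ, pow_succ, resv_mul _ hx, ih]
    rw [map_pow]
    exact pow_le_one' hx n

theorem resv_prod {κ : Type} (s : Finset κ) {x : κ → K} (hx : ∀ j ∈ s, V.valuation (x j) ≤ 1) :
    resv V (∏ j ∈ s, x j) = ∏ j ∈ s, resv V (x j) ∧ V.valuation (∏ j ∈ s, x j) ≤ 1 := by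
  classical
  induction s using Finset.induction_on with
  | empty => exact ⟨by rw [Finset.prod_empty, Finset.prod_empty, resv_one], by simp⟩
  | insert a s ha ih =>
    obtain ⟨h1, h2⟩ := ih fun j hj => hx j (Finset.mem_insert_of_mem hj)
    have h3 := hx a (Finset.mem_insert_self a s)
    rw [Finset.prod_insert ha, Finset.prod_insert ha, resv_mul h3 h2, h1]
    exact ⟨rfl, by rw [map_mul]; exact mul_le_one' h3 h2⟩

end Resv

variable {ι : Type} [Fintype ι] [DecidableEq ι] {A : Type} [CommRing A] {υ : Type} [Fintype υ]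
  [DecidableEq υ] {T : Type} [Fintype T] {K : Type} [Field K]

/-- The residues of the monomials of a relation in the chart. -/
noncomputable def ee (V : ValuationSubring K) (τ : ι → K) (C : Cone ι) (ρ : MRel ι υ A T) (s : T) :
    ResidueField V := ∏ j, resv V (mon τ (C.b j)) ^ ρ.n C s j

variable {V : ValuationSubring K} {τ : ι → K} {C : Cone ι}

theorem ee_eq (hτ : ∀ α, τ α ≠ 0) (hC : IsCone C) (hb : ∀ j, V.valuation (mon τ (C.b j)) ≤ 1)
    {ρ : MRel ι υ A T} {s : T} (h : ∀ j, 0 ≤ C.r j ⬝ᵥ (ρ.x s - ρ.E)) :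
    ee V τ C ρ s = resv V (mon τ (ρ.x s - ρ.E)) := by
  rw [mon_expand_nat hτ hC h, ee, (resv_prod _ _).1]
  · exact Finset.prod_congr rfl fun j _ => (resv_pow (hb j) _).symm
  · intro j _
    rw [map_pow]
    exact pow_le_one' (hb j) _

theorem val_mon_of_nonneg (hτ : ∀ α, τ α ≠ 0) (hC : IsCone C)
    (hb : ∀ j, V.valuation (mon τ (C.b j)) ≤ 1) {u : ι → ℤ} (h : ∀ j, 0 ≤ C.r j ⬝ᵥ u) :
    V.valuation (mon τ u) ≤ 1 := by
  rw [mon_expand_nat hτ hC h, map_prod]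
  refine Finset.prod_le_one' fun j _ => ?_
  rw [map_pow]
  exact pow_le_one' (hb j) _

/-- The relation with given coefficients and exponents. -/
noncomputable def mrel (C : Cone ι) (c : T → MvPolynomial υ A) (x : T → ι → ℤ) : MRel ι υ A T where
  c := c
  x := x
  E := open Classical in
    if h : ∃ s₀, c s₀ ≠ 0 ∧ ∀ s, c s ≠ 0 → ∀ j, 0 ≤ C.r j ⬝ᵥ (x s - x s₀) then x h.choose else 0

theorem exists_min {S : Finset T} (hS : S.Nonempty) {x : T → ι → ℤ}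
    (h : ∀ s ∈ S, ∀ s' ∈ S, Sgn C (x s - x s')) :
    ∃ s₀ ∈ S, ∀ s ∈ S, ∀ j, 0 ≤ C.r j ⬝ᵥ (x s - x s₀) := by
  obtain ⟨s₀, hs₀, hmin⟩ := Finset.exists_min_image S (fun s => ∑ j, C.r j ⬝ᵥ x s) hS
  refine ⟨s₀, hs₀, fun s hs => ?_⟩
  rcases h s hs s₀ hs₀ with h1 | h1
  · exact h1
  · have h2 := hmin s hs
    have h3 : ∑ j, C.r j ⬝ᵥ (-(x s - x s₀)) ≤ 0 := by
      have h4 : ∀ j, C.r j ⬝ᵥ (-(x s - x s₀)) = C.r j ⬝ᵥ x s₀ - C.r j ⬝ᵥ x s := by
        intro j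
        rw [dotProduct_neg, dotProduct_sub]; ring
      simp only [h4]
      rw [Finset.sum_sub_distrib]
      linarith
    have h4 : ∀ j ∈ Finset.univ, C.r j ⬝ᵥ (-(x s - x s₀)) = 0 := by
      rw [← Finset.sum_eq_zero_iff_of_nonneg fun j _ => h1 j]
      exact le_antisymm h3 (Finset.sum_nonneg fun j _ => h1 j)
    intro j
    have h5 := h4 j (Finset.mem_univ _)
    rw [dotProduct_neg, neg_eq_zero] at h5
    rw [h5]

variable {c : T → MvPolynomial υ A} {x : T → ι → ℤ}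

theorem mrel_E_pos (hex : ∃ s₀, c s₀ ≠ 0 ∧ ∀ s, c s ≠ 0 → ∀ j, 0 ≤ C.r j ⬝ᵥ (x s - x s₀)) :
    (mrel C c x).E = x hex.choose := dif_pos hex

theorem mrel_E_neg (hex : ¬ ∃ s₀, c s₀ ≠ 0 ∧ ∀ s, c s ≠ 0 → ∀ j, 0 ≤ C.r j ⬝ᵥ (x s - x s₀)) :
    (mrel C c x).E = 0 := dif_neg hex

theorem mrel_spec (hne : ∃ s, c s ≠ 0)
    (h : ∀ s, c s ≠ 0 → ∀ s', c s' ≠ 0 → Sgn C (x s - x s')) :
    ∃ s₀, c s₀ ≠ 0 ∧ (mrel C c x).E = x s₀ ∧ ∀ s, c s ≠ 0 → ∀ j, 0 ≤ C.r j ⬝ᵥ (x s - x s₀) := by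
  classical
  have hex : ∃ s₀, c s₀ ≠ 0 ∧ ∀ s, c s ≠ 0 → ∀ j, 0 ≤ C.r j ⬝ᵥ (x s - x s₀) := by
    obtain ⟨s₀, hs₀, h1⟩ := exists_min (S := Finset.univ.filter fun s => c s ≠ 0) (C := C) (x := x)
      (by
        obtain ⟨s, hs⟩ := hne
        exact ⟨s, Finset.mem_filter.mpr ⟨Finset.mem_univ _, hs⟩⟩)
      (fun s hs s' hs' => h s (Finset.mem_filter.mp hs).2 s' (Finset.mem_filter.mp hs').2)
    exact ⟨s₀, (Finset.mem_filter.mp hs₀).2, fun s hs =>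
      h1 s (Finset.mem_filter.mpr ⟨Finset.mem_univ _, hs⟩)⟩
  exact ⟨hex.choose, hex.choose_spec.1, mrel_E_pos hex, hex.choose_spec.2⟩

theorem mrel_ok (h : ∀ s, c s ≠ 0 → ∀ s', c s' ≠ 0 → Sgn C (x s - x s')) : (mrel C c x).Ok C := by
  intro s
  by_cases hs : c s = 0
  · exact Or.inl hs
  · right
    obtain ⟨s₀, -, hE, h1⟩ := mrel_spec ⟨s, hs⟩ h
    rw [hE]
    exact h1 s hs

/-- The monomial of a dominant term is a unit. -/
theorem ee_ne_zero (hτ : ∀ α, τ α ≠ 0) (hC : IsCone C) (hb : ∀ j, V.valuation (mon τ (C.b j)) ≤ 1)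
    (h : ∀ s, c s ≠ 0 → ∀ s', c s' ≠ 0 → Sgn C (x s - x s')) {s : T} (hs : c s ≠ 0)
    (hdom : ∀ s', c s' ≠ 0 → V.valuation (mon τ (x s')) ≤ V.valuation (mon τ (x s))) :
    ee V τ C (mrel C c x) s ≠ 0 := by
  obtain ⟨s₀, hs₀, hE, h1⟩ := mrel_spec ⟨s, hs⟩ h
  have h2 : ∀ j, 0 ≤ C.r j ⬝ᵥ ((mrel C c x).x s - (mrel C c x).E) := by
    rw [hE]; exact h1 s hs
  have h3 := val_mon_of_nonneg hτ hC hb h2
  rw [ee_eq hτ hC hb h2, resv_ne_zero_iff h3]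
  apply le_antisymm h3
  rw [hE]
  show 1 ≤ V.valuation (mon τ (x s - x s₀))
  rw [mon_sub hτ, map_div₀]
  have h4 : 0 < V.valuation (mon τ (x s₀)) := by
    rw [Valuation.pos_iff]; exact mon_ne_zero hτ _
  exact (one_le_div₀ h4).mpr (hdom s₀ hs₀)

/-- The monomial of a dominated term vanishes. -/
theorem ee_eq_zero (hτ : ∀ α, τ α ≠ 0) (hC : IsCone C) (hb : ∀ j, V.valuation (mon τ (C.b j)) ≤ 1)
    (h : ∀ s, c s ≠ 0 → ∀ s', c s' ≠ 0 → Sgn C (x s - x s')) {s s' : T} (hs : c s ≠ 0)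
    (hs' : c s' ≠ 0) (hlt : V.valuation (mon τ (x s)) < V.valuation (mon τ (x s'))) :
    ee V τ C (mrel C c x) s = 0 := by
  obtain ⟨s₀, hs₀, hE, h1⟩ := mrel_spec ⟨s, hs⟩ h
  have h2 : ∀ j, 0 ≤ C.r j ⬝ᵥ ((mrel C c x).x s - (mrel C c x).E) := by
    rw [hE]; exact h1 s hs
  have h3 := val_mon_of_nonneg hτ hC hb h2
  rw [ee_eq hτ hC hb h2, resv_eq_zero_iff h3, hE]
  show V.valuation (mon τ (x s - x s₀)) < 1
  have h4 : 0 < V.valuation (mon τ (x s₀)) := by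
    rw [Valuation.pos_iff]; exact mon_ne_zero hτ _
  have h5 := val_mon_of_nonneg hτ hC hb (h1 s' hs')
  rw [mon_sub hτ, map_div₀] at h5 ⊢
  have h6 := (div_le_one₀ h4).mp h5
  exact (div_lt_one₀ h4).mpr (hlt.trans_le h6)

/-- Relations without monomials. -/
theorem ee_eq_one (h : ∀ s, c s ≠ 0 → x s = 0) {s : T} (hs : c s ≠ 0) :
    ee V τ C (mrel C c x) s = 1 := by
  classical
  have hE : (mrel C c x).E = 0 := by
    by_cases hex : ∃ s₀, c s₀ ≠ 0 ∧ ∀ s, c s ≠ 0 → ∀ j, 0 ≤ C.r j ⬝ᵥ (x s - x s₀)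
    · rw [mrel_E_pos hex]
      exact h _ hex.choose_spec.1
    · exact mrel_E_neg hex
  rw [ee]
  refine Finset.prod_eq_one fun j _ => ?_
  have : (mrel C c x).n C s j = 0 := by
    rw [MRel.n, hE]
    show (C.r j ⬝ᵥ (x s - 0)).toNat = 0
    rw [h s hs, sub_zero, dotProduct_zero]
    rfl
  rw [this, pow_zero]

end Pool.Agent.H96.W
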